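import Pool.Agent.Y910.S.C6
import Pool.Agent.H322R2.ACore2

/-!
Two-point method with anchors on weighted curves: local data and the auxiliary system.
-/

open Polynomial Finset

namespace Pool.Agent.Y910.A

open Pool.Agent.H322R2 Pool.Agent.Y910.S

/-- Data describing an integer point `(a,b)` on `F = 0` that lies on a branch at infinity
defined over `A`, on which the two coordinates have poles of order `p` and `q`. The radius of
convergence is controlled by `B`, the coefficients by `W`. -/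
structure AQ {A : Type*} [CommRing A] (N : RingSeminorm A) (σ : A →+* ℝ) (p q E : ℕ) (B W : ℝ)
    (F : ℤ[X][X]) (a b : ℤ) where
  ωS : PowerSeries A
  ωU : PowerSeries A
  ωV : PowerSeries A
  Z : ℝ
  R : ℝ
  θ : PowerSeries ℝ
  S : PowerSeries ℝ
  hp : 1 ≤ p
  hq : 1 ≤ q
  hB : 2 ≤ B
  hW : 1 ≤ W
  hZ : Z ^ p = |(a : ℝ)|
  hZB : B ^ 2 ≤ Z
  hR : 1 ≤ R
  hωS : Bd N (1 / B) ωS 1
  hωU : Bd N (1 / B) ωU B
  hωV : Bd N (1 / B) ωV W
  hθ : Bd rn R θ (B / Z)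
  hS : Bd rn R S (B * Z)
  hSθ : S * sb θ (PowerSeries.map σ ωS) = 1
  hU : PowerSeries.C (a : ℝ) + PowerSeries.X = S ^ p * sb θ (PowerSeries.map σ ωU)
  hV : PowerSeries.constantCoeff (S ^ q * sb θ (PowerSeries.map σ ωV)) = (b : ℝ)
  hF : ev (PowerSeries.C (a : ℝ) + PowerSeries.X) (S ^ q * sb θ (PowerSeries.map σ ωV)) F = 0
  hD : ev a b (derivative F) ≠ 0
  hDle : |((ev a b (derivative F) : ℤ) : ℝ)| ≤ |(a : ℝ)| ^ E
  hFn : pn (pn zn) F ≤ W

namespace AQ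

variable {A : Type*} [CommRing A] {N : RingSeminorm A} {σ : A →+* ℝ} {p q E : ℕ} {B W : ℝ}
    {F : ℤ[X][X]} {a b : ℤ} (P : AQ N σ p q E B W F a b)

include P

lemma B_pos : 0 < B := by have := P.hB; linarith

lemma B_one : 1 ≤ B := by have := P.hB; linarith

lemma W_pos : 0 < W := by have := P.hW; linarith

lemma Z_ge : 4 ≤ P.Z := by
  have h1 := P.hB
  have h2 := P.hZB
  nlinarith

lemma Z_pos : 0 < P.Z := by have := P.Z_ge; linarith

lemma Z_le : P.Z ≤ |(a : ℝ)| := by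
  rw [← P.hZ]
  exact le_self_pow₀ (by have := P.Z_ge; linarith) (by have := P.hp; omega)

lemma a_ge : 4 ≤ |(a : ℝ)| := P.Z_ge.trans P.Z_le

lemma a_pos : 0 < |(a : ℝ)| := by have := P.a_ge; linarith

lemma a_ne : a ≠ 0 := by
  rintro rfl
  have := P.a_pos
  simp at this

lemma ρ_pos : 0 < 1 / B := by have := P.B_pos; positivity

lemma rad_le : B / P.Z ≤ 1 / B := by
  rw [div_le_div_iff₀ P.Z_pos P.B_pos]
  have := P.hZB
  nlinarith

lemma r_pos : 0 < P.R := by have := P.hR; linarith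

lemma q_nonneg : 0 ≤ B / P.Z := by
  have := P.B_pos; have := P.Z_pos; positivity

lemma hev : ev a b F = 0 := by
  have h := congrArg PowerSeries.constantCoeff P.hF
  rw [map_ev, map_zero, P.hV] at h
  have h2 : PowerSeries.constantCoeff (PowerSeries.C (a : ℝ) + PowerSeries.X : PowerSeries ℝ)
      = (a : ℝ) := by simp
  rw [h2] at h
  have h3 := map_ev (Int.castRingHom ℝ) a b F
  simp only [eq_intCast] at h3
  rw [← h3] at h
  exact_mod_cast h

end AQ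

/-- a large point on a branch is an anchor -/
noncomputable def AQ.ofBQ {A : Type*} [CommRing A] {N : RingSeminorm A} {σ : A →+* ℝ}
    {p q E : ℕ} {B : ℝ} {F : ℤ[X][X]} {a b : ℤ} (P : BQ N σ p q E B F a b) :
    AQ N σ p q E B B F a b where
  ωS := P.ωS
  ωU := P.ωU
  ωV := P.ωV
  Z := P.Z
  R := P.R
  θ := P.θ
  S := P.S
  hp := P.hp
  hq := P.hq
  hB := P.hB
  hW := P.B_one
  hZ := P.hZ
  hZB := P.hZB
  hR := P.hR
  hωS := P.hωS
  hωU := P.hωU
  hωV := P.hωV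
  hθ := P.hθ
  hS := P.hS
  hSθ := P.hSθ
  hU := P.hU
  hV := P.hV
  hF := P.hF
  hD := P.hD
  hDle := P.hDle
  hFn := P.hFn

/-- the earlier anchors are anchors of level `(1,1)` -/
noncomputable def AQ.ofAP {A : Type*} [CommRing A] {N : RingSeminorm A} {σ : A →+* ℝ}
    (h1 : N 1 ≤ 1)
    {e : ℕ} {B W : ℝ} {F : ℤ[X][X]} {a b : ℤ} (P : AP N σ e B W F a b) :
    AQ N σ 1 1 e B W F a b where
  ωS := P.ζ
  ωU := PowerSeries.C 1
  ωV := P.ω
  Z := |(a : ℝ)|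
  R := |(a : ℝ)| / 2
  θ := P.θ
  S := PowerSeries.C (a : ℝ) + PowerSeries.X
  hp := le_rfl
  hq := le_rfl
  hB := P.hB
  hW := P.hW
  hZ := pow_one _
  hZB := P.ha
  hR := by have := P.a_ge; linarith
  hωS := P.hζ.of_le (by have := P.B_pos; positivity) P.hρB
  hωU := by
    refine (Bd.C (by have := P.B_pos; positivity) (1 : A)).mono ?_
    have := P.hB
    linarith
  hωV := P.hω.of_le (by have := P.B_pos; positivity) P.hρB
  hθ := P.hθ
  hS := by
    have hr := P.r_pos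
    have h5 := (Bd.C (N := rn) hr.le (a : ℝ)).add hr.le (Bd.X hr.le rn_one)
    apply h5.mono
    rw [rn_apply]
    have := P.hB
    have := P.a_pos
    nlinarith
  hSθ := P.hx
  hU := by
    rw [PowerSeries.map_C, map_one, sb_C, pow_one, map_one, mul_one]
  hV := by rw [pow_one]; exact P.hy
  hF := by rw [pow_one]; exact P.hF
  hD := P.hD
  hDle := P.hDle
  hFn := P.hFn

section Main

variable {A : Type*} [CommRing A] {N : RingSeminorm A} {σ : A →+* ℝ}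

/-- normalised monomial functions on a branch -/
noncomputable def monoA {p q E : ℕ} {B W : ℝ} {F : ℤ[X][X]} {a b : ℤ}
    (P : AQ N σ p q E B W F a b) (m i j : ℕ) : PowerSeries A :=
  P.ωS ^ (m - p * i - q * j) * (P.ωU ^ i * P.ωV ^ j)

lemma bd_monoA (h1 : N 1 ≤ 1) {p q E : ℕ} {B W : ℝ} {F : ℤ[X][X]} {a b : ℤ}
    (P : AQ N σ p q E B W F a b) (m i j : ℕ) :
    Bd N (1 / B) (monoA P m i j) (B ^ i * W ^ j) := by
  have h := (P.hωS.pow P.ρ_pos.le h1 (m - p * i - q * j)).mul P.ρ_pos.le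
    ((P.hωU.pow P.ρ_pos.le h1 i).mul P.ρ_pos.le (P.hωV.pow P.ρ_pos.le h1 j))
  refine Bd.mono h ?_
  rw [one_pow, one_mul]

lemma coeff_monoA_le (h1 : N 1 ≤ 1) {p q E : ℕ} {B W : ℝ} {F : ℤ[X][X]} {a b : ℤ}
    (P : AQ N σ p q E B W F a b) (m i j l K J : ℕ) (hK : i + l ≤ K) (hJ : j ≤ J) :
    N (PowerSeries.coeff l (monoA P m i j)) ≤ W ^ J * B ^ K := by
  refine (coeffN_le P.B_pos le_rfl (bd_monoA h1 P m i j) l).trans ?_
  have hB := P.B_pos
  have hW := P.W_pos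
  calc B ^ i * W ^ j * B ^ l = W ^ j * B ^ (i + l) := by rw [pow_add]; ring
    _ ≤ W ^ J * B ^ K := mul_le_mul (pow_le_pow_right₀ P.hW hJ) (pow_le_pow_right₀ P.B_one hK)
        (by positivity) (by positivity)

lemma count_auxG (r1 r2 k p1 q1 p2 q2 t' : ℕ) (hr2 : 3 ≤ r2) (hk : 3 * k ≤ r1 * r2)
    (hp2 : 1 ≤ p2) (hq2 : 1 ≤ q2) (ht : q1 * r1 ≤ t') (w : ℕ) (hw : w = p2 * q2 * r2)
    (S0 : ℕ) (hS0 : 2 * S0 = (21 * w) * (21 * w + 1) * (p1 * t')) :
    14 * (S0 * k) ≤ 13 * (((r2 * p2) * (9 * q2 * r2)) * ((r1 * p1) * (10 * w * t' - q1 * r1))) := by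
  have hwr : r2 ≤ w := by
    rw [hw]
    calc r2 = 1 * 1 * r2 := by ring
      _ ≤ p2 * q2 * r2 := by gcongr
  have hw3 : 3 ≤ w := hr2.trans hwr
  obtain ⟨n, hn⟩ : ∃ n, n = 10 * w * t' - q1 * r1 := ⟨_, rfl⟩
  have hwt : t' ≤ w * t' := Nat.le_mul_of_pos_left _ (by omega)
  have h10 : 10 * w * t' = 10 * (w * t') := by ring
  have hn' : n + q1 * r1 = 10 * w * t' := by omega
  rw [← hn]
  have e1 : ((r2 * p2) * (9 * q2 * r2)) * ((r1 * p1) * n) = 9 * w * r2 * (r1 * p1) * n := by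
    rw [hw]; ring
  rw [e1]
  have e2 : 14 * (S0 * k) = 7 * ((21 * w) * (21 * w + 1) * (p1 * t')) * k := by
    rw [← hS0]; ring
  rw [e2]
  have e3 : 147 * (21 * w + 1) * t' ≤ 351 * n := by
    have g3 : 3 * t' ≤ w * t' := Nat.mul_le_mul_right _ hw3
    have g4 : 147 * (21 * w + 1) * t' = 3087 * (w * t') + 147 * t' := by ring
    rw [g4]
    omega
  have e4 : 3 * (7 * ((21 * w) * (21 * w + 1) * (p1 * t')) * k)
      ≤ 3 * (13 * (9 * w * r2 * (r1 * p1) * n)) := by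
    calc 3 * (7 * ((21 * w) * (21 * w + 1) * (p1 * t')) * k)
        = (147 * (21 * w + 1) * t') * (w * p1 * (3 * k)) := by ring
      _ ≤ (351 * n) * (w * p1 * (r1 * r2)) :=
          Nat.mul_le_mul e3 (Nat.mul_le_mul_left _ hk)
      _ = _ := by ring
  exact Nat.le_of_mul_le_mul_left e4 (by norm_num)

variable {r1 r2 p1 q1 p2 q2 E1 E2 : ℕ} {B1 W B2 : ℝ} {F1 F2 : ℤ[X][X]} {a1 b1 a2 b2 : ℤ}

theorem exists_auxA (h1 : N 1 ≤ 1) {ι : Type*} [Fintype ι] (bas : ι → A →+ ℤ)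
    (hb : ∀ x, (∀ i, bas i x = 0) → x = 0)
    (C0 : ℝ) (hC0 : 1 ≤ C0) (hcoord : ∀ x i, |(bas i x : ℝ)| ≤ C0 * N x)
    (P1 : AQ N σ p1 q1 E1 B1 W F1 a1 b1) (P2 : BQ N σ p2 q2 E2 B2 F2 a2 b2) (hr1 : 1 ≤ r1)
    (hr2 : 3 ≤ r2) (hkι : 3 * Fintype.card ι ≤ r1 * r2) (hk0 : 0 < Fintype.card ι)
    (w : ℕ) (hw : w = p2 * q2 * r2) (t' : ℕ) (ht : q1 * r1 ≤ t') :
    ∃ T : Fin (r2 * p2) × Fin (9 * q2 * r2) → Fin (r1 * p1) × Fin (10 * w * t' - q1 * r1) → ℤ,
      T ≠ 0 ∧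
      (∀ j < 21 * w, ∀ i < nq w (p1 * t') j, ∑ μ, ∑ s, (T μ s) •
        (PowerSeries.coeff j (mono P2 (10 * w) μ.2 μ.1) *
        PowerSeries.coeff i (monoA P1 (10 * w * (p1 * t')) s.2 s.1)) = 0) ∧
      ∀ μ s, |(T μ s : ℝ)| ≤ Hq ((r2 * p2) * (9 * q2 * r2)) ((r1 * p1) * (10 * w * t' - q1 * r1)) w
        (p1 * t') (C0 * W ^ (r1 * p1)) B1 B2 := by
  have hB1' := P1.B_one
  have hB2' := P2.B_one
  have hp1 := P1.hp
  have hq1 := P1.hq
  have hp2 := P2.hp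
  have hq2 := P2.hq
  have hW := P1.hW
  have hwr : r2 ≤ w := by
    rw [hw]
    calc r2 = 1 * 1 * r2 := by ring
      _ ≤ p2 * q2 * r2 := by gcongr
  obtain ⟨n, hn⟩ : ∃ n, n = 10 * w * t' - q1 * r1 := ⟨_, rfl⟩
  have hwt : t' ≤ w * t' := Nat.le_mul_of_pos_left _ (by omega)
  have h10 : 10 * w * t' = 10 * (w * t') := by ring
  have hn' : n + q1 * r1 = 10 * w * t' := by omega
  rw [← hn]
  set t := p1 * t' with htdef
  have hcardγ : 2 * Fintype.card (Σ j : Fin (21 * w), Fin (nq w t j))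
      = (21 * w) * (21 * w + 1) * t := by
    rw [← sum_nq, Fintype.card_sigma, ← Fin.sum_univ_eq_sum_range (fun j => nq w t j)]
    congr 1
    exact Finset.sum_congr rfl (fun j _ => Fintype.card_fin _)
  have hcount := count_auxG r1 r2 (Fintype.card ι) p1 q1 p2 q2 t' hr2 hkι hp2 hq2 ht w hw _ hcardγ
  rw [← hn] at hcount
  have hqr : 1 ≤ q1 * r1 := Nat.mul_pos hq1 hr1
  have ht'pos : 0 < t' := by omega
  have htpos : 0 < t := Nat.mul_pos hp1 ht'pos
  have hwpos : 0 < w := by omega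
  -- weights
  have hwt2 : ∀ μ : Fin (r2 * p2) × Fin (9 * q2 * r2), (μ.2 : ℕ) + μ.1 ≤ 10 * w := by
    intro μ
    have e1 : (μ.1 : ℕ) ≤ q2 * (r2 * p2) := by
      have := μ.1.2
      calc (μ.1 : ℕ) ≤ 1 * (r2 * p2) := by omega
        _ ≤ q2 * (r2 * p2) := Nat.mul_le_mul_right _ hq2
    have e2 : (μ.2 : ℕ) ≤ p2 * (9 * q2 * r2) := by
      have := μ.2.2
      calc (μ.2 : ℕ) ≤ 1 * (9 * q2 * r2) := by omega
        _ ≤ p2 * (9 * q2 * r2) := Nat.mul_le_mul_right _ hp2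
    calc (μ.2 : ℕ) + μ.1 ≤ p2 * (9 * q2 * r2) + q2 * (r2 * p2) := add_le_add e2 e1
      _ = 10 * w := by rw [hw]; ring
  have hwt1 : ∀ s : Fin (r1 * p1) × Fin n, (s.2 : ℕ) ≤ 10 * w * t := by
    intro s
    have e2 : (s.2 : ℕ) ≤ p1 * n := by
      have := s.2.2
      calc (s.2 : ℕ) ≤ 1 * n := by omega
        _ ≤ p1 * n := Nat.mul_le_mul_right _ hp1
    calc (s.2 : ℕ) ≤ p1 * n := e2
      _ ≤ p1 * (n + q1 * r1) := Nat.mul_le_mul_left _ (by omega)
      _ = 10 * w * t := by rw [hn', htdef]; ring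
  obtain ⟨T, hT0, hT, hTn⟩ := siegel_fun bas hb N C0 hC0 hcoord
    (γ := Σ j : Fin (21 * w), Fin (nq w t j))
    (β := (Fin (r2 * p2) × Fin (9 * q2 * r2)) × (Fin (r1 * p1) × Fin n))
    (fun g x => PowerSeries.coeff (g.1 : ℕ) (mono P2 (10 * w) x.1.2 x.1.1) *
      PowerSeries.coeff (g.2 : ℕ) (monoA P1 (10 * w * t) x.2.2 x.2.1))
    (B2 ^ (31 * w) * (W ^ (r1 * p1) * B1 ^ (31 * w * t)))
    (by
      have e1 : 1 ≤ B2 ^ (31 * w) := one_le_pow₀ hB2'
      have e2 : 1 ≤ B1 ^ (31 * w * t) := one_le_pow₀ hB1'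
      have e3 : 1 ≤ W ^ (r1 * p1) := one_le_pow₀ hW
      exact one_le_mul_of_one_le_of_one_le e1 (one_le_mul_of_one_le_of_one_le e3 e2))
    (by
      intro g x
      refine (map_mul_le_mul N _ _).trans ?_
      have e1 : N (PowerSeries.coeff (g.1 : ℕ) (mono P2 (10 * w) x.1.2 x.1.1)) ≤ B2 ^ (31 * w) := by
        apply coeff_mono_le h1
        have := g.1.2
        have := hwt2 x.1
        omega
      have e2 : N (PowerSeries.coeff (g.2 : ℕ) (monoA P1 (10 * w * t) x.2.2 x.2.1))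
          ≤ W ^ (r1 * p1) * B1 ^ (31 * w * t) := by
        apply coeff_monoA_le h1
        · have e4 := g.2.2
          have e5 : nq w t g.1 ≤ 21 * w * t := Nat.mul_le_mul_right _ (by omega)
          have e6 := hwt1 x.2
          have e7 : 31 * w * t = 10 * w * t + 21 * w * t := by ring
          omega
        · exact x.2.1.2.le
      exact mul_le_mul e1 e2 (apply_nonneg N _) (by have := P2.B_pos; positivity))
    (by
      simp only [Fintype.card_fin, Fintype.card_prod]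
      simpa using hcount)
    (by
      apply Nat.mul_pos _ hk0
      have : 0 < (21 * w) * (21 * w + 1) * t := by positivity
      omega)
  refine ⟨fun μ s => T (μ, s), ?_, ?_, ?_⟩
  · intro h0
    apply hT0
    funext x
    have := congrFun (congrFun h0 x.1) x.2
    simpa using this
  · intro j hj i hi
    have := hT ⟨⟨j, hj⟩, ⟨i, hi⟩⟩
    rw [Fintype.sum_prod_type] at this
    exact this
  · intro μ s
    have := hTn (μ, s)
    simp only [Fintype.card_prod, Fintype.card_fin] at this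
    refine this.trans (le_of_eq ?_)
    unfold Hq
    congr 1
    ring

end Main

end Pool.Agent.Y910.A
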