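import Pool.Agent.Y910.A.A9

/-!
Repulsion of large integer points: field level.
-/

open Polynomial Finset NumberField IntermediateField

namespace Pool.Agent.Y910.A

open Pool.Agent.H322R2 Pool.Agent.Y910.S Pool.Agent.Y910.G Pool.Agent.W257

/-- exponent in `near_bound` -/
def eNB (M C' : ℕ) : ℕ := (1 + (M + 1) * C') * M

lemma near_bound {M C' : ℕ} {l m c : ℝ} (hl : 2 ≤ l) (hc : 1 ≤ c) {K : IntermediateField ℚ ℝ}
    (h : Near M l m K) (hE : ∀ N r, N ≤ M → r ≤ M → Module.finrank ℚ K = r →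
      EffW r N (N + 1) C' c K) :
    m ≤ (c * l) ^ eNB M C' := by
  obtain ⟨N, r, hN, hr, hNM, hrM, hnf, G, a, b, α, B, h1, h2, h3, h4, h5, h6, h7, h8, ⟨Q⟩, h9,
    h10⟩ := h
  have hl1 : 1 ≤ l := by linarith
  have hlM : 1 ≤ l ^ M := one_le_pow₀ hl1
  have hcl : 1 ≤ c * l := one_le_mul_of_one_le_of_one_le hc hl1
  have ha : |(a : ℝ)| ≤ (c * l) ^ ((M + 1) * C') := by
    refine (hE N r hNM hrM h1 hnf h1 G _ B (l ^ M) α a b h2 h3 h4 h5 h6 h7 Q).trans ?_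
    calc (c * l ^ M) ^ C' ≤ ((c * l) ^ (M + 1)) ^ C' := by
          apply pow_le_pow_left₀ (by positivity)
          rw [mul_pow]
          apply mul_le_mul (le_self_pow₀ hc (by omega)) (pow_le_pow_right₀ hl1 (by omega))
            (by positivity) (by positivity)
      _ = _ := by rw [← pow_mul]
  refine h9.trans ?_
  unfold eNB
  rw [pow_mul]
  apply pow_le_pow_left₀ (by positivity)
  rw [pow_add, pow_one]
  exact mul_le_mul (le_mul_of_one_le_left (by linarith) hc) ha (abs_nonneg _) (by positivity)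

lemma finrank_facts {K₁ L₂ : IntermediateField ℚ ℝ} [NumberField K₁] [NumberField L₂] :
    Module.finrank ℚ K₁ ≤ Module.finrank ℚ ↥(K₁ ⊔ L₂) ∧ 1 ≤ Module.finrank ℚ K₁ := by
  have : FiniteDimensional ℚ ↥(K₁ ⊔ L₂) := IntermediateField.finiteDimensional_sup K₁ L₂
  exact ⟨IntermediateField.finrank_le_of_le_right le_sup_left, Module.finrank_pos⟩

/-- A large point on one curve gives bounds for all curves whose residue field at infinity has a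
small compositum with the residue field of the first curve. -/
theorem near_anchor (M M' : ℕ) : ∃ K : ℕ, ∀ {l m : ℝ} {K₁ : IntermediateField ℚ ℝ}, 2 ≤ l →
    Near M l m K₁ → l ^ K < m → ∀ (N r : ℕ) (L₂ : IntermediateField ℚ ℝ), N ≤ M' → r ≤ M' →
    3 * Module.finrank ℚ ↥(K₁ ⊔ L₂) ≤ Module.finrank ℚ K₁ * r →
    EffW r N (N + 1) K ((l * m) ^ K) L₂ := by
  have hlev : ∀ t : ℕ × ℕ × ℕ × ℕ, ∃ K : ℕ, 1 ≤ t.1 → 3 ≤ t.2.2.1 →
      (1 ≤ K ∧ ∀ {K₁ : IntermediateField ℚ ℝ} [NumberField K₁] {S₁ : Set ℝ} {h₁ : ℝ}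
      (_ : 1 ≤ h₁) (_ : Gen K₁ S₁ h₁) {B1 W : ℝ} {F1 : ℤ[X][X]} {a1 b1 : ℤ}
      (_ : AQ (hs K₁) (rE K₁ (algebraMap K₁ ℝ)) t.2.1 (t.2.1 + 1) ((t.2.1 + 1) * t.1 + 1) B1 W F1
        a1 b1) (_ : F1.Monic)
      (_ : F1.natDegree = t.1 * t.2.1) (_ : Prime F1)
      (_ : ∀ j, (F1.coeff j).natDegree ≤ (t.2.1 + 1) * t.1 + 1)
      (_ : B1 ^ K ≤ |(a1 : ℝ)|) (L₂ : IntermediateField ℚ ℝ)
      (_ : 3 * Module.finrank ℚ ↥(K₁ ⊔ L₂) ≤ t.1 * t.2.2.1),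
      EffW t.2.2.1 t.2.2.2 (t.2.2.2 + 1) K
        (|(a1 : ℝ)| * (t.1 * t.2.2.1 * h₁ * W ^ (t.1 * t.2.1))) L₂) := by
    rintro ⟨r1, N1, r2, N2⟩
    by_cases h : 1 ≤ r1 ∧ 3 ≤ r2
    · obtain ⟨K, h1, h2⟩ := anchor_effW r1 N1 (N1 + 1) r2 N2 (N2 + 1) ((N1 + 1) * r1 + 1) h.1 h.2
      exact ⟨K, fun _ _ => ⟨h1, h2⟩⟩
    · exact ⟨0, fun h1 h2 => absurd ⟨h1, h2⟩ h⟩
  choose κ hκ using hlev
  obtain ⟨s, hs'⟩ : ∃ s, s = (range (M + 1) ×ˢ range (M + 1) ×ˢ range (M' + 1) ×ˢ range (M' + 1)).sup κ :=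
    ⟨_, rfl⟩
  have hκs : ∀ r1 N1 r2 N2, r1 ≤ M → N1 ≤ M → r2 ≤ M' → N2 ≤ M' → κ (r1, N1, r2, N2) ≤ s := by
    intro r1 N1 r2 N2 h1 h2 h3 h4
    rw [hs']
    apply Finset.le_sup
    simp only [Finset.mem_product, Finset.mem_range]
    omega
  obtain ⟨e, he⟩ : ∃ e, e = 2 * M + M' + M * M + M * (M * M) := ⟨_, rfl⟩
  refine ⟨s + e + (M * s + 1) * M, ?_⟩
  intro l m K₁ hl hnear hm N r L₂ hN hr h3
  obtain ⟨N1, r1, hN1, hr1, hN1M, hr1M, hnf, G, a, b, α, B, h1, h2, h3', h4, h5, h6, h7, h8, ⟨Q⟩,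
    h9, h10⟩ := hnear
  intro hnf2 hfin G2 E2 B2 B2' α2 a2 b2 hα2 hαB2 hBB2 hG2m hG2d hG2p P2
  have hl1 : 1 ≤ l := by linarith
  have hf := finrank_facts (K₁ := K₁) (L₂ := L₂)
  rw [h1] at hf h3
  have hr3 : 3 ≤ r := by
    by_contra hcon
    have h11 : r1 * r ≤ r1 * 2 := Nat.mul_le_mul_left _ (by omega)
    omega
  obtain ⟨hk1, hk⟩ := hκ (r1, N1, r, N) hr1 hr3
  simp only at hk1 hk
  have hks := hκs r1 N1 r N hr1M hN1M hr hN
  obtain ⟨k, hkd⟩ : ∃ k, k = κ (r1, N1, r, N) := ⟨_, rfl⟩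
  rw [← hkd] at hk1 hk hks
  have hB1 := Q.B_one
  have hlM : 1 ≤ l ^ M := one_le_pow₀ hl1
  have hlm1 : 1 ≤ m := (one_le_pow₀ hl1).trans hm.le
  -- the point is large enough
  have hbig : B ^ k ≤ |(a : ℝ)| := by
    by_contra hcon
    push Not at hcon
    have h11 : |(a : ℝ)| ≤ l ^ (M * s) := by
      refine hcon.le.trans ?_
      calc B ^ k ≤ (l ^ M) ^ k := pow_le_pow_left₀ (by linarith) h4 _
        _ = l ^ (M * k) := by rw [← pow_mul]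
        _ ≤ _ := pow_le_pow_right₀ hl1 (Nat.mul_le_mul_left _ hks)
    have h12 : m ≤ l ^ ((M * s + 1) * M) := by
      refine h9.trans ?_
      rw [pow_mul l (M * s + 1)]
      apply pow_le_pow_left₀ (by positivity)
      rw [pow_succ, mul_comm]
      exact mul_le_mul_of_nonneg_right h11 (by linarith)
    have h13 : l ^ ((M * s + 1) * M) ≤ l ^ (s + e + (M * s + 1) * M) :=
      pow_le_pow_right₀ hl1 (by omega)
    linarith
  have hgen := gen_powers h1 α h2 (H := l ^ M) hlM h3'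
  have hres := hk (one_le_pow₀ hlM) hgen (AQ.ofBQ Q) h5 h6 h7 h8 hbig L₂ h3
  -- the constant
  obtain ⟨Y, hY⟩ : ∃ Y, Y = l * m := ⟨_, rfl⟩
  have hlY : l ≤ Y := by rw [hY]; exact le_mul_of_one_le_right (by linarith) hlm1
  have hY1 : 1 ≤ Y := by linarith
  have hpow : ∀ n : ℕ, (n : ℝ) ≤ Y ^ n := by
    intro n
    calc (n : ℝ) ≤ 2 ^ n := by exact_mod_cast Nat.lt_two_pow_self.le
      _ ≤ _ := pow_le_pow_left₀ (by norm_num) (hl.trans hlY) n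
  have hc : |(a : ℝ)| * (r1 * r * (l ^ M) ^ r1 * B ^ (r1 * N1)) ≤ Y ^ e := by
    have e1 : |(a : ℝ)| ≤ Y ^ M := by rw [hY]; exact h10
    have e2 : (r1 : ℝ) ≤ Y ^ M := (hpow r1).trans (pow_le_pow_right₀ hY1 hr1M)
    have e3 : (r : ℝ) ≤ Y ^ M' := (hpow r).trans (pow_le_pow_right₀ hY1 hr)
    have e4 : (l ^ M) ^ r1 ≤ Y ^ (M * M) := by
      calc (l ^ M) ^ r1 ≤ (Y ^ M) ^ r1 :=
            pow_le_pow_left₀ (by positivity) (pow_le_pow_left₀ (by linarith) hlY _) _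
        _ = Y ^ (M * r1) := by rw [← pow_mul]
        _ ≤ _ := pow_le_pow_right₀ hY1 (Nat.mul_le_mul_left _ hr1M)
    have e5 : B ^ (r1 * N1) ≤ Y ^ (M * (M * M)) := by
      calc B ^ (r1 * N1) ≤ (Y ^ M) ^ (r1 * N1) :=
            pow_le_pow_left₀ (by linarith) (h4.trans (pow_le_pow_left₀ (by linarith) hlY _)) _
        _ = Y ^ (M * (r1 * N1)) := by rw [← pow_mul]
        _ ≤ _ := pow_le_pow_right₀ hY1 (Nat.mul_le_mul_left _ (Nat.mul_le_mul hr1M hN1M))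
    calc |(a : ℝ)| * (r1 * r * (l ^ M) ^ r1 * B ^ (r1 * N1))
        ≤ Y ^ M * (Y ^ M * Y ^ M' * Y ^ (M * M) * Y ^ (M * (M * M))) := by gcongr
      _ = Y ^ e := by rw [he]; ring
  have ha1 : 1 ≤ |(a : ℝ)| := by have := Q.a_ge; linarith
  have hr1R : (1 : ℝ) ≤ r1 := by exact_mod_cast hr1
  have hrR : (1 : ℝ) ≤ r := by exact_mod_cast (by omega : 1 ≤ r)
  have hc1 : 1 ≤ |(a : ℝ)| * (r1 * r * (l ^ M) ^ r1 * B ^ (r1 * N1)) :=
    one_le_mul_of_one_le_of_one_le ha1 (one_le_mul_of_one_le_of_one_le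
      (one_le_mul_of_one_le_of_one_le (one_le_mul_of_one_le_of_one_le hr1R hrR)
        (one_le_pow₀ hlM)) (one_le_pow₀ hB1))
  rw [← hY]
  exact (hres.mono hc1 (hc.trans (pow_le_pow_right₀ hY1 (by omega))) (by omega)) hnf2 hfin G2 E2 B2
    B2' α2 a2 b2 hα2 hαB2 hBB2 hG2m hG2d hG2p P2

/-- **Large points repel**, field level. -/
theorem repel_near (M : ℕ) : ∃ K : ℕ, ∀ {l₁ m₁ l₂ m₂ : ℝ} {K₁ K₂ : IntermediateField ℚ ℝ},
    2 ≤ l₁ → 2 ≤ l₂ → Near M l₁ m₁ K₁ → l₁ ^ K < m₁ → Near M l₂ m₂ K₂ →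
    3 * Module.finrank ℚ ↥(K₁ ⊔ K₂) ≤ Module.finrank ℚ K₁ * Module.finrank ℚ K₂ →
    m₂ ≤ (m₁ * l₂) ^ K := by
  obtain ⟨K, hK⟩ := near_anchor M M
  refine ⟨(K + 1) + 2 * (K + 1) * eNB M K, ?_⟩
  intro l₁ m₁ l₂ m₂ K₁ K₂ hl₁ hl₂ hn1 hm1 hn2 h3
  have hl1 : 1 ≤ l₁ := by linarith
  have hlm : l₁ ≤ m₁ := by
    refine le_trans ?_ hm1.le
    exact le_self_pow₀ hl1 (by omega)
  have hm11 : 1 ≤ m₁ := hl1.trans hlm
  have hm : l₁ ^ K < m₁ := lt_of_le_of_lt (pow_le_pow_right₀ hl1 (by omega)) hm1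
  have hc : 1 ≤ (l₁ * m₁) ^ K := one_le_pow₀ (one_le_mul_of_one_le_of_one_le hl1 hm11)
  have hres := near_bound (C' := K) hl₂ hc hn2 (fun N r hN hr hfin =>
    hK hl₁ hn1 hm N r K₂ hN hr (by rw [← hfin]; exact h3))
  refine hres.trans ?_
  have hl21 : 1 ≤ l₂ := by linarith
  have hml : 1 ≤ m₁ * l₂ := one_le_mul_of_one_le_of_one_le hm11 hl21
  have e1 : (l₁ * m₁) ^ K * l₂ ≤ (m₁ * l₂) ^ (2 * (K + 1)) := by
    calc (l₁ * m₁) ^ K * l₂ ≤ (m₁ * m₁) ^ K * l₂ := by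
          apply mul_le_mul_of_nonneg_right _ (by linarith)
          apply pow_le_pow_left₀ (by positivity)
          exact mul_le_mul_of_nonneg_right hlm (by linarith)
      _ = m₁ ^ (2 * K) * l₂ := by rw [← sq, ← pow_mul]
      _ ≤ m₁ ^ (2 * (K + 1)) * l₂ ^ (2 * (K + 1)) := by
          apply mul_le_mul (pow_le_pow_right₀ hm11 (by omega)) (le_self_pow₀ hl21 (by omega))
            (by positivity) (by positivity)
      _ = _ := by rw [mul_pow]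
  calc ((l₁ * m₁) ^ K * l₂) ^ eNB M K ≤ ((m₁ * l₂) ^ (2 * (K + 1))) ^ eNB M K :=
        pow_le_pow_left₀ (by positivity) e1 _
    _ = (m₁ * l₂) ^ (2 * (K + 1) * eNB M K) := by rw [← pow_mul]
    _ ≤ _ := pow_le_pow_right₀ hml (by omega)

end Pool.Agent.Y910.A
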