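import Pool.Agent.Y910.A.A10

/-!
Repulsion of large integer points, and one constant for each subfield of degree at least three of
the residue field at infinity: all plane curves.
-/

open Polynomial Finset NumberField IntermediateField

namespace Pool.Agent.Y910.A

open Pool.Agent.H322R2 Pool.Agent.Y910.S Pool.Agent.Y910.G Pool.Agent.W257

lemma Near.mono {M M' : ℕ} {l l' m : ℝ} {K : IntermediateField ℚ ℝ} (hl : 1 ≤ l) (hl' : l ≤ l')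
    (hm : 0 ≤ m) (hM : M ≤ M') (h : Near M l m K) : Near M' l' m K := by
  obtain ⟨N, r, hN, hr, hNM, hrM, hnf, G, a, b, α, B, h1, h2, h3, h4, h5, h6, h7, h8, ⟨Q⟩, h9,
    h10⟩ := h
  have ha := Q.a_ge
  have hp : l ^ M ≤ l' ^ M' := by
    calc l ^ M ≤ l' ^ M := pow_le_pow_left₀ (by linarith) hl' _
      _ ≤ _ := pow_le_pow_right₀ (hl.trans hl') hM
  have hl0 : 1 ≤ l' := hl.trans hl'
  have hlm : 1 ≤ l' * m := by
    by_contra hcon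
    push Not at hcon
    have h11 : l * m ≤ l' * m := mul_le_mul_of_nonneg_right hl' hm
    have h12 : (l * m) ^ M ≤ 1 := pow_le_one₀ (by positivity) (by linarith)
    linarith
  refine ⟨N, r, hN, hr, by omega, by omega, hnf, G, a, b, α, B, h1, h2, h3.trans hp, h4.trans hp, h5,
    h6, h7, h8, ⟨Q⟩, ?_, ?_⟩
  · refine h9.trans ?_
    calc (l * |(a : ℝ)|) ^ M ≤ (l' * |(a : ℝ)|) ^ M := by
          apply pow_le_pow_left₀ (by positivity)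
          exact mul_le_mul_of_nonneg_right hl' (by linarith)
      _ ≤ _ := pow_le_pow_right₀ (one_le_mul_of_one_le_of_one_le hl0 (by linarith)) hM
  · refine h10.trans ?_
    calc (l * m) ^ M ≤ (l' * m) ^ M := by
          apply pow_le_pow_left₀ (by positivity)
          exact mul_le_mul_of_nonneg_right hl' hm
      _ ≤ _ := pow_le_pow_right₀ hlm hM

theorem struct_le (d : ℕ) : ∃ C : ℕ, 2 ≤ C ∧
    ∀ F : MvPolynomial (Fin 2) ℤ, F.totalDegree ≤ d →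
    Irreducible (MvPolynomial.map (Int.castRingHom ℚ) F) →
    ∀ (L : Type) [Field L] [Algebra ℚ L] (π : MvPolynomial (Fin 2) ℚ →ₐ[ℚ] L),
    (∀ w, π w = 0 ↔ MvPolynomial.map (Int.castRingHom ℚ) F ∣ w) →
    (∀ z : L, ∃ w1 w2, π w2 ≠ 0 ∧ π w2 * z = π w1) →
    ∀ x y : ℤ, MvPolynomial.eval ![x, y] F = 0 →
      max x.natAbs y.natAbs ≤ (C * len F) ^ C ∨
      ∃ g : ℚ[X], OnePlace π g ∧ ∃ η : ℝ, aeval η g = 0 ∧
        Near C (((C * len F : ℕ) : ℝ)) (((max x.natAbs y.natAbs : ℕ) : ℝ)) ℚ⟮η⟯ := by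
  choose C hC2 hC using curve_struct
  obtain ⟨D, hD⟩ : ∃ D, D = ∑ i ∈ range (d + 1), C i := ⟨_, rfl⟩
  have hle : ∀ i, i ≤ d → C i ≤ D := by
    intro i hi
    rw [hD]
    exact Finset.single_le_sum (f := C) (fun _ _ => Nat.zero_le _) (Finset.mem_range.2 (by omega))
  refine ⟨D, (hC2 0).trans (hle 0 (by omega)), ?_⟩
  intro F hFd hirr L _ _ π hker hsurj x y hxy
  have hF0 : F ≠ 0 := by
    rintro rfl
    rw [map_zero] at hirr
    exact hirr.ne_zero rfl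
  have hlen1 : 1 ≤ len F := len_pos hF0
  have hCD := hle F.totalDegree hFd
  have hC2' := hC2 F.totalDegree
  have hCl : 1 ≤ C F.totalDegree * len F := Nat.mul_pos (by omega) hlen1
  have hcast : ((max x.natAbs y.natAbs : ℕ) : ℝ) = max |(x : ℝ)| |(y : ℝ)| := by
    push_cast
    rw [Nat.cast_natAbs, Nat.cast_natAbs]
    push_cast
    rfl
  rcases hC F.totalDegree F rfl hirr L π hker hsurj x y hxy with ⟨h1, h2⟩ | ⟨g, hg, η, hη, hn⟩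
  · left
    have h3 : (C F.totalDegree * len F) ^ C F.totalDegree ≤ (D * len F) ^ D :=
      (Nat.pow_le_pow_right hCl hCD).trans (Nat.pow_le_pow_left (Nat.mul_le_mul_right _ hCD) _)
    exact max_le (h1.trans h3) (h2.trans h3)
  · right
    refine ⟨g, hg, η, hη, ?_⟩
    rw [hcast]
    exact hn.mono (by exact_mod_cast hCl) (by exact_mod_cast Nat.mul_le_mul_right _ hCD)
      (le_trans (abs_nonneg _) (le_max_left _ _)) hCD

/-- what `struct_le` gives for a curve -/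
def SD (C : ℕ) (F : MvPolynomial (Fin 2) ℤ) (Q : ℚ[X] → Prop) (m : ℕ) : Prop :=
  m ≤ (C * len F) ^ C ∨ ∃ g : ℚ[X], Q g ∧ ∃ η : ℝ, aeval η g = 0 ∧
    Near C (((C * len F : ℕ) : ℝ)) (m : ℝ) ℚ⟮η⟯

lemma finrank_adj {g : ℚ[X]} (hm : g.Monic) (hi : Irreducible g) {η : ℝ} (hη : aeval η g = 0) :
    Module.finrank ℚ ℚ⟮η⟯ = g.natDegree := by
  have hint : IsIntegral ℚ η := ⟨g, hm, hη⟩
  rw [IntermediateField.adjoin.finrank hint]
  congr 1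
  exact (minpoly.eq_of_irreducible_of_monic hi hη hm).symm

/-- **Large points repel**: all plane curves. -/
theorem repel (C : ℕ) (hC2 : 2 ≤ C) : ∃ K : ℕ, C ≤ K ∧
    ∀ (F₁ : MvPolynomial (Fin 2) ℤ) (Q₁ : ℚ[X] → Prop) (m₁ : ℕ), F₁ ≠ 0 →
      (∀ g, Q₁ g → g.Monic ∧ Irreducible g) → SD C F₁ Q₁ m₁ → (K * len F₁) ^ K < m₁ →
      ∃ g₁ : ℚ[X], Q₁ g₁ ∧ ∃ η₁ : ℝ, aeval η₁ g₁ = 0 ∧
        ∀ (F₂ : MvPolynomial (Fin 2) ℤ) (Q₂ : ℚ[X] → Prop) (m₂ : ℕ), F₂ ≠ 0 →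
          (∀ g, Q₂ g → g.Monic ∧ Irreducible g) → SD C F₂ Q₂ m₂ →
          m₂ ≤ (m₁ * len F₂) ^ K ∨ ∃ g₂ : ℚ[X], Q₂ g₂ ∧ ∃ η₂ : ℝ, aeval η₂ g₂ = 0 ∧
            g₁.natDegree * g₂.natDegree < 3 * Module.finrank ℚ ↥(ℚ⟮η₁⟯ ⊔ ℚ⟮η₂⟯) := by
  obtain ⟨K, hK⟩ := repel_near C
  refine ⟨C + 2 * K, by omega, ?_⟩
  obtain ⟨K', hK'⟩ : ∃ K', K' = C + 2 * K := ⟨_, rfl⟩
  rw [← hK']
  intro F₁ Q₁ m₁ hF₁ hQ₁ hS₁ hbig
  have hlen1 : 1 ≤ len F₁ := len_pos hF₁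
  have hCl1 : 2 ≤ C * len F₁ := by
    calc 2 ≤ C * 1 := by omega
      _ ≤ _ := Nat.mul_le_mul_left _ hlen1
  have hKl : C * len F₁ ≤ K' * len F₁ := Nat.mul_le_mul_right _ (by omega)
  have hmono : ∀ e, e ≤ K' → (C * len F₁) ^ e ≤ (K' * len F₁) ^ K' := fun e he =>
    (Nat.pow_le_pow_right (by omega) he).trans (Nat.pow_le_pow_left hKl _)
  rcases hS₁ with h | ⟨g₁, hg₁, η₁, hη₁, hn₁⟩
  · exact absurd (h.trans (hmono C (by omega))) (not_le.2 hbig)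
  refine ⟨g₁, hg₁, η₁, hη₁, ?_⟩
  intro F₂ Q₂ m₂ hF₂ hQ₂ hS₂
  have hlen2 : 1 ≤ len F₂ := len_pos hF₂
  have hm1C : C ≤ m₁ := by
    refine le_trans ?_ hbig.le
    calc C ≤ C * len F₁ := Nat.le_mul_of_pos_right _ (by omega)
      _ = (C * len F₁) ^ 1 := (pow_one _).symm
      _ ≤ _ := hmono 1 (by omega)
  have hml : 1 ≤ m₁ * len F₂ := Nat.mul_pos (by omega) hlen2
  rcases hS₂ with h | ⟨g₂, hg₂, η₂, hη₂, hn₂⟩
  · left
    refine h.trans ?_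
    exact (Nat.pow_le_pow_left (Nat.mul_le_mul_right _ hm1C) _).trans
      (Nat.pow_le_pow_right hml (by omega))
  by_cases h3 : g₁.natDegree * g₂.natDegree < 3 * Module.finrank ℚ ↥(ℚ⟮η₁⟯ ⊔ ℚ⟮η₂⟯)
  · exact Or.inr ⟨g₂, hg₂, η₂, hη₂, h3⟩
  left
  push Not at h3
  rw [← finrank_adj (hQ₁ g₁ hg₁).1 (hQ₁ g₁ hg₁).2 hη₁,
    ← finrank_adj (hQ₂ g₂ hg₂).1 (hQ₂ g₂ hg₂).2 hη₂] at h3
  have hres := hK (by exact_mod_cast hCl1) (by
      have : 2 ≤ C * len F₂ := by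
        calc 2 ≤ C * 1 := by omega
          _ ≤ _ := Nat.mul_le_mul_left _ hlen2
      exact_mod_cast this) hn₁ (by
      have := lt_of_le_of_lt (hmono K (by omega)) hbig
      exact_mod_cast this) hn₂ h3
  have hres' : m₂ ≤ (m₁ * (C * len F₂)) ^ K := by exact_mod_cast hres
  refine hres'.trans ?_
  calc (m₁ * (C * len F₂)) ^ K ≤ ((m₁ * len F₂) ^ 2) ^ K := by
        apply Nat.pow_le_pow_left
        calc m₁ * (C * len F₂) ≤ m₁ * (m₁ * len F₂) :=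
              Nat.mul_le_mul_left _ (Nat.mul_le_mul_right _ hm1C)
          _ ≤ (m₁ * len F₂) ^ 2 := by
              rw [sq]
              exact Nat.mul_le_mul_right _ (Nat.le_mul_of_pos_right _ (by omega))
    _ = (m₁ * len F₂) ^ (2 * K) := by rw [← pow_mul]
    _ ≤ _ := Nat.pow_le_pow_right hml (by omega)

/-- One constant for each subfield of degree at least three. -/
theorem class_const (C : ℕ) (hC2 : 2 ≤ C) : ∃ K : ℕ, C ≤ K ∧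
    ∀ k : IntermediateField ℚ ℝ, 3 ≤ Module.finrank ℚ k → ∃ c : ℕ, 1 ≤ c ∧
      ∀ (F : MvPolynomial (Fin 2) ℤ) (m : ℕ) (η : ℝ), F ≠ 0 →
        Near C (((C * len F : ℕ) : ℝ)) (m : ℝ) ℚ⟮η⟯ → k ≤ ℚ⟮η⟯ → m ≤ (c * len F) ^ K := by
  obtain ⟨K, hK⟩ := repel_near C
  refine ⟨C + 2 * K, by omega, ?_⟩
  obtain ⟨K', hK'⟩ : ∃ K', K' = C + 2 * K := ⟨_, rfl⟩
  rw [← hK']
  intro k hk
  by_cases hex : ∃ (F₁ : MvPolynomial (Fin 2) ℤ) (m₁ : ℕ) (η₁ : ℝ), F₁ ≠ 0 ∧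
      Near C (((C * len F₁ : ℕ) : ℝ)) (m₁ : ℝ) ℚ⟮η₁⟯ ∧ k ≤ ℚ⟮η₁⟯ ∧ (C * len F₁) ^ K < m₁
  · obtain ⟨F₁, m₁, η₁, hF₁, hn₁, hk₁, hbig⟩ := hex
    have hlen1 : 1 ≤ len F₁ := len_pos hF₁
    have hCl1 : 2 ≤ C * len F₁ := by
      calc 2 ≤ C * 1 := by omega
        _ ≤ _ := Nat.mul_le_mul_left _ hlen1
    have hm1 : 1 ≤ m₁ := by omega
    refine ⟨m₁ * C, Nat.mul_pos (by omega) (by omega), ?_⟩
    intro F m η hF hn hkη
    have hlen : 1 ≤ len F := len_pos hF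
    have hCl : 2 ≤ C * len F := by
      calc 2 ≤ C * 1 := by omega
        _ ≤ _ := Nat.mul_le_mul_left _ hlen
    have hfd₁ : FiniteDimensional ℚ ℚ⟮η₁⟯ := by
      obtain ⟨N, r, hN, hr, hNM, hrM, hnf, h⟩ := hn₁
      exact hnf.to_finiteDimensional
    have hfd : FiniteDimensional ℚ ℚ⟮η⟯ := by
      obtain ⟨N, r, hN, hr, hNM, hrM, hnf, h⟩ := hn
      exact hnf.to_finiteDimensional
    have hdeg := Pool.Agent.W571.ESG.main_fld k ℚ⟮η₁⟯ ℚ⟮η⟯ hk₁ hkη hfd₁ hfd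
    have h3 : 3 * Module.finrank ℚ ↥(ℚ⟮η₁⟯ ⊔ ℚ⟮η⟯)
        ≤ Module.finrank ℚ ℚ⟮η₁⟯ * Module.finrank ℚ ℚ⟮η⟯ := by
      refine le_trans ?_ hdeg
      rw [mul_comm]
      exact Nat.mul_le_mul_left _ hk
    have hres := hK (by exact_mod_cast hCl1) (by exact_mod_cast hCl) hn₁
      (by exact_mod_cast hbig) hn h3
    have hres' : m ≤ (m₁ * (C * len F)) ^ K := by exact_mod_cast hres
    refine hres'.trans ?_
    have e : m₁ * (C * len F) = m₁ * C * len F := by ring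
    rw [e]
    exact Nat.pow_le_pow_right (Nat.mul_pos (Nat.mul_pos (by omega) (by omega)) hlen) (by omega)
  · refine ⟨C, by omega, ?_⟩
    intro F m η hF hn hkη
    by_contra hcon
    push Not at hcon
    apply hex
    refine ⟨F, m, η, hF, hn, hkη, lt_of_le_of_lt ?_ hcon⟩
    have hlen : 1 ≤ len F := len_pos hF
    exact Nat.pow_le_pow_right (Nat.mul_pos (by omega) hlen) (by omega)

end Pool.Agent.Y910.A
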