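import Pool.Agent.Y910.A.A11

/-!
Anchors over explicit fields and bounds for all curves.
-/

open Polynomial Finset NumberField IntermediateField

namespace Pool.Agent.Y910.A

open Pool.Agent.H322R2 Pool.Agent.Y910.S Pool.Agent.Y910.G Pool.Agent.W257

/-- the field `K` has an anchor of size `A` and radius `B` -/
def Anc (R e : ℕ) (B A : ℝ) (K : IntermediateField ℚ ℝ) : Prop :=
  ∃ (_ : NumberField K) (S : Set ℝ) (h W : ℝ) (F : ℤ[X][X]) (a b : ℤ), Gen K S h ∧ 1 ≤ h ∧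
    h ≤ A ^ e ∧ W ≤ A ^ e ∧ |(a : ℝ)| = A ∧
    Nonempty (AP (hs K) (rE K (algebraMap K ℝ)) e B W F a b) ∧ F.Monic ∧ Prime F ∧
    1 ≤ F.natDegree ∧ F.natDegree ≤ R ∧ Module.finrank ℚ K ≤ F.natDegree ∧
    ∀ j, (F.coeff j).natDegree ≤ e

/-- An anchor over `K₁` gives bounds for all residue fields `L₂` with `[L₂ ∩ K₁ : ℚ] ≥ 3`. -/
theorem anc_eff (R e M : ℕ) : ∃ K : ℕ, 1 ≤ K ∧
    ∀ {B A : ℝ} {K₁ : IntermediateField ℚ ℝ}, Anc R e B A K₁ → B ^ K ≤ A →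
    ∀ (L₂ : IntermediateField ℚ ℝ) (r p q : ℕ), r ≤ M → p ≤ M → q ≤ M →
      3 ≤ Module.finrank ℚ ↥(L₂ ⊓ K₁) → EffW r p q K (A ^ K) L₂ := by
  have hlev : ∀ t : ℕ × ℕ × ℕ × ℕ, ∃ K : ℕ, 1 ≤ t.1 → 3 ≤ t.2.1 →
      (1 ≤ K ∧ ∀ {K₁ : IntermediateField ℚ ℝ} [NumberField K₁] {S₁ : Set ℝ} {h₁ : ℝ}
      (_ : 1 ≤ h₁) (_ : Gen K₁ S₁ h₁) {B1 W : ℝ} {F1 : ℤ[X][X]} {a1 b1 : ℤ}
      (_ : AQ (hs K₁) (rE K₁ (algebraMap K₁ ℝ)) 1 1 e B1 W F1 a1 b1) (_ : F1.Monic)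
      (_ : F1.natDegree = t.1 * 1) (_ : Prime F1)
      (_ : ∀ j, (F1.coeff j).natDegree ≤ e)
      (_ : B1 ^ K ≤ |(a1 : ℝ)|) (L₂ : IntermediateField ℚ ℝ)
      (_ : 3 * Module.finrank ℚ ↥(K₁ ⊔ L₂) ≤ t.1 * t.2.1),
      EffW t.2.1 t.2.2.1 t.2.2.2 K (|(a1 : ℝ)| * (t.1 * t.2.1 * h₁ * W ^ (t.1 * 1))) L₂) := by
    rintro ⟨r1, r2, p2, q2⟩
    by_cases h : 1 ≤ r1 ∧ 3 ≤ r2
    · obtain ⟨K, h1, h2⟩ := anchor_effW r1 1 1 r2 p2 q2 e h.1 h.2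
      exact ⟨K, fun _ _ => ⟨h1, h2⟩⟩
    · exact ⟨0, fun h1 h2 => absurd ⟨h1, h2⟩ h⟩
  choose κ hκ using hlev
  obtain ⟨s, hs'⟩ : ∃ s, s = (range (R + 1) ×ˢ range (M + 1) ×ˢ range (M + 1) ×ˢ range (M + 1)).sup κ :=
    ⟨_, rfl⟩
  have hκs : ∀ r1 r2 p2 q2, r1 ≤ R → r2 ≤ M → p2 ≤ M → q2 ≤ M → κ (r1, r2, p2, q2) ≤ s := by
    intro r1 r2 p2 q2 h1 h2 h3 h4
    rw [hs']
    apply Finset.le_sup
    simp only [Finset.mem_product, Finset.mem_range]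
    omega
  refine ⟨s + (1 + R + M + e + e * R), by omega, ?_⟩
  rintro B A K₁ ⟨hnf1, S, h, W, F, a, b, hS, hh1, hhA, hWA, haA, ⟨P⟩, hFm, hFp, hF1, hFR, hfinF, hFx⟩
    hBA L₂ r p q hr hp hq h3 hnf hfin G2 E2 B2 B2' α2 a2 b2 hα2 hαB2 hBB2 hG2m hG2d hG2p P2
  obtain ⟨r1, hr1⟩ : ∃ r1, r1 = F.natDegree := ⟨_, rfl⟩
  rw [← hr1] at hF1 hFR hfinF
  have : FiniteDimensional ℚ ↥(K₁ ⊔ L₂) := IntermediateField.finiteDimensional_sup K₁ L₂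
  have hB2 := P.hB
  have hA4 : 4 ≤ A := by rw [← haA]; exact P.a_ge
  have hA1 : 1 ≤ A := by linarith
  have hW := P.hW
  -- degrees
  have hdeg := Pool.Agent.W571.ESG.main_fld (L₂ ⊓ K₁) K₁ L₂ inf_le_right inf_le_left inferInstance
    inferInstance
  rw [hfin] at hdeg
  have h3n : 3 * Module.finrank ℚ ↥(K₁ ⊔ L₂) ≤ r1 * r := by
    calc 3 * Module.finrank ℚ ↥(K₁ ⊔ L₂)
        ≤ Module.finrank ℚ ↥(L₂ ⊓ K₁) * Module.finrank ℚ ↥(K₁ ⊔ L₂) := Nat.mul_le_mul_right _ h3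
      _ = Module.finrank ℚ ↥(K₁ ⊔ L₂) * Module.finrank ℚ ↥(L₂ ⊓ K₁) := mul_comm _ _
      _ ≤ Module.finrank ℚ K₁ * r := hdeg
      _ ≤ r1 * r := Nat.mul_le_mul_right _ hfinF
  have hr3 : 3 ≤ r := by
    have h4 : Module.finrank ℚ ↥(L₂ ⊓ K₁) ≤ Module.finrank ℚ L₂ :=
      IntermediateField.finrank_le_of_le_right inf_le_left
    omega
  obtain ⟨hk1, hk⟩ := hκ (r1, r, p, q) hF1 hr3
  simp only at hk1 hk
  have hks := hκs r1 r p q hFR hr hp hq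
  obtain ⟨k, hkd⟩ : ∃ k, k = κ (r1, r, p, q) := ⟨_, rfl⟩
  rw [← hkd] at hk1 hk hks
  have hbig : B ^ k ≤ |(a : ℝ)| := by
    rw [haA]
    exact (pow_le_pow_right₀ (by linarith) (by omega)).trans hBA
  have hres := hk hh1 hS (AQ.ofAP (hs_one K₁) P) hFm (by rw [mul_one]; exact hr1.symm) hFp hFx hbig
    L₂ h3n
  rw [haA, mul_one] at hres
  have hpow : ∀ n : ℕ, (n : ℝ) ≤ A ^ n := by
    intro n
    calc (n : ℝ) ≤ 2 ^ n := by exact_mod_cast Nat.lt_two_pow_self.le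
      _ ≤ _ := pow_le_pow_left₀ (by norm_num) (by linarith) n
  have hc : A * (r1 * r * h * W ^ r1) ≤ A ^ (1 + R + M + e + e * R) := by
    have e2 : (r1 : ℝ) ≤ A ^ R := (hpow r1).trans (pow_le_pow_right₀ hA1 hFR)
    have e3 : (r : ℝ) ≤ A ^ M := (hpow r).trans (pow_le_pow_right₀ hA1 hr)
    have e5 : W ^ r1 ≤ A ^ (e * R) := by
      calc W ^ r1 ≤ (A ^ e) ^ r1 := pow_le_pow_left₀ (by linarith) hWA _
        _ = A ^ (e * r1) := by rw [← pow_mul]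
        _ ≤ _ := pow_le_pow_right₀ hA1 (Nat.mul_le_mul_left _ hFR)
    calc A * (r1 * r * h * W ^ r1) ≤ A * (A ^ R * A ^ M * A ^ e * A ^ (e * R)) := by gcongr
      _ = _ := by ring
  have hr1R : (1 : ℝ) ≤ r1 := by exact_mod_cast hF1
  have hrR : (1 : ℝ) ≤ r := by exact_mod_cast (by omega : 1 ≤ r)
  have hc1 : 1 ≤ A * (r1 * r * h * W ^ r1) :=
    one_le_mul_of_one_le_of_one_le hA1 (one_le_mul_of_one_le_of_one_le
      (one_le_mul_of_one_le_of_one_le (one_le_mul_of_one_le_of_one_le hr1R hrR) hh1)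
      (one_le_pow₀ hW))
  exact (hres.mono hc1 (hc.trans (pow_le_pow_right₀ hA1 (by omega))) (by omega)) hnf hfin G2 E2 B2
    B2' α2 a2 b2 hα2 hαB2 hBB2 hG2m hG2d hG2p P2

/-- the bound for all curves -/
theorem anc_bound (R e M : ℕ) : ∃ K : ℕ, 1 ≤ K ∧
    ∀ {B A : ℝ} {K₁ : IntermediateField ℚ ℝ}, Anc R e B A K₁ → B ^ K ≤ A →
    ∀ {l m : ℝ} {K₂ : IntermediateField ℚ ℝ}, 2 ≤ l → Near M l m K₂ →
      3 ≤ Module.finrank ℚ ↥(K₂ ⊓ K₁) → m ≤ (A * l) ^ K := by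
  obtain ⟨K, hK1, hK⟩ := anc_eff R e (M + 1)
  refine ⟨K + K * eNB M K, by omega, ?_⟩
  intro B A K₁ hanc hBA l m K₂ hl hnear h3
  have hB : 2 ≤ B := by
    obtain ⟨hnf1, S, h, W, F, a, b, hS, hh1, hhA, hWA, haA, ⟨P⟩, hrest⟩ := hanc
    exact P.hB
  have hA1 : 1 ≤ A := (one_le_pow₀ (by linarith)).trans hBA
  have hres := near_bound (C' := K) (c := A ^ K) hl (one_le_pow₀ hA1) hnear (fun N r hN hr _ =>
    hK hanc ((pow_le_pow_right₀ (by linarith) (by omega)).trans hBA) K₂ r N (N + 1) (by omega)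
      (by omega) (by omega) h3)
  refine hres.trans ?_
  have hl1 : 1 ≤ l := by linarith
  calc (A ^ K * l) ^ eNB M K ≤ ((A * l) ^ K) ^ eNB M K := by
        apply pow_le_pow_left₀ (by positivity)
        rw [mul_pow]
        apply mul_le_mul_of_nonneg_left _ (by positivity)
        exact le_self_pow₀ hl1 (by omega)
    _ = (A * l) ^ (K * eNB M K) := by rw [← pow_mul]
    _ ≤ _ := pow_le_pow_right₀ (one_le_mul_of_one_le_of_one_le hA1 hl1) (by omega)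

end Pool.Agent.Y910.A
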