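import Pool.Agent.Y910.A.A12
import Pool.Agent.W257.G6

/-!
Anchors over the splitting fields of the fibres of curves that are totally split at infinity.
-/

open Polynomial Finset NumberField IntermediateField

namespace Pool.Agent.Y910.A

open Pool.Agent.H322R2 Pool.Agent.Y910.S Pool.Agent.Y910.G Pool.Agent.W257

/-- enlarging the exponent -/
noncomputable def apMono {A : Type*} [CommRing A] {N : RingSeminorm A} {σ : A →+* ℝ} {e e' : ℕ}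
    {B W : ℝ} {F : ℤ[X][X]} {a b : ℤ} (he : e ≤ e') (P : AP N σ e B W F a b) :
    AP N σ e' B W F a b where
  ζ := P.ζ
  ω := P.ω
  ρ := P.ρ
  θ := P.θ
  hB := P.hB
  hW := P.hW
  ha := P.ha
  hρB := P.hρB
  hζ := P.hζ
  hω := P.hω
  hθ := P.hθ
  hx := P.hx
  hy := P.hy
  hF := P.hF
  hD := P.hD
  hDle := P.hDle.trans (pow_le_pow_right₀ (by have := P.a_ge; linarith) he)
  hFn := P.hFn

theorem split_anchor {m : ℕ} (hm : 1 ≤ m) {f : ℤ[X][X]} (hf : f.Monic)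
    (hfd : f.natDegree = m) (hT : TD m f) {ρ : Fin m → ℤ} (hρ : Function.Injective ρ)
    (hlead : lead m f = ∏ i, (X - C (ρ i))) {h : ℝ} (hh : 1 ≤ h) (hfh : pn (pn zn) f ≤ h)
    {a : ℤ} (ha2 : (cGB m h) ^ 2 ≤ |(a : ℝ)|) :
    Anc m.factorial (10 * m.factorial + 2 * m ^ 2 + 1) (cGB m h) |(a : ℝ)| (Kf f a) := by
  obtain ⟨δ, ω, u, hδ, hsp, hbζ, hω, hu, hρh⟩ := int_branches hm hf hfd hT hρ hlead hh hfh
  obtain ⟨B, hB⟩ : ∃ B, B = cGB m h := ⟨_, rfl⟩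
  rw [← hB] at hbζ hu ha2 ⊢
  have h2h : 2 ≤ 2 * h := by linarith
  have h2h1 : 1 ≤ 2 * h := by linarith
  have hm1 : (1 : ℝ) ≤ m := by exact_mod_cast hm
  obtain ⟨N, hN⟩ : ∃ N, N = m.factorial := ⟨_, rfl⟩
  have hN1 : 1 ≤ N := by rw [hN]; exact Nat.factorial_pos m
  have hm2 : 4 ≤ (m + 1) ^ 2 := by nlinarith
  -- sizes of `B`
  have hBe : B = (2 * h) ^ 2 * (2 * h) ^ (8 * (m + 1) ^ 2 - 2) := by
    rw [hB, cGB, ← pow_add]
    congr 1
    omega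
  have hB1 : 2 ^ (m ^ 2 + 1) ≤ (2 * h) ^ (8 * (m + 1) ^ 2 - 2) := by
    calc (2 : ℝ) ^ (m ^ 2 + 1) ≤ 2 ^ (8 * (m + 1) ^ 2 - 2) := by
          apply pow_le_pow_right₀ (by norm_num)
          have : m ^ 2 + 1 + 2 ≤ 8 * (m + 1) ^ 2 := by nlinarith
          omega
      _ ≤ _ := pow_le_pow_left₀ (by norm_num) h2h _
  have hNp : (N : ℝ) + 1 ≤ 2 ^ (m ^ 2 + 1) := by
    have h1 := factorial_le_two_pow m
    rw [← hN] at h1
    have h2 : (N : ℝ) ≤ 2 ^ (m ^ 2) := by exact_mod_cast h1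
    have h3 : (1 : ℝ) ≤ 2 ^ (m ^ 2) := one_le_pow₀ (by norm_num)
    rw [pow_succ]
    linarith
  have h4h : 4 ≤ (2 * h) ^ 2 := by nlinarith
  have hX1 : (1 : ℝ) ≤ (2 * h) ^ (8 * (m + 1) ^ 2 - 2) := one_le_pow₀ h2h1
  have hB4 : 4 ≤ B := by rw [hBe]; nlinarith
  have hBm : 4 * m * h ^ 2 ≤ B := by
    rw [hBe]
    have h5 : (m : ℝ) ≤ (2 * h) ^ (8 * (m + 1) ^ 2 - 2) := by
      refine le_trans ?_ hB1
      have h6 : (m : ℝ) ≤ 2 ^ m := by exact_mod_cast (Nat.lt_two_pow_self (n := m)).le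
      refine h6.trans (pow_le_pow_right₀ (by norm_num) (by nlinarith))
    calc 4 * m * h ^ 2 = (2 * h) ^ 2 * m := by ring
      _ ≤ _ := mul_le_mul_of_nonneg_left h5 (by positivity)
  have hBN : (m.factorial : ℝ) + 1 ≤ B := by
    rw [← hN, hBe]
    refine (hNp.trans hB1).trans ?_
    exact le_mul_of_one_le_left (by positivity) (by linarith)
  have P : Br m f B h ρ δ ω u := ⟨hm, hf, hfd, hT, hρ, hB4, hh, hδ, hsp, hbζ, hω, hu, hρh⟩
  have hB1' : 1 ≤ B := by linarith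
  obtain ⟨F₁, c, G⟩ := P.anchor ha2 hBm hBN hfh
  obtain ⟨hg, hgd⟩ := P.g_monic (a := a)
  obtain ⟨hfin, -, -⟩ := Pool.Agent.W571.ESG.main_roots m (f.map (evf a)) (βG δ a ω) hg hgd
    (P.split_at ha2)
  have hnf : NumberField ↥(KG δ a ω) :=
    { to_charZero := inferInstance, to_finiteDimensional := hfin }
  obtain ⟨S, hS⟩ := P.gen ha2 hBm
  obtain ⟨P1⟩ := G.ap
  have hA1 : 1 ≤ |(a : ℝ)| := (one_le_pow₀ hB1').trans ha2
  rw [← P.KG_eq ha2]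
  refine ⟨hnf, S, _, _, F₁, a, c, hS, one_le_pow₀ hA1, pow_le_pow_right₀ hA1 (by omega),
    pow_le_pow_right₀ hA1 (by omega), rfl, ⟨apMono (by omega) P1⟩, G.monic, G.prime, G.pos, G.le,
    G.fin, fun j => ?_⟩
  have h1 := G.td.2 j
  have h2 := G.le
  omega

end Pool.Agent.Y910.A
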