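import Pool.Agent.Y910.A.A13
import Pool.Agent.H322R2.AAnch

/-!
Anchors over the pure fields `ℚ(P(a)^(1/r))`.
-/

open Polynomial Finset NumberField IntermediateField

namespace Pool.Agent.Y910.A

open Pool.Agent.H322R2 Pool.Agent.Y910.S Pool.Agent.Y910.G Pool.Agent.W257

theorem pure_anchor {d : ℕ} (hd : 1 ≤ d) {P g : ℤ[X]} (hm : P.Monic) (hPd : P.natDegree = d)
    (hg : Irreducible g) (hgP : g ∣ P) (hg2 : ¬ g ^ 2 ∣ P) {h : ℝ} (hh : 1 ≤ h)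
    (hP : pn zn P ≤ h) (a : ℤ) (ha0 : 0 < a) (ha : cA d h ^ 2 ≤ (a : ℝ)) (μ : ℝ) (hμ0 : 0 < μ)
    (hμ : μ ^ d = ((P.eval a : ℤ) : ℝ)) :
    Anc d (d ^ 3 + d ^ 2 + 1) (cA d h) |(a : ℝ)| ℚ⟮μ⟯ := by
  have hd0 : 0 < d := by omega
  obtain ⟨hT1, hT2⟩ := tA_facts hd0 hh
  have hdR : (1 : ℝ) ≤ d := by exact_mod_cast hd
  obtain ⟨m, hPa⟩ : ∃ m, P.eval a = m := ⟨_, rfl⟩
  rw [hPa] at hμ
  obtain ⟨B, hB⟩ : ∃ B, B = cA d h := ⟨_, rfl⟩
  rw [← hB] at ha ⊢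
  have hBT : B = 4 * tA d h ^ 2 := hB
  have hBd : (d : ℝ) ≤ B := by rw [hBT]; nlinarith
  have hB4 : 4 ≤ B := by rw [hBT]; nlinarith
  have hBh : 4 * h ≤ B := by
    have h3 : h ≤ tA d h := by
      unfold tA
      have e1 : (1 : ℝ) ≤ (d : ℝ) ^ (3 * (d + 1)) := one_le_pow₀ (by linarith)
      have e2 : (1 : ℝ) ≤ 2 ^ d := one_le_pow₀ (by norm_num)
      calc h ≤ (1 + h) * 2 ^ d := by nlinarith
        _ ≤ _ := le_mul_of_one_le_left (by positivity) e1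
    rw [hBT]
    nlinarith
  have haB2 : B ^ 2 ≤ (a : ℝ) := ha
  have haB : 4 * B ≤ (a : ℝ) := by nlinarith
  obtain ⟨A, hA⟩ : ∃ A : ℝ, A = (a : ℝ) := ⟨_, rfl⟩
  have haR : (0 : ℝ) < a := by exact_mod_cast ha0
  have habs : |(a : ℝ)| = A := by rw [hA]; exact abs_of_pos haR
  rw [← hA] at ha haB2 haB
  have hA1 : 1 ≤ A := by linarith
  have hA4 : 16 ≤ A := by linarith
  have hA0 : 0 < A := by linarith
  have hAh : 2 * h ≤ A := by linarith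
  have hdA : (d : ℝ) ≤ A := by linarith
  -- size of m
  have hev := eval_monic_bd hm hPd hP (a := a) (by omega)
  rw [hPa, ← hA] at hev
  have hmabs : |(m : ℝ) - A ^ d| ≤ A ^ d / 2 := by
    rw [le_div_iff₀ (by norm_num)]
    have h3 : |(m : ℝ) - A ^ d| * 2 * h ≤ A ^ d * h := by
      calc |(m : ℝ) - A ^ d| * 2 * h = |(m : ℝ) - A ^ d| * (2 * h) := by ring
        _ ≤ |(m : ℝ) - A ^ d| * A := mul_le_mul_of_nonneg_left hAh (abs_nonneg _)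
        _ ≤ _ := by rw [mul_comm (A ^ d)]; exact hev
    exact le_of_mul_le_mul_right h3 (by linarith)
  have hAd : 0 < A ^ d := by positivity
  have hmpos : (0 : ℝ) < m := by
    have := (abs_le.1 hmabs).1
    linarith
  have hm0 : 0 < m := by exact_mod_cast hmpos
  have hmle : (m : ℝ) ≤ A ^ (d + 1) := by
    have h3 := (abs_le.1 hmabs).2
    have h4 : A ^ (d + 1) = A ^ d * A := pow_succ _ _
    nlinarith
  have hmpow : (m : ℝ) ^ (d - 1) ≤ A ^ (d ^ 2 - 1) := by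
    calc (m : ℝ) ^ (d - 1) ≤ (A ^ (d + 1)) ^ (d - 1) := pow_le_pow_left₀ hmpos.le hmle _
      _ = A ^ (d ^ 2 - 1) := by
        rw [← pow_mul]
        congr 1
        obtain ⟨e, rfl⟩ : ∃ e, d = e + 1 := ⟨d - 1, by omega⟩
        simp only [Nat.add_sub_cancel]
        have : (e + 1) ^ 2 = (e + 1 + 1) * e + 1 := by ring
        omega
  have hAA : A ^ (d ^ 2) = A ^ (d ^ 2 - 1) * A := by
    rw [← pow_succ]; congr 1
    have : 0 < d ^ 2 := by positivity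
    omega
  have hA2 : 1 ≤ A ^ (d ^ 2 - 1) := one_le_pow₀ hA1
  have hAd2 : 1 ≤ A ^ (d ^ 2) := one_le_pow₀ hA1
  have hHβ : 1 + (m : ℝ) ^ (d - 1) ≤ A ^ (d ^ 2) := by rw [hAA]; nlinarith
  have hA3 : A ^ (d ^ 2 + 1) = A ^ (d ^ 2) * A := pow_succ _ _
  -- the field
  have hμint : IsIntegral ℤ μ := by
    refine ⟨X ^ d - C m, monic_X_pow_sub_C _ (by omega), ?_⟩
    rw [← aeval_def]
    simp [hμ]
  have hfd : FiniteDimensional ℚ ℚ⟮μ⟯ :=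
    IntermediateField.adjoin.finiteDimensional (hμint.tower_top)
  have hnf : NumberField ℚ⟮μ⟯ := { to_charZero := inferInstance, to_finiteDimensional := hfd }
  obtain ⟨β0, hβ0⟩ : ∃ β0 : ℚ⟮μ⟯, algebraMap ℚ⟮μ⟯ ℝ β0 = μ ^ (d - 1) :=
    ⟨IntermediateField.AdjoinSimple.gen ℚ μ ^ (d - 1), by
      rw [map_pow, IntermediateField.AdjoinSimple.algebraMap_gen ℚ μ]⟩
  have hβ : β0 ^ d = (m : ℚ⟮μ⟯) ^ (d - 1) := by
    apply (algebraMap ℚ⟮μ⟯ ℝ).injective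
    rw [map_pow, hβ0, map_pow, map_intCast, ← hμ, ← pow_mul, ← pow_mul, mul_comm]
  -- β as an algebraic integer
  obtain ⟨β, hβ1, hβ2, hβ3⟩ := exists_alpha ℚ⟮μ⟯ (algebraMap ℚ⟮μ⟯ ℝ) (X ^ d - C (m ^ (d - 1)))
    (monic_X_pow_sub_C _ (by omega)) (A ^ (d ^ 2)) hAd2 (by
      refine le_trans ?_ hHβ
      rw [sub_eq_add_neg]
      refine (map_add_le_add _ _ _).trans ?_
      rw [map_neg_eq_map, pn_C, zn_apply]
      apply add_le_add
      · refine (seminorm_pow_le _ pnz_one _ _).trans (pow_le_one₀ (apply_nonneg _ _) ?_)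
        rw [pn_X]
        have := zn_apply 1
        rw [this]; norm_num
      · push_cast
        rw [abs_of_nonneg (by positivity)]) β0 (by
      rw [map_sub, map_pow, evf_X, evf_C, hβ]
      push_cast
      ring)
  have hβd : β ^ d = ((m ^ (d - 1) : ℤ) : 𝓞 ℚ⟮μ⟯) := by
    rw [map_sub, map_pow, evf_X, evf_C, sub_eq_zero] at hβ2
    exact hβ2
  have hσβ : 0 < rE ℚ⟮μ⟯ (algebraMap ℚ⟮μ⟯ ℝ) β := by rw [hβ1, hβ0]; positivity
  -- the anchor point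
  obtain ⟨P1⟩ := mkAP (N := hs ℚ⟮μ⟯) (σ := rE ℚ⟮μ⟯ (algebraMap ℚ⟮μ⟯ ℝ)) (hs_one ℚ⟮μ⟯)
    (abs_rE_le ℚ⟮μ⟯ (algebraMap ℚ⟮μ⟯ ℝ)) hd0 hm hPd hh hP β m a
    ha0 hPa hm0 (by rw [hβd]; push_cast; rfl) hσβ (W := A ^ (d ^ 2 + 1)) (B := B)
    (by rw [hA3]; nlinarith) (by
      rw [hA3, hAA]
      have e1 : (m : ℝ) ^ (d - 1) * h ≤ A ^ (d ^ 2 - 1) * A :=
        mul_le_mul hmpow (by linarith) (by linarith) (by positivity)
      nlinarith) hB.ge (by rw [← hA]; exact haB2) (by rw [← hA]; exact hmle)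
    (by rw [← hA]; exact hdA)
  -- the generator
  obtain ⟨n, hn⟩ : ∃ n, Module.finrank ℚ ℚ⟮μ⟯ = n := ⟨_, rfl⟩
  have hnd : n ≤ d := by
    rw [← hn, IntermediateField.adjoin.finrank (hμint.tower_top)]
    have h1 : minpoly ℚ μ ∣ X ^ d - C (m : ℚ) := by
      apply minpoly.dvd
      simp [hμ]
    have h2 := natDegree_le_of_dvd h1 (monic_X_pow_sub_C (m : ℚ) (by omega)).ne_zero
    rwa [natDegree_X_pow_sub_C] at h2
  have hadj : ℚ⟮rE ℚ⟮μ⟯ (algebraMap ℚ⟮μ⟯ ℝ) β⟯ = ℚ⟮μ⟯ := by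
    rw [hβ1, hβ0]
    apply le_antisymm
    · rw [adjoin_simple_le_iff]
      exact pow_mem (mem_adjoin_simple_self ℚ μ) _
    · rw [adjoin_simple_le_iff]
      have h1 : μ = (m : ℝ) / μ ^ (d - 1) := by
        rw [← hμ, eq_div_iff (by positivity), ← pow_succ']
        congr 1
        omega
      have h2 : (m : ℝ) / μ ^ (d - 1) ∈ ℚ⟮μ ^ (d - 1)⟯ := by
        apply div_mem _ (mem_adjoin_simple_self ℚ _)
        exact ℚ⟮μ ^ (d - 1)⟯.algebraMap_mem (m : ℚ) |> fun h => by simpa using h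
      rwa [← h1] at h2
  have hS := gen_powers hn β hadj (H := A ^ (d ^ 2)) hAd2 hβ3
  rw [habs]
  have hd3 : d ^ 2 * n ≤ d ^ 3 := by
    calc d ^ 2 * n ≤ d ^ 2 * d := Nat.mul_le_mul_left _ hnd
      _ = d ^ 3 := by ring
  refine ⟨hnf, _, (A ^ (d ^ 2)) ^ n, A ^ (d ^ 2 + 1), FA d m P, a, m, hS, one_le_pow₀ hAd2, ?_,
    pow_le_pow_right₀ hA1 (by omega), habs, ⟨apMono (by omega) P1⟩, FA_monic hd0,
    FA_prime hd0 hm0.ne' hm hg hgP hg2, by rw [FA_natDegree hd0]; omega,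
    by rw [FA_natDegree hd0], by rw [FA_natDegree hd0, hn]; exact hnd, ?_⟩
  · rw [← pow_mul]
    exact pow_le_pow_right₀ hA1 (by omega)
  · intro j
    refine (FA_coeff_natDegree hd0 hPd.le j).trans ?_
    have : d ≤ d ^ 2 := Nat.le_self_pow (by norm_num) d
    omega

end Pool.Agent.Y910.A
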