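import Pool.Agent.Y910.A.A14
import Pool.Agent.Y660.SG.Edge

/-!
Anchors give bounds for all plane curves.
-/

open Polynomial Finset NumberField IntermediateField

namespace Pool.Agent.Y910.A

open Pool.Agent.H322R2 Pool.Agent.Y910.S Pool.Agent.Y910.G Pool.Agent.W257

lemma Anc.two_le {R e : ℕ} {B A : ℝ} {K : IntermediateField ℚ ℝ} (h : Anc R e B A K) : 2 ≤ B := by
  obtain ⟨hnf1, S, h, W, F, a, b, hS, hh1, hhA, hWA, haA, ⟨P⟩, hrest⟩ := h
  exact P.hB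

/-- anchors give bounds for all plane curves whose residue field meets the anchor field in degree
at least three -/
theorem anc_curve (R e C : ℕ) (hC2 : 2 ≤ C) : ∃ K : ℕ, C + 1 ≤ K ∧
    ∀ {B : ℝ} {A : ℕ} {K₁ : IntermediateField ℚ ℝ}, Anc R e B (A : ℝ) K₁ → B ^ K ≤ A →
    ∀ (F : MvPolynomial (Fin 2) ℤ) (Q : ℚ[X] → Prop) (m : ℕ), F ≠ 0 → SD C F Q m →
      m ≤ (A * len F) ^ K ∨ ∃ g : ℚ[X], Q g ∧ ∃ η : ℝ, aeval η g = 0 ∧
        Module.finrank ℚ ↥(ℚ⟮η⟯ ⊓ K₁) ≤ 2 := by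
  obtain ⟨K0, hK01, hK0⟩ := anc_bound R e C
  refine ⟨C + 1 + 2 * K0, by omega, ?_⟩
  intro B A K₁ hanc hBA F Q m hF hSD
  have hB := hanc.two_le
  have hlen : 1 ≤ len F := G.len_pos hF
  -- `A` is large
  have hCA : C + 1 ≤ A := by
    have h1 : ((C + 1 : ℕ) : ℝ) ≤ A := by
      refine le_trans ?_ hBA
      calc ((C + 1 : ℕ) : ℝ) ≤ 2 ^ (C + 1) := by exact_mod_cast Nat.lt_two_pow_self.le
        _ ≤ B ^ (C + 1) := pow_le_pow_left₀ (by norm_num) hB _
        _ ≤ _ := pow_le_pow_right₀ (by linarith) (by omega)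
    exact_mod_cast h1
  have hAl : 1 ≤ A * len F := Nat.mul_pos (by omega) hlen
  rcases hSD with h | ⟨g, hg, η, hη, hn⟩
  · left
    refine h.trans ?_
    exact (Nat.pow_le_pow_left (Nat.mul_le_mul_right _ (by omega : C ≤ A)) _).trans
      (Nat.pow_le_pow_right hAl (by omega))
  by_cases h3 : 3 ≤ Module.finrank ℚ ↥(ℚ⟮η⟯ ⊓ K₁)
  swap
  · exact Or.inr ⟨g, hg, η, hη, by omega⟩
  left
  have hCl : 2 ≤ C * len F := by
    calc 2 ≤ C * 1 := by omega
      _ ≤ _ := Nat.mul_le_mul_left _ hlen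
  have hres := hK0 hanc ((pow_le_pow_right₀ (by linarith) (by omega)).trans hBA)
    (by exact_mod_cast hCl) hn h3
  have hres' : m ≤ (A * (C * len F)) ^ K0 := by exact_mod_cast hres
  refine hres'.trans ?_
  calc (A * (C * len F)) ^ K0 ≤ ((A * len F) ^ 2) ^ K0 := by
        apply Nat.pow_le_pow_left
        calc A * (C * len F) ≤ A * (A * len F) :=
              Nat.mul_le_mul_left _ (Nat.mul_le_mul_right _ (by omega))
          _ ≤ (A * len F) ^ 2 := by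
              have e : (A * len F) ^ 2 = A * (A * len F) * len F := by ring
              rw [e]
              exact Nat.le_mul_of_pos_right _ hlen
    _ = (A * len F) ^ (2 * K0) := by rw [← pow_mul]
    _ ≤ _ := Nat.pow_le_pow_right hAl (by omega)

/-- Anchors give bounds for weighted curves. -/
theorem anc_weighted (R e r p q : ℕ) (hr : 3 ≤ r) (hp : 1 ≤ p) (hq : 1 ≤ q)
    (hpq : Nat.Coprime p q) : ∃ K : ℕ, 1 ≤ K ∧
    ∀ {B A : ℝ} {K₁ : IntermediateField ℚ ℝ}, Anc R e B A K₁ → B ^ K ≤ A →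
    ∀ G : ℤ[X][X], WN r p q G → Irreducible ((wl r p q G).map (Int.castRingHom ℚ)) →
      (∀ η : ℝ, evf η (wl r p q G) = 0 → 3 ≤ Module.finrank ℚ ↥(ℚ⟮η⟯ ⊓ K₁)) →
      ∀ H : ℝ, 1 ≤ H → pn (pn zn) G ≤ H → ∀ a b : ℤ, ev a b G = 0 →
      |(a : ℝ)| ≤ (A * (2 + H)) ^ K := by
  obtain ⟨K0, hK01, hK0⟩ := anc_eff R e (r + p + q)
  obtain ⟨C1, C2, hC1, hBQ⟩ := exists_BQ r p q (by omega) hp hq hpq
  refine ⟨C2 * p + K0 + K0 * K0 + C1 * K0, by omega, ?_⟩
  obtain ⟨Kf, hKf⟩ : ∃ Kf, Kf = C2 * p + K0 + K0 * K0 + C1 * K0 := ⟨_, rfl⟩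
  rw [← hKf]
  intro B A K₁ hanc hBA G hG hirr hη3 H hH hGH a b hab
  have hB := hanc.two_le
  have hA1 : 1 ≤ A := (one_le_pow₀ (by linarith)).trans hBA
  obtain ⟨hgm, hgd⟩ := wl_monic hG
  have hpg : pn zn (wl r p q G) ≤ H := (pn_wl_le hp hq hG).trans hGH
  have hg0 : (wl r p q G).coeff 0 ≠ 0 := by
    intro h0
    have h1 : X ∣ (wl r p q G).map (Int.castRingHom ℚ) := by
      rw [X_dvd_iff, coeff_map, h0, map_zero]
    obtain ⟨k, hk⟩ := h1
    have h2 : ((wl r p q G).map (Int.castRingHom ℚ)).natDegree = r := by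
      rw [hgm.natDegree_map, hgd]
    rcases hirr.isUnit_or_isUnit hk with h | h
    · exact not_isUnit_X h
    · have h3 : k ≠ 0 := h.ne_zero
      have h4 : ((wl r p q G).map (Int.castRingHom ℚ)).natDegree = 1 + k.natDegree := by
        rw [hk, natDegree_mul X_ne_zero h3, natDegree_X]
      rw [natDegree_eq_zero_of_isUnit h] at h4
      omega
  have hprime : Prime G := Y660.SG.edge_prime r p q (by omega) hp hq hpq G hG.1 hG.2.1 hG.2.2
    (wl r p q G) hgm hgd (fun l hl => wl_coeff l hl) hg0 hirr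
  have hn : nrm (wl r p q G) r (derivative (wl r p q G)) ≠ 0 := by
    apply nrm_ne_zero_of_coprime _ _ hgm hgd
    rw [← derivative_map]
    exact hirr.separable
  have h2H : (1 : ℝ) ≤ 2 + H := by linarith
  have hAH : 1 ≤ A * (2 + H) := one_le_mul_of_one_le_of_one_le hA1 h2H
  obtain ⟨Z, hZ0, hZ⟩ : ∃ Z : ℝ, 0 ≤ Z ∧ Z ^ p = |(a : ℝ)| := by
    refine ⟨|(a : ℝ)| ^ ((p : ℝ)⁻¹), by positivity, ?_⟩
    rw [← Real.rpow_natCast, ← Real.rpow_mul (abs_nonneg _),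
      inv_mul_cancel₀ (by positivity), Real.rpow_one]
  by_cases hlarge : (2 + H) ^ C2 ≤ Z
  swap
  · push Not at hlarge
    rw [← hZ]
    calc Z ^ p ≤ ((2 + H) ^ C2) ^ p := pow_le_pow_left₀ hZ0 hlarge.le _
      _ = (2 + H) ^ (C2 * p) := by rw [← pow_mul]
      _ ≤ (A * (2 + H)) ^ (C2 * p) :=
          pow_le_pow_left₀ (by linarith) (le_mul_of_one_le_left (by linarith) hA1) _
      _ ≤ _ := pow_le_pow_right₀ hAH (by omega)
  obtain ⟨η, hη0, hηH, hQ⟩ := hBQ G hG hprime hg0 hn H hH hGH a b hab Z hZ hlarge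
  have hevf : ∀ s : ℤ[X], evf η s = aeval η s := by
    intro s
    rw [aeval_def, evf, coe_eval₂RingHom]
    congr 1
  have hint : IsIntegral ℤ η := ⟨wl r p q G, hgm, hη0⟩
  have hfin : Module.finrank ℚ ℚ⟮η⟯ = r := by
    rw [IntermediateField.adjoin.finrank (hint.tower_top)]
    have h1 : minpoly ℚ η = (wl r p q G).map (Int.castRingHom ℚ) := by
      symm
      apply minpoly.eq_of_irreducible_of_monic hirr
      · have h2 := hevf (wl r p q G)
        rw [hη0] at h2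
        have h3 : aeval η ((wl r p q G).map (algebraMap ℤ ℚ)) = aeval η (wl r p q G) :=
          aeval_map_algebraMap ℚ η (wl r p q G)
        rw [← h2] at h3
        exact h3
      · exact hgm.map _
    rw [h1, hgm.natDegree_map, hgd]
  have hfd : FiniteDimensional ℚ ℚ⟮η⟯ :=
    IntermediateField.adjoin.finiteDimensional (hint.tower_top)
  have hnf : NumberField ℚ⟮η⟯ := { to_charZero := inferInstance, to_finiteDimensional := hfd }
  obtain ⟨x, hx⟩ : ∃ x : ℚ⟮η⟯, algebraMap ℚ⟮η⟯ ℝ x = η :=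
    ⟨IntermediateField.AdjoinSimple.gen ℚ η, IntermediateField.AdjoinSimple.algebraMap_gen ℚ η⟩
  have hx0 : evf x (wl r p q G) = 0 := by
    have h3 := map_evf (algebraMap ℚ⟮η⟯ ℝ) x (wl r p q G)
    rw [hx, hη0] at h3
    exact (algebraMap ℚ⟮η⟯ ℝ).injective (by rw [h3, map_zero])
  obtain ⟨α, hα1, hα2, hα3⟩ := exists_alpha ℚ⟮η⟯ (algebraMap ℚ⟮η⟯ ℝ) (wl r p q G) hgm H hH hpg x hx0
  rw [hx] at hα1
  obtain ⟨Q, _⟩ := hQ (hs ℚ⟮η⟯) (rE ℚ⟮η⟯ (algebraMap ℚ⟮η⟯ ℝ)) (hs_one _) (abs_rE_le _ _) α hα2 hα1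
    (by linarith)
  have hE := hK0 hanc ((pow_le_pow_right₀ (by linarith) (by omega)).trans hBA) ℚ⟮η⟯ r p q
    (by omega) (by omega) (by omega) (hη3 η hη0)
  have hC1' : (2 + H) ≤ (2 + H) ^ C1 := le_self_pow₀ h2H (by omega)
  have h4 := hE hnf hfin G _ _ ((2 + H) ^ C1) α a b (by rw [hα1]) (by linarith) le_rfl hG.1 hG.2.1
    hprime Q
  refine h4.trans ?_
  calc (A ^ K0 * (2 + H) ^ C1) ^ K0 ≤ ((A * (2 + H)) ^ K0 * (A * (2 + H)) ^ C1) ^ K0 := by
        apply pow_le_pow_left₀ (by positivity)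
        apply mul_le_mul _ _ (by positivity) (by positivity)
        · exact pow_le_pow_left₀ (by linarith) (le_mul_of_one_le_right (by linarith) h2H) _
        · exact pow_le_pow_left₀ (by linarith) (le_mul_of_one_le_left (by linarith) hA1) _
    _ = (A * (2 + H)) ^ (K0 * K0 + C1 * K0) := by rw [← pow_add, ← pow_mul]; congr 1; ring
    _ ≤ _ := pow_le_pow_right₀ hAH (by omega)

end Pool.Agent.Y910.A
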