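import Pool.Agent.Y910.A.A15
import Pool.Agent.H322R2.CompB

/-!
Explicit weighted equations.
-/

open Polynomial Finset NumberField IntermediateField

namespace Pool.Agent.Y910.A

open Pool.Agent.H322R2 Pool.Agent.Y910.S Pool.Agent.Y910.G Pool.Agent.W257

/-- the weighted homogeneous polynomial with edge polynomial `g` -/
noncomputable def wh (r p q : ℕ) (g : ℤ[X]) : ℤ[X][X] :=
  ∑ l ∈ range (r + 1), monomial (p * l) (monomial (q * (r - l)) (g.coeff l))

/-- the polynomial `wh - P` -/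
noncomputable def whP (r p q : ℕ) (g : ℤ[X]) (P : MvPolynomial (Fin 2) ℤ) : ℤ[X][X] :=
  wh r p q g - toB ℤ P

section

variable {r p q : ℕ} {g : ℤ[X]}

lemma wh_coeff_edge (hp : 1 ≤ p) {l : ℕ} (hl : l ≤ r) :
    (wh r p q g).coeff (p * l) = monomial (q * (r - l)) (g.coeff l) := by
  rw [wh, finsetSum_coeff, Finset.sum_eq_single l]
  · rw [coeff_monomial, if_pos rfl]
  · intro b _ hb
    rw [coeff_monomial, if_neg]
    intro h
    exact hb (Nat.eq_of_mul_eq_mul_left (by omega) h)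
  · intro h
    exact absurd (Finset.mem_range.2 (by omega)) h

lemma wh_coeff_ne (i j : ℕ) (h : ((wh r p q g).coeff j).coeff i ≠ 0) :
    ∃ l, l ≤ r ∧ j = p * l ∧ i = q * (r - l) := by
  by_contra hcon
  push Not at hcon
  apply h
  rw [wh, finsetSum_coeff, finsetSum_coeff]
  apply Finset.sum_eq_zero
  intro l hl
  rw [Finset.mem_range] at hl
  rw [coeff_monomial]
  split_ifs with h1
  · rw [coeff_monomial, if_neg]
    intro h2
    exact hcon l (by omega) h1.symm h2.symm
  · rw [coeff_zero]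

lemma toB_coeff_ne {P : MvPolynomial (Fin 2) ℤ}
    (hP : ∀ n ∈ P.support, q * n 0 + p * n 1 < p * q * r) (i j : ℕ)
    (h : ((toB ℤ P).coeff j).coeff i ≠ 0) : p * i + q * j < p * q * r := by
  rw [coeff_toB'] at h
  have := hP _ (MvPolynomial.mem_support_iff.2 h)
  simp only [Finsupp.coe_add, Pi.add_apply, Finsupp.single_eq_same] at this
  simp at this
  omega

variable {P : MvPolynomial (Fin 2) ℤ} (hp : 1 ≤ p) (hq : 1 ≤ q) (hr : 1 ≤ r) (hgm : g.Monic)
  (hgd : g.natDegree = r) (hP : ∀ n ∈ P.support, q * n 0 + p * n 1 < p * q * r)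

include hP

omit hP in
lemma edge_eq {l : ℕ} (hl : l ≤ r) : p * (q * (r - l)) + q * (p * l) = p * q * r := by
  obtain ⟨k, hk⟩ : ∃ k, r = l + k := ⟨r - l, by omega⟩
  subst hk
  rw [Nat.add_sub_cancel_left]
  ring

lemma toB_coeff_big {j : ℕ} (hj : p * r ≤ j) : (toB ℤ P).coeff j = 0 := by
  ext i
  rw [coeff_zero]
  by_contra h
  have h1 := toB_coeff_ne hP i j h
  have h2 : p * q * r ≤ q * j := by
    calc p * q * r = q * (p * r) := by ring
      _ ≤ q * j := Nat.mul_le_mul_left _ hj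
  omega

include hp hq hr hgm hgd

omit hq hr in
lemma whP_WN : WN r p q (whP r p q g P) := by
  have h1 : (whP r p q g P).coeff (r * p) = 1 := by
    rw [whP, coeff_sub, toB_coeff_big hP (by rw [mul_comm]), sub_zero, mul_comm r p,
      wh_coeff_edge hp le_rfl, Nat.sub_self, mul_zero]
    have : g.coeff r = 1 := by rw [← hgd]; exact hgm
    rw [this]
    rfl
  have h2 : (whP r p q g P).natDegree ≤ r * p := by
    rw [natDegree_le_iff_coeff_eq_zero]
    intro j hj
    rw [whP, coeff_sub, toB_coeff_big hP (by rw [mul_comm]; exact hj.le), sub_zero]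
    ext i
    rw [coeff_zero]
    by_contra h
    obtain ⟨l, hl, hj', -⟩ := wh_coeff_ne i j h
    have : p * l ≤ p * r := Nat.mul_le_mul_left _ hl
    rw [mul_comm] at hj
    omega
  refine ⟨monic_of_natDegree_le_of_coeff_eq_one _ h2 h1, ?_, ?_⟩
  · apply le_antisymm h2
    apply le_natDegree_of_ne_zero
    rw [h1]
    exact one_ne_zero
  · intro i j h
    rw [whP, coeff_sub, coeff_sub] at h
    by_cases h3 : ((wh r p q g).coeff j).coeff i = 0
    · rw [h3, zero_sub, neg_ne_zero] at h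
      exact (toB_coeff_ne hP i j h).le
    · obtain ⟨l, hl, hj, hi⟩ := wh_coeff_ne i j h3
      rw [hj, hi, edge_eq hl]

omit hq hr hgm in
lemma wl_whP : wl r p q (whP r p q g P) = g := by
  ext l
  by_cases hl : l ≤ r
  · rw [wl_coeff l hl, whP, coeff_sub, coeff_sub, wh_coeff_edge hp hl, coeff_monomial, if_pos rfl]
    have : ((toB ℤ P).coeff (p * l)).coeff (q * (r - l)) = 0 := by
      by_contra h
      have := toB_coeff_ne hP _ _ h
      rw [edge_eq hl] at this
      omega
    rw [this, sub_zero]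
  · rw [coeff_eq_zero_of_natDegree_lt (lt_of_le_of_lt wl_natDegree_le (by omega)),
      coeff_eq_zero_of_natDegree_lt (by omega)]

omit hp hq hr hgm hP in
lemma pn_whP : pn (pn zn) (whP r p q g P) ≤ pn zn g + len P := by
  rw [whP, sub_eq_add_neg]
  refine (map_add_le_add _ _ _).trans ?_
  rw [map_neg_eq_map]
  apply add_le_add
  · rw [wh, pn_eq_range zn g (show g.natDegree < r + 1 by omega)]
    refine (seminorm_sum_le _ _ _).trans ?_
    apply Finset.sum_le_sum
    intro l _
    rw [pn_monomial, pn_monomial]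
  · have := pn_toB_le 0 P
    rw [shE_zero] at this
    simpa using this

omit hp hq hr hgm hP hgd in
lemma ev_whP (x y : ℤ) : ev y x (whP r p q g P)
    = (∑ l ∈ range (r + 1), g.coeff l * x ^ (p * l) * y ^ (q * (r - l)))
      - MvPolynomial.eval ![x, y] P := by
  rw [whP, map_sub, ev_toB, wh, map_sum]
  congr 1
  apply Finset.sum_congr rfl
  intro l _
  rw [ev_apply, eval₂_monomial, evf, coe_eval₂RingHom, eval₂_monomial]
  simp
  ring

end

/-- Anchors give bounds for explicit weighted equations. -/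
theorem anc_eq (R e r p q : ℕ) (hr : 3 ≤ r) (hp : 1 ≤ p) (hq : 1 ≤ q)
    (hpq : Nat.Coprime p q) : ∃ K : ℕ, 1 ≤ K ∧
    ∀ {B A : ℝ} {K₁ : IntermediateField ℚ ℝ}, Anc R e B A K₁ → B ^ K ≤ A →
    ∀ g : ℤ[X], g.Monic → g.natDegree = r → Irreducible (g.map (Int.castRingHom ℚ)) →
      (∀ η : ℝ, evf η g = 0 → 3 ≤ Module.finrank ℚ ↥(ℚ⟮η⟯ ⊓ K₁)) →
      ∀ P : MvPolynomial (Fin 2) ℤ, (∀ n ∈ P.support, q * n 0 + p * n 1 < p * q * r) →
      ∀ x y : ℤ, ∑ l ∈ range (r + 1), g.coeff l * x ^ (p * l) * y ^ (q * (r - l))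
        = MvPolynomial.eval ![x, y] P →
      |(x : ℝ)| ≤ (A * (2 + (pn zn g + len P))) ^ K ∧
        |(y : ℝ)| ≤ (A * (2 + (pn zn g + len P))) ^ K := by
  obtain ⟨K, hK1, hK⟩ := anc_weighted R e r p q hr hp hq hpq
  refine ⟨K + (1 + K * q), by omega, ?_⟩
  intro B A K₁ hanc hBA g hgm hgd hirr hη P hP x y hxy
  have hr1 : 1 ≤ r := by omega
  have hB := hanc.two_le
  have hA1 : 1 ≤ A := (one_le_pow₀ (by linarith)).trans hBA
  have hWN := whP_WN hp hgm hgd hP
  have hwl := wl_whP hp hgd hP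
  obtain ⟨H, hH⟩ : ∃ H, H = pn zn g + len P := ⟨_, rfl⟩
  have hH1 : 1 ≤ H := by
    have h1 : 1 ≤ pn zn g := by
      have h2 : zn (g.coeff r) ≤ pn zn g := by
        rw [pn_eq_range zn g (show g.natDegree < r + 1 by omega)]
        exact Finset.single_le_sum (f := fun l => zn (g.coeff l)) (fun _ _ => apply_nonneg _ _)
          (Finset.mem_range.2 (by omega))
      have h3 : g.coeff r = 1 := by rw [← hgd]; exact hgm
      rw [h3, zn_apply] at h2
      simpa using h2
    have h4 : (0 : ℝ) ≤ len P := Nat.cast_nonneg _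
    linarith
  have hpn := pn_whP (r := r) (p := p) (q := q) (g := g) (P := P) hgd
  rw [← hH] at hpn ⊢
  have hev : ev y x (whP r p q g P) = 0 := by rw [ev_whP, hxy, sub_self]
  have hy := hK hanc ((pow_le_pow_right₀ (by linarith) (by omega)).trans hBA) _ hWN
    (by rw [hwl]; exact hirr) (by rw [hwl]; exact hη) H hH1 hpn y x hev
  have h2H : 1 ≤ 2 + H := by linarith
  obtain ⟨Y, hY⟩ : ∃ Y, Y = A * (2 + H) := ⟨_, rfl⟩
  have hY1 : 1 ≤ Y := by rw [hY]; exact one_le_mul_of_one_le_of_one_le hA1 h2H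
  rw [← hY] at hy ⊢
  have hHY : H ≤ Y := by rw [hY]; nlinarith
  refine ⟨?_, hy.trans (pow_le_pow_right₀ hY1 (by omega))⟩
  obtain ⟨Z, hZ0, hZ⟩ : ∃ Z : ℝ, 0 ≤ Z ∧ Z ^ p = |(y : ℝ)| := by
    refine ⟨|(y : ℝ)| ^ ((p : ℝ)⁻¹), by positivity, ?_⟩
    rw [← Real.rpow_natCast, ← Real.rpow_mul (abs_nonneg _),
      inv_mul_cancel₀ (by positivity), Real.rpow_one]
  by_cases hZ1 : 1 ≤ Z
  · have h1 := abs_b_le' hWN hp hr1 hH1 hpn y x hev Z hZ1 hZ
    refine h1.trans ?_
    have hZY : Z ≤ Y ^ K := by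
      calc Z ≤ Z ^ p := le_self_pow₀ hZ1 (by omega)
        _ ≤ Y ^ K := by rw [hZ]; exact hy
    calc H * Z ^ q ≤ Y * (Y ^ K) ^ q :=
          mul_le_mul hHY (pow_le_pow_left₀ hZ0 hZY _) (by positivity) (by linarith)
      _ = Y ^ (1 + K * q) := by rw [← pow_mul, pow_add, pow_one]
      _ ≤ _ := pow_le_pow_right₀ hY1 (by omega)
  · -- `y = 0`
    push Not at hZ1
    have hy0 : y = 0 := by
      have h1 : |(y : ℝ)| < 1 := by
        rw [← hZ]
        exact pow_lt_one₀ hZ0 hZ1 (by omega)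
      have h2 : |y| < 1 := by exact_mod_cast h1
      exact Int.abs_lt_one_iff.1 h2
    subst hy0
    obtain ⟨f, hf⟩ : ∃ f : ℤ[X], f = (whP r p q g P).map (evf (0 : ℤ)) := ⟨_, rfl⟩
    have hfm : f.Monic := by rw [hf]; exact hWN.1.map _
    have hfx : evf (x : ℝ) f = 0 := by
      have h1 : evf x f = 0 := by
        have h0 : (evf x).comp (mapRingHom (evf (0 : ℤ))) = ev (0 : ℤ) x := by
          apply Polynomial.ringHom_ext
          · intro t
            simp
          · simp
        have h1 := congrArg (fun φ : ℤ[X][X] →+* ℤ => φ (whP r p q g P)) h0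
        simp only [RingHom.comp_apply, coe_mapRingHom] at h1
        rw [hf, h1, hev]
      have h2 := map_evf (Int.castRingHom ℝ) x f
      simp only [eq_intCast] at h2
      rw [← h2, h1, Int.cast_zero]
    have hfp : pn zn f ≤ H := by
      refine le_trans ?_ hpn
      have hd : f.natDegree < (whP r p q g P).natDegree + 1 := by
        rw [hf]
        have := natDegree_map_le (f := evf (0 : ℤ)) (p := whP r p q g P)
        omega
      rw [pn_eq_range zn f hd, pn_eq_range (pn zn) (whP r p q g P) (Nat.lt_succ_self _)]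
      apply Finset.sum_le_sum
      intro i _
      have h3 : f.coeff i = ((whP r p q g P).coeff i).coeff 0 := by
        rw [hf, coeff_map, evf, coe_eval₂RingHom, eval₂_at_zero]
        simp
      rw [h3]
      exact coeff_le_pn _ _ _
    have h4 := root_norm_le f hfm H hH1 hfp (x : ℝ) hfx
    rw [Real.norm_eq_abs] at h4
    exact (h4.trans hHY).trans (le_self_pow₀ hY1 (by omega))

end Pool.Agent.Y910.A
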