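import Pool.Agent.Y910.A.A16
import Pool.Agent.W257.G7

/-!
Thresholds, and the explicit families.
-/

open Polynomial Finset NumberField IntermediateField

namespace Pool.Agent.Y910.A

open Pool.Agent.H322R2 Pool.Agent.Y910.S Pool.Agent.W257

lemma natAbs_cast (a : ℤ) : ((a.natAbs : ℕ) : ℝ) = |(a : ℝ)| := by
  rw [Nat.cast_natAbs, Int.cast_abs]

lemma split_thr {m K : ℕ} (hm : 1 ≤ m) {P : MvPolynomial (Fin 2) ℤ}
    {ρ : Fin m → ℤ} (hρ : Function.Injective ρ) (hPd : P.totalDegree = m)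
    (hP : MvPolynomial.homogeneousComponent m P
      = ∏ i, (MvPolynomial.X 0 - MvPolynomial.C (ρ i) * MvPolynomial.X 1))
    {a : ℤ} {l : ℕ} (hl : len P ≤ l) (ha : (2 * l) ^ (8 * (m + 1) ^ 2 * (K + 2)) ≤ a.natAbs) :
    ∃ B : ℝ, Anc m.factorial (10 * m.factorial + 2 * m ^ 2 + 1) B ((a.natAbs : ℕ) : ℝ)
      (IntermediateField.adjoin ℚ {β : ℝ | MvPolynomial.aeval ![β, (a : ℝ)] P = 0}) ∧
      B ^ K ≤ ((a.natAbs : ℕ) : ℝ) := by
  have hP0 : P ≠ 0 := by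
    rintro rfl
    simp at hPd
    omega
  have hlP : 1 ≤ l := (H322R2.len_pos hP0).trans hl
  have hlP' : (1 : ℝ) ≤ l := by exact_mod_cast hlP
  have hpn : pn (pn zn) (toB ℤ P) ≤ l := by
    refine (pn_le_len P).trans ?_
    exact_mod_cast hl
  have haR : (cGB m l) ^ (K + 2) ≤ ((a.natAbs : ℕ) : ℝ) := by
    have h1 : (((2 * l) ^ (8 * (m + 1) ^ 2 * (K + 2)) : ℕ) : ℝ) ≤ ((a.natAbs : ℕ) : ℝ) := by
      exact_mod_cast ha
    refine le_trans (le_of_eq ?_) h1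
    unfold cGB
    push_cast
    rw [← pow_mul]
  have hc1 : (1 : ℝ) ≤ cGB m l := one_le_pow₀ (by linarith)
  refine ⟨cGB m l, ?_, (pow_le_pow_right₀ hc1 (by omega)).trans haR⟩
  rw [natAbs_cast] at haR ⊢
  rw [← Kf_eq]
  exact split_anchor hm (fam_monic hPd hP) (fam_natDegree hPd hP) (fam_TD hPd) hρ (fam_lead hPd hP)
    hlP' hpn ((pow_le_pow_right₀ hc1 (by omega)).trans haR)

/-- exponent -/
def tc (r : ℕ) : ℕ := 2 + 2 * (3 * r * (r + 1) + 1 + r)

lemma cA_le {r : ℕ} {h : ℝ} (hh : 1 ≤ h) : cA r h ≤ (2 * h) ^ tc r := by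
  have h2 : 2 ≤ 2 * h := by linarith
  have h1 : (1 : ℝ) ≤ 2 * h := by linarith
  have e1 : tA r h ≤ (2 * h) ^ (3 * r * (r + 1) + 1 + r) := by
    unfold tA
    rw [pow_add, pow_add, pow_one, mul_assoc]
    apply mul_le_mul _ _ (by positivity) (by positivity)
    · calc (r : ℝ) ^ (3 * (r + 1)) ≤ (2 ^ r) ^ (3 * (r + 1)) := by
            apply pow_le_pow_left₀ (by positivity)
            exact_mod_cast (Nat.lt_two_pow_self (n := r)).le
        _ = 2 ^ (3 * r * (r + 1)) := by rw [← pow_mul]; congr 1; ring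
        _ ≤ _ := pow_le_pow_left₀ (by norm_num) h2 _
    · apply mul_le_mul (by linarith) _ (by positivity) (by positivity)
      exact pow_le_pow_left₀ (by norm_num) h2 _
  have e0 : 0 ≤ tA r h := by unfold tA; positivity
  unfold cA tc
  rw [pow_add, mul_comm 2 (3 * r * (r + 1) + 1 + r), pow_mul]
  apply mul_le_mul _ (pow_le_pow_left₀ e0 e1 2) (by positivity) (by positivity)
  nlinarith

lemma pure_thr {r K : ℕ} (hr : 1 ≤ r) {P g : ℤ[X]} (hm : P.Monic) (hPd : P.natDegree = r)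
    (hg : Irreducible g) (hgP : g ∣ P) (hg2 : ¬ g ^ 2 ∣ P) {l : ℕ}
    (hl : ∑ i ∈ P.support, (P.coeff i).natAbs ≤ l) {a : ℕ}
    (ha : (2 * l) ^ (tc r * (K + 2)) ≤ a) {μ : ℝ} (hμ0 : 0 < μ)
    (hμ : μ ^ r = ((P.eval (a : ℤ) : ℤ) : ℝ)) :
    ∃ B : ℝ, Anc r (r ^ 3 + r ^ 2 + 1) B (a : ℝ) ℚ⟮μ⟯ ∧ B ^ K ≤ (a : ℝ) := by
  have hl1 : 1 ≤ l := by
    refine le_trans ?_ hl
    have h1 : (P.coeff r).natAbs ≤ ∑ i ∈ P.support, (P.coeff i).natAbs := by
      apply Finset.single_le_sum (f := fun i => (P.coeff i).natAbs) (fun _ _ => Nat.zero_le _)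
      rw [mem_support_iff, ← hPd]
      exact leadingCoeff_ne_zero.2 hm.ne_zero
    have h2 : P.coeff r = 1 := by rw [← hPd]; exact hm
    rw [h2] at h1
    exact h1
  have hl1' : (1 : ℝ) ≤ l := by exact_mod_cast hl1
  have hP : pn zn P ≤ l := by
    have h3 : pn zn P = ((∑ i ∈ P.support, (P.coeff i).natAbs : ℕ) : ℝ) := by
      rw [pn_apply]
      push_cast
      apply Finset.sum_congr rfl
      intro i _
      rw [zn_apply, Nat.cast_natAbs, Int.cast_abs]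
    rw [h3]
    exact_mod_cast hl
  have haR : (cA r l) ^ (K + 2) ≤ (a : ℝ) := by
    have h1 : (((2 * l) ^ (tc r * (K + 2)) : ℕ) : ℝ) ≤ (a : ℝ) := by exact_mod_cast ha
    refine le_trans ?_ h1
    push_cast
    rw [pow_mul]
    apply pow_le_pow_left₀ (by unfold cA; positivity)
    exact cA_le hl1'
  have ha0 : 0 < a := by
    refine lt_of_lt_of_le ?_ ha
    positivity
  have hc1 : (1 : ℝ) ≤ cA r l := by
    have := (tA_facts (d := r) hr hl1').1
    unfold cA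
    nlinarith [(tA_facts (d := r) hr hl1').2]
  refine ⟨cA r l, ?_, (pow_le_pow_right₀ hc1 (by omega)).trans haR⟩
  have h5 := pure_anchor hr hm hPd hg hgP hg2 hl1' hP (a : ℤ) (by exact_mod_cast ha0) (by
    rw [Int.cast_natCast]
    exact (pow_le_pow_right₀ hc1 (by omega)).trans haR) μ hμ0 hμ
  have h6 : |((a : ℤ) : ℝ)| = (a : ℝ) := by rw [Int.cast_natCast, Nat.abs_cast]
  rwa [h6] at h5

end Pool.Agent.Y910.A
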