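import Pool.Agent.Y910.A.A17

/-!
Explicit weighted families.
-/

open Polynomial Finset NumberField IntermediateField

namespace Pool.Agent.Y910.A

open Pool.Agent.H322R2 Pool.Agent.Y910.S Pool.Agent.W257

lemma eval_homogenize_eq (g : ℤ[X]) (r : ℕ) (u v : ℤ) :
    MvPolynomial.eval ![u, v] (homogenize g r)
      = ∑ l ∈ range (r + 1), g.coeff l * u ^ l * v ^ (r - l) := by
  rw [homogenize, map_sum, Finset.Nat.sum_antidiagonal_eq_sum_range_succ_mk]
  apply Finset.sum_congr rfl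
  intro l _
  rw [MvPolynomial.eval_monomial, Finsupp.prod_fintype _ _ (by simp), Fin.prod_univ_two]
  simp
  ring

lemma sum_binom {r : ℕ} (m u v : ℤ) :
    ∑ l ∈ range (r + 1), (X ^ r - C m : ℤ[X]).coeff l * u ^ l * v ^ (r - l) = u ^ r - m * v ^ r := by
  rw [← eval_homogenize_eq, homogenize_sub, homogenize_X_pow le_rfl, homogenize_C, Nat.sub_self,
    pow_zero, mul_one]
  simp

lemma sum_split {r : ℕ} (b : Fin r → ℤ) (c u v : ℤ) :
    ∑ l ∈ range (r + 1), (∏ i, (X - C (b i)) + C c : ℤ[X]).coeff l * u ^ l * v ^ (r - l)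
      = ∏ i, (u - b i * v) + c * v ^ r := by
  rw [← eval_homogenize_eq]
  have h1 : homogenize (∏ i, (X - C (b i)) + C c : ℤ[X]) r
      = ∏ i, (MvPolynomial.X 0 - MvPolynomial.C (b i) * MvPolynomial.X 1)
      + MvPolynomial.C c * MvPolynomial.X 1 ^ r := by
    apply homogenize_eq_of_isHomogeneous
    · apply MvPolynomial.IsHomogeneous.add (isHom_split b)
      have := (MvPolynomial.isHomogeneous_C (Fin 2) c).mul
        ((MvPolynomial.isHomogeneous_X ℤ (1 : Fin 2)).pow r)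
      simpa using this
    · rw [map_add, map_prod]
      congr 1
      · apply Finset.prod_congr rfl
        intro i _
        simp
      · simp
  rw [h1]
  simp

/-- the real roots of an irreducible monic polynomial generate a field of its degree -/
lemma finrank_root {g : ℤ[X]} (hgm : g.Monic) (hirr : Irreducible (g.map (Int.castRingHom ℚ)))
    {η : ℝ} (hη : evf η g = 0) : Module.finrank ℚ ℚ⟮η⟯ = g.natDegree := by
  have hevf : evf η g = aeval η g := by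
    rw [aeval_def, evf, coe_eval₂RingHom]
    congr 1
  have h1 : aeval η (g.map (Int.castRingHom ℚ)) = 0 := by
    have h3 : aeval η (g.map (algebraMap ℤ ℚ)) = aeval η g := aeval_map_algebraMap ℚ η g
    rw [← hη, hevf]
    exact h3
  rw [finrank_adj (hgm.map _) hirr h1, hgm.natDegree_map]

lemma natAbs_le_of {x : ℤ} {A : ℕ} (h : |(x : ℝ)| ≤ (A : ℝ)) : x.natAbs ≤ A := by
  rw [← natAbs_cast] at h
  exact_mod_cast h

/-- Explicit bounds for `x^{pr} - (a^r + s) y^{qr} = P(x,y)`. -/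
theorem binom_fam (r p q : ℕ) (hr : 3 ≤ r) (hp : 1 ≤ p) (hq : 1 ≤ q) (hpq : Nat.Coprime p q) :
    ∃ C : ℕ, ∀ (a : ℕ) (s : ℤ) (P : MvPolynomial (Fin 2) ℤ), s ≠ 0 →
      (2 * (1 + s.natAbs)) ^ C ≤ a → (∀ n ∈ P.support, q * n 0 + p * n 1 < p * q * r) →
      ∀ x y : ℤ, x ^ (p * r) - ((a : ℤ) ^ r + s) * y ^ (q * r) = MvPolynomial.eval ![x, y] P →
        x.natAbs ≤ (a * (1 + len P)) ^ C ∧ y.natAbs ≤ (a * (1 + len P)) ^ C := by
  obtain ⟨K, hK1, hK⟩ := anc_eq r (r ^ 3 + r ^ 2 + 1) r p q hr hp hq hpq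
  obtain ⟨T, hT⟩ : ∃ T, T = tc r * (K + 2) + r + 4 := ⟨_, rfl⟩
  refine ⟨T * (K + 1), ?_⟩
  intro a s P hs ha hP x y hxy
  have hTC : T ≤ T * (K + 1) := Nat.le_mul_of_pos_right _ (by omega)
  have hTa : (2 * (1 + s.natAbs)) ^ T ≤ a := (Nat.pow_le_pow_right (by omega) hTC).trans ha
  have hr0 : 0 < r := by omega
  have hs1 : 1 ≤ s.natAbs := by omega
  -- sizes
  obtain ⟨σ, hσ⟩ : ∃ σ, σ = s.natAbs := ⟨_, rfl⟩
  rw [← hσ] at hs1 hTa
  have hlarge0 : r * 2 ^ r * (4 * (1 + σ)) ≤ a := by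
    refine le_trans ?_ hTa
    have e1 : r ≤ 2 ^ r := Nat.lt_two_pow_self.le
    calc r * 2 ^ r * (4 * (1 + σ)) ≤ 2 ^ r * 2 ^ r * (4 * (1 + σ)) := by gcongr
      _ = 4 ^ r * (2 * (2 * (1 + σ))) := by
          rw [← mul_pow]; ring
      _ ≤ (2 * (1 + σ)) ^ r * ((2 * (1 + σ)) * (2 * (1 + σ))) := by
          gcongr
          · omega
          · omega
      _ = (2 * (1 + σ)) ^ (r + 2) := by rw [pow_add, sq]
      _ ≤ _ := Nat.pow_le_pow_right (by omega) (by omega)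
  have hrr : 1 ≤ r * 2 ^ r := Nat.mul_pos hr0 (by positivity)
  have ha4 : 4 * (1 + σ) ≤ a := by
    refine le_trans ?_ hlarge0
    exact Nat.le_mul_of_pos_left _ (by omega)
  have hlarge : r * 2 ^ r * s.natAbs < a := by
    rw [← hσ]
    refine lt_of_lt_of_le ?_ hlarge0
    apply Nat.mul_lt_mul_of_pos_left _ (by omega)
    omega
  have ha1 : 1 ≤ a := by omega
  obtain ⟨m, hm⟩ : ∃ m : ℤ, m = (a : ℤ) ^ r + s := ⟨_, rfl⟩
  have hapow : (a : ℤ) ≤ (a : ℤ) ^ r := le_self_pow₀ (by exact_mod_cast ha1) (by omega)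
  have hsabs : |s| < a := by rw [Int.abs_eq_natAbs]; omega
  have hm0 : 0 < m := by
    have := (abs_lt.1 hsabs).1
    omega
  obtain ⟨μ, hμ0, hμ⟩ : ∃ μ : ℝ, 0 < μ ∧ μ ^ r = (m : ℝ) := by
    have hmR : (0 : ℝ) < m := by exact_mod_cast hm0
    exact ⟨(m : ℝ) ^ ((r : ℝ)⁻¹), Real.rpow_pos_of_pos hmR _,
      Real.rpow_inv_natCast_pow hmR.le (by omega)⟩
  obtain ⟨g0, hg0, hgP, hg2⟩ := simple_factor hr0 hs
  obtain ⟨Q, hQ⟩ : ∃ Q : ℤ[X], Q = X ^ r + C s := ⟨_, rfl⟩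
  rw [← hQ] at hgP hg2
  have hQm : Q.Monic := by rw [hQ]; exact monic_X_pow_add_C _ (by omega)
  have hQd : Q.natDegree = r := by rw [hQ]; exact natDegree_X_pow_add_C
  have hQa : Q.eval (a : ℤ) = m := by rw [hQ, hm]; simp
  have hQs : ∑ i ∈ Q.support, (Q.coeff i).natAbs ≤ 1 + σ := by
    have h1 : pn zn Q ≤ 1 + |(s : ℝ)| := by
      rw [hQ]
      refine (map_add_le_add _ _ _).trans ?_
      rw [pn_C, zn_apply]
      apply add_le_add_left
      refine (seminorm_pow_le _ pnz_one _ _).trans (pow_le_one₀ (apply_nonneg _ _) ?_)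
      rw [pn_X]
      exact (le_of_eq (zn_apply 1)).trans (by norm_num)
    rw [pn_apply] at h1
    have h2 : ((∑ i ∈ Q.support, (Q.coeff i).natAbs : ℕ) : ℝ) ≤ ((1 + σ : ℕ) : ℝ) := by
      push_cast
      rw [hσ, natAbs_cast]
      refine le_trans (Finset.sum_le_sum (fun i _ => ?_)) h1
      rw [zn_apply, natAbs_cast]
    exact_mod_cast h2
  obtain ⟨g, hg⟩ : ∃ g : ℤ[X], g = X ^ r - C m := ⟨_, rfl⟩
  have hgm : g.Monic := by rw [hg]; exact monic_X_pow_sub_C _ (by omega)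
  have hgd : g.natDegree = r := by rw [hg]; exact natDegree_X_pow_sub_C
  have hgirr0 : Irreducible g := by
    rw [hg, hm]
    exact pure_irr (by omega) hs hlarge hμ0 (by rw [hμ, hm])
  have hgirr : Irreducible (g.map (Int.castRingHom ℚ)) :=
    (hgm.irreducible_iff_irreducible_map_fraction_map (K := ℚ)).1 hgirr0
  obtain ⟨B, hanc, hBa⟩ := pure_thr (K := K) (by omega) hQm hQd hg0 hgP hg2 hQs (a := a)
    ((Nat.pow_le_pow_right (by omega) (by omega)).trans hTa) hμ0 (by rw [hQa, hμ])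
  have hroots : ∀ η : ℝ, evf η g = 0 → 3 ≤ Module.finrank ℚ ↥(ℚ⟮η⟯ ⊓ ℚ⟮μ⟯) := by
    intro η hη
    have h1 : ℚ⟮η⟯ ≤ ℚ⟮μ⟯ := by
      rw [adjoin_simple_le_iff]
      have h2 : η ^ r = μ ^ r := by
        rw [hg, map_sub, map_pow, evf_X, evf_C, sub_eq_zero] at hη
        rw [hη, hμ]
      have h3 : |η| = |μ| := by
        have h4 : |η| ^ r = |μ| ^ r := by rw [← abs_pow, ← abs_pow, h2]
        exact (pow_left_inj₀ (abs_nonneg _) (abs_nonneg _) (by omega)).1 h4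
      have hμm := mem_adjoin_simple_self ℚ μ
      rcases abs_eq_abs.1 h3 with h | h
      · rw [h]; exact hμm
      · rw [h]; exact neg_mem hμm
    rw [inf_eq_left.2 h1, finrank_root hgm hgirr hη, hgd]
    exact hr
  have hsum : ∑ l ∈ range (r + 1), g.coeff l * x ^ (p * l) * y ^ (q * (r - l))
      = MvPolynomial.eval ![x, y] P := by
    rw [← hxy, ← hm, pow_mul, pow_mul, ← sum_binom m (x ^ p) (y ^ q), hg]
    apply Finset.sum_congr rfl
    intro l _
    rw [← pow_mul, ← pow_mul]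
  have hres := hK hanc hBa g hgm hgd hgirr hroots P hP x y hsum
  -- the bound
  obtain ⟨L, hL⟩ : ∃ L, L = len P := ⟨_, rfl⟩
  rw [← hL] at hres ⊢
  have hpng : pn zn g ≤ 1 + |(m : ℝ)| := by
    rw [hg, sub_eq_add_neg]
    refine (map_add_le_add _ _ _).trans ?_
    rw [map_neg_eq_map, pn_C, zn_apply]
    apply add_le_add_left
    refine (seminorm_pow_le _ pnz_one _ _).trans (pow_le_one₀ (apply_nonneg _ _) ?_)
    rw [pn_X]
    exact (le_of_eq (zn_apply 1)).trans (by norm_num)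
  have hmN : m.natAbs ≤ a ^ r + σ := by
    rw [hm, hσ]
    refine (Int.natAbs_add_le _ _).trans ?_
    rw [Int.natAbs_pow, Int.natAbs_natCast]
  have hfin : a * (2 + ((1 + m.natAbs) + L)) ≤ (a * (1 + L)) ^ T := by
    have h6 : a ≤ a ^ r := Nat.le_self_pow (by omega) _
    have h7 : 2 + ((1 + m.natAbs) + L) ≤ (a * a ^ r) * (1 + L) := by
      have h8 : 3 + (a ^ r + σ) ≤ a * a ^ r := by
        have h9 : 4 * a ^ r ≤ a * a ^ r := Nat.mul_le_mul_right _ (by omega)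
        omega
      have h10 : L ≤ a * a ^ r * L := Nat.le_mul_of_pos_left _ (by positivity)
      rw [mul_add, mul_one]
      omega
    have ha1L : 1 ≤ a * (1 + L) := Nat.mul_pos (by omega) (by omega)
    calc a * (2 + ((1 + m.natAbs) + L)) ≤ a * ((a * a ^ r) * (1 + L)) := Nat.mul_le_mul_left _ h7
      _ = a ^ (r + 2) * (1 + L) := by rw [pow_add, sq]; ring
      _ ≤ a ^ (r + 2) * (1 + L) ^ (r + 2) :=
          Nat.mul_le_mul_left _ (Nat.le_self_pow (by omega) _)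
      _ = (a * (1 + L)) ^ (r + 2) := by rw [mul_pow]
      _ ≤ _ := Nat.pow_le_pow_right ha1L (by omega)
  have hbd : ((a : ℝ) * (2 + (pn zn g + L))) ^ K ≤ (((a * (1 + L)) ^ (T * (K + 1)) : ℕ) : ℝ) := by
    have h11 : (a : ℝ) * (2 + (pn zn g + L)) ≤ ((a * (2 + ((1 + m.natAbs) + L)) : ℕ) : ℝ) := by
      push_cast
      rw [natAbs_cast]
      apply mul_le_mul_of_nonneg_left _ (Nat.cast_nonneg _)
      linarith
    have h12 : (0 : ℝ) ≤ (a : ℝ) * (2 + (pn zn g + L)) := by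
      have : 0 ≤ pn zn g := apply_nonneg _ _
      positivity
    have h13 : (a * (2 + ((1 + m.natAbs) + L))) ^ K ≤ (a * (1 + L)) ^ (T * (K + 1)) := by
      calc (a * (2 + ((1 + m.natAbs) + L))) ^ K ≤ ((a * (1 + L)) ^ T) ^ K :=
            Nat.pow_le_pow_left hfin _
        _ = (a * (1 + L)) ^ (T * K) := by rw [← pow_mul]
        _ ≤ _ := Nat.pow_le_pow_right (Nat.mul_pos (by omega) (by omega))
            (Nat.mul_le_mul_left _ (by omega))
    calc ((a : ℝ) * (2 + (pn zn g + L))) ^ K ≤ (((a * (2 + ((1 + m.natAbs) + L)) : ℕ) : ℝ)) ^ K :=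
          pow_le_pow_left₀ h12 h11 _
      _ ≤ _ := by exact_mod_cast h13
  exact ⟨natAbs_le_of (hres.1.trans hbd), natAbs_le_of (hres.2.trans hbd)⟩

/-- Explicit bounds for `∏ (x^p - (ρᵢ a + sᵢ) y^q) + c y^{qr} = P(x,y)`. -/
theorem split_fam (r p q : ℕ) (hr : 3 ≤ r) (hp : 1 ≤ p) (hq : 1 ≤ q) (hpq : Nat.Coprime p q) :
    ∃ C : ℕ, ∀ (ρ s : Fin r → ℤ) (c a : ℤ) (P : MvPolynomial (Fin 2) ℤ), Function.Injective ρ →
      c ≠ 0 → (2 * (∏ i, (1 + (ρ i).natAbs + (s i).natAbs) + c.natAbs)) ^ C ≤ a.natAbs →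
      (∀ n ∈ P.support, q * n 0 + p * n 1 < p * q * r) →
      ∀ x y : ℤ, ∏ i, (x ^ p - (ρ i * a + s i) * y ^ q) + c * y ^ (q * r)
          = MvPolynomial.eval ![x, y] P →
        x.natAbs ≤ (a.natAbs * (1 + len P)) ^ C ∧ y.natAbs ≤ (a.natAbs * (1 + len P)) ^ C := by
  obtain ⟨K, hK1, hK⟩ := anc_eq r.factorial (10 * r.factorial + 2 * r ^ 2 + 1) r p q hr hp hq hpq
  obtain ⟨T, hT⟩ : ∃ T, T = 8 * (r + 1) ^ 2 * (K + 2) + r + 4 := ⟨_, rfl⟩
  refine ⟨T * (K + 1), ?_⟩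
  intro ρ s c a P hρ hc ha hP x y hxy
  have hTC : T ≤ T * (K + 1) := Nat.le_mul_of_pos_right _ (by omega)
  obtain ⟨Λ, hΛ⟩ : ∃ Λ, Λ = ∏ i, (1 + (ρ i).natAbs + (s i).natAbs) + c.natAbs := ⟨_, rfl⟩
  obtain ⟨Pr, hPr⟩ : ∃ Pr, Pr = ∏ i, (1 + (ρ i).natAbs + (s i).natAbs) := ⟨_, rfl⟩
  rw [← hΛ] at ha
  rw [← hPr] at hΛ
  have hc1 : 1 ≤ c.natAbs := by omega
  have hTa : (2 * Λ) ^ T ≤ a.natAbs := (Nat.pow_le_pow_right (by omega) hTC).trans ha
  have hfac1 : ∀ i, 1 ≤ 1 + (ρ i).natAbs + (s i).natAbs := fun i => by omega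
  have hle : ∀ i, 1 + (ρ i).natAbs + (s i).natAbs ≤ Pr := by
    intro i
    rw [hPr]
    exact Finset.single_le_prod' (f := fun i => 1 + (ρ i).natAbs + (s i).natAbs)
      (fun i _ => hfac1 i) (Finset.mem_univ i)
  have hPr1 : 1 ≤ Pr := (hfac1 ⟨0, by omega⟩).trans (hle _)
  have hbig : (2 * Λ) ^ 2 ≤ a.natAbs :=
    (Nat.pow_le_pow_right (by omega) (by omega)).trans hTa
  have hbig2 : 4 * Λ < a.natAbs := by nlinarith
  obtain ⟨b, hb⟩ : ∃ b : Fin r → ℤ, b = fun i => ρ i * a + s i := ⟨_, rfl⟩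
  have hbd : ∀ i j, i ≠ j → 2 * |c| < |b i - b j| := by
    intro i j hij
    have h1 : b i - b j = (ρ i - ρ j) * a + (s i - s j) := by rw [hb]; ring
    have h2 : 1 ≤ |ρ i - ρ j| := Int.one_le_abs (sub_ne_zero.2 (fun h => hij (hρ h)))
    have h3 : |a| ≤ |(ρ i - ρ j) * a| := by
      rw [abs_mul]
      exact le_mul_of_one_le_left (abs_nonneg _) h2
    have h4 : |(ρ i - ρ j) * a| ≤ |b i - b j| + |s i - s j| := by
      have : (ρ i - ρ j) * a = (b i - b j) - (s i - s j) := by rw [h1]; ring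
      rw [this]
      exact abs_sub _ _
    have h5 : |s i - s j| ≤ |s i| + |s j| := abs_sub _ _
    have h6 := hle i
    have h7 := hle j
    rw [Int.abs_eq_natAbs] at h3
    rw [Int.abs_eq_natAbs (s i), Int.abs_eq_natAbs (s j)] at h5
    rw [Int.abs_eq_natAbs c]
    omega
  obtain ⟨hgm, hgd, hgirr0⟩ := split_irr (by omega) b hc hbd
  have hsplit := sum_split b c (x ^ p) (y ^ q)
  obtain ⟨g, hg⟩ : ∃ g : ℤ[X], g = ∏ i, (X - C (b i)) + C c := ⟨_, rfl⟩
  rw [← hg] at hgm hgd hgirr0 hsplit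
  have hgirr : Irreducible (g.map (Int.castRingHom ℚ)) :=
    (hgm.irreducible_iff_irreducible_map_fraction_map (K := ℚ)).1 hgirr0
  have hlP : len (Pfam ρ s c) ≤ Λ := by rw [hΛ, hPr]; exact len_Pfam ρ s c
  obtain ⟨B, hanc, hBa⟩ := split_thr (K := K) (by omega) hρ (Pfam_deg ρ s c (by omega))
    (Pfam_comp ρ s c (by omega)) (a := a) hlP
    ((Nat.pow_le_pow_right (by omega) (by omega)).trans hTa)
  have hroots : ∀ η : ℝ, evf η g = 0 → 3 ≤ Module.finrank ℚ ↥(ℚ⟮η⟯ ⊓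
      IntermediateField.adjoin ℚ {β : ℝ | MvPolynomial.aeval ![β, (a : ℝ)] (Pfam ρ s c) = 0}) := by
    intro η hη
    have h0 : MvPolynomial.aeval ![η, (a : ℝ)] (Pfam ρ s c) = 0 := by
      rw [← hη, hg]
      unfold Pfam
      simp only [map_add, map_prod, map_sub, map_mul, MvPolynomial.aeval_X,
        Matrix.cons_val_zero, Matrix.cons_val_one, eq_intCast, map_intCast, evf_X]
      congr 1
      apply Finset.prod_congr rfl
      intro i _
      rw [hb]
      push_cast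
      ring
    have h1 : ℚ⟮η⟯ ≤ IntermediateField.adjoin ℚ
        {β : ℝ | MvPolynomial.aeval ![β, (a : ℝ)] (Pfam ρ s c) = 0} := by
      rw [adjoin_simple_le_iff]
      exact IntermediateField.subset_adjoin ℚ _ h0
    rw [inf_eq_left.2 h1, finrank_root hgm hgirr hη, hgd]
    exact hr
  have hsum : ∑ l ∈ range (r + 1), g.coeff l * x ^ (p * l) * y ^ (q * (r - l))
      = MvPolynomial.eval ![x, y] P := by
    rw [← hxy, pow_mul y q r]
    have e : ∏ i, (x ^ p - (ρ i * a + s i) * y ^ q) = ∏ i, (x ^ p - b i * y ^ q) := by rw [hb]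
    rw [e, ← hsplit]
    apply Finset.sum_congr rfl
    intro l _
    rw [← pow_mul, ← pow_mul]
  have hres := hK hanc hBa g hgm hgd hgirr hroots P hP x y hsum
  -- the bound
  obtain ⟨L, hL⟩ : ∃ L, L = len P := ⟨_, rfl⟩
  rw [← hL] at hres ⊢
  obtain ⟨A, hA⟩ : ∃ A, A = a.natAbs := ⟨_, rfl⟩
  rw [← hA] at hbig hbig2 hres ⊢
  have hA1 : 1 ≤ A := by omega
  have hpng : pn zn g ≤ ((∏ i, (1 + (b i).natAbs) + c.natAbs : ℕ) : ℝ) := by
    rw [hg]
    refine (map_add_le_add _ _ _).trans ?_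
    push_cast
    apply add_le_add
    · have h1 : ∀ t : Finset (Fin r), pn zn (∏ i ∈ t, (X - C (b i)) : ℤ[X])
          ≤ ∏ i ∈ t, (1 + ((b i).natAbs : ℝ)) := by
        intro t
        classical
        induction t using Finset.induction_on with
        | empty => simpa using pnz_one
        | insert i t hi ih =>
          rw [Finset.prod_insert hi, Finset.prod_insert hi]
          refine (map_mul_le_mul _ _ _).trans ?_
          apply mul_le_mul _ ih (apply_nonneg _ _) (by positivity)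
          rw [sub_eq_add_neg]
          refine (map_add_le_add _ _ _).trans ?_
          rw [map_neg_eq_map, pn_C, zn_apply, natAbs_cast, pn_X]
          apply add_le_add_left
          exact (le_of_eq (zn_apply 1)).trans (by norm_num)
      exact h1 univ
    · rw [pn_C, zn_apply, natAbs_cast]
  have h3 : ∏ i, (1 + (b i).natAbs) ≤ Pr * A ^ r := by
    have h4 : ∀ i, 1 + (b i).natAbs ≤ (1 + (ρ i).natAbs + (s i).natAbs) * A := by
      intro i
      have h5 : (b i).natAbs ≤ (ρ i).natAbs * A + (s i).natAbs := by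
        rw [hb, hA]
        refine (Int.natAbs_add_le _ _).trans ?_
        rw [Int.natAbs_mul]
      calc 1 + (b i).natAbs ≤ 1 * A + ((ρ i).natAbs * A + (s i).natAbs * A) := by
            have h11 : (s i).natAbs ≤ (s i).natAbs * A := Nat.le_mul_of_pos_right _ hA1
            omega
        _ = _ := by ring
    calc ∏ i, (1 + (b i).natAbs) ≤ ∏ i, ((1 + (ρ i).natAbs + (s i).natAbs) * A) :=
          Finset.prod_le_prod' (fun i _ => h4 i)
      _ = Pr * A ^ r := by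
          rw [Finset.prod_mul_distrib, hPr, Finset.prod_const, Finset.card_univ, Fintype.card_fin]
  have h6 : ∏ i, (1 + (b i).natAbs) + c.natAbs ≤ A ^ (r + 1) := by
    have h7 : c.natAbs ≤ c.natAbs * A ^ r := Nat.le_mul_of_pos_right _ (by positivity)
    calc ∏ i, (1 + (b i).natAbs) + c.natAbs ≤ Pr * A ^ r + c.natAbs * A ^ r :=
          Nat.add_le_add h3 h7
      _ = Λ * A ^ r := by rw [hΛ]; ring
      _ ≤ A * A ^ r := Nat.mul_le_mul_right _ (by omega)
      _ = _ := by ring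
  obtain ⟨D, hD⟩ : ∃ D, D = ∏ i, (1 + (b i).natAbs) + c.natAbs := ⟨_, rfl⟩
  rw [← hD] at h6 hpng
  have hfin : A * (2 + (D + L)) ≤ (A * (1 + L)) ^ T := by
    have h8 : 1 ≤ A ^ (r + 1) := Nat.one_le_pow _ _ hA1
    have h7 : 2 + (D + L) ≤ (A * A ^ (r + 1)) * (1 + L) := by
      have h9 : 4 * A ^ (r + 1) ≤ A * A ^ (r + 1) := Nat.mul_le_mul_right _ (by omega)
      have h10 : L ≤ A * A ^ (r + 1) * L := Nat.le_mul_of_pos_left _ (by positivity)
      rw [mul_add, mul_one]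
      omega
    have ha1L : 1 ≤ A * (1 + L) := Nat.mul_pos (by omega) (by omega)
    calc A * (2 + (D + L)) ≤ A * ((A * A ^ (r + 1)) * (1 + L)) := Nat.mul_le_mul_left _ h7
      _ = A ^ (r + 3) * (1 + L) := by ring
      _ ≤ A ^ (r + 3) * (1 + L) ^ (r + 3) :=
          Nat.mul_le_mul_left _ (Nat.le_self_pow (by omega) _)
      _ = (A * (1 + L)) ^ (r + 3) := by rw [mul_pow]
      _ ≤ _ := Nat.pow_le_pow_right ha1L (by omega)
  have hbd2 : ((A : ℝ) * (2 + (pn zn g + L))) ^ K ≤ (((A * (1 + L)) ^ (T * (K + 1)) : ℕ) : ℝ) := by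
    have h11 : (A : ℝ) * (2 + (pn zn g + L)) ≤ ((A * (2 + (D + L)) : ℕ) : ℝ) := by
      push_cast
      apply mul_le_mul_of_nonneg_left _ (Nat.cast_nonneg _)
      linarith
    have h12 : (0 : ℝ) ≤ (A : ℝ) * (2 + (pn zn g + L)) := by
      have : 0 ≤ pn zn g := apply_nonneg _ _
      positivity
    have h13 : (A * (2 + (D + L))) ^ K ≤ (A * (1 + L)) ^ (T * (K + 1)) := by
      calc (A * (2 + (D + L))) ^ K ≤ ((A * (1 + L)) ^ T) ^ K := Nat.pow_le_pow_left hfin _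
        _ = (A * (1 + L)) ^ (T * K) := by rw [← pow_mul]
        _ ≤ _ := Nat.pow_le_pow_right (Nat.mul_pos (by omega) (by omega))
            (Nat.mul_le_mul_left _ (by omega))
    calc ((A : ℝ) * (2 + (pn zn g + L))) ^ K ≤ (((A * (2 + (D + L)) : ℕ) : ℝ)) ^ K :=
          pow_le_pow_left₀ h12 h11 _
      _ ≤ _ := by exact_mod_cast h13
  exact ⟨natAbs_le_of (hres.1.trans hbd2), natAbs_le_of (hres.2.trans hbd2)⟩

end Pool.Agent.Y910.A
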