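import Pool.Agent.Y910.A.A1

/-!
Two-point method with anchors on weighted curves: analytic part.
-/

open Polynomial Finset

namespace Pool.Agent.Y910.A

open Pool.Agent.H322R2 Pool.Agent.Y910.S

section Main

variable {A : Type*} [CommRing A] {N : RingSeminorm A} {σ : A →+* ℝ}

/-- the auxiliary function on a branch -/
noncomputable def UstA {p q E : ℕ} {B W : ℝ} {F : ℤ[X][X]} {a b : ℤ} (P : AQ N σ p q E B W F a b)
    (m : ℕ) {k n : ℕ} (T : Fin k × Fin n → ℤ) : PowerSeries A :=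
  ∑ s, PowerSeries.C ((T s : ℤ) : A) * monoA P m s.2 s.1

lemma bd_UstA (h1 : N 1 ≤ 1) {p q E : ℕ} {B W : ℝ} {F : ℤ[X][X]} {a b : ℤ}
    (P : AQ N σ p q E B W F a b) (m : ℕ) {k n : ℕ} (hm : p * n + q * k ≤ m)
    (T : Fin k × Fin n → ℤ) (H : ℝ) (hH : 0 ≤ H) (hT : ∀ s, |(T s : ℝ)| ≤ H) :
    Bd N (1 / B) (UstA P m T) (((k * n : ℕ) : ℝ) * (H * W ^ k * B ^ m)) := by
  have hB := P.hB
  have hW := P.hW
  have hBp := P.B_pos
  have hWp := P.W_pos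
  have h2 : ∀ s ∈ (univ : Finset (Fin k × Fin n)),
      Bd N (1 / B) (PowerSeries.C ((T s : ℤ) : A) * monoA P m s.2 s.1) (H * W ^ k * B ^ m) := by
    intro s _
    refine ((Bd.C P.ρ_pos.le _).mul P.ρ_pos.le (bd_monoA h1 P m s.2 s.1)).mono ?_
    have e2 : (s.2 : ℕ) ≤ p * n := by
      have := s.2.2
      calc (s.2 : ℕ) ≤ 1 * n := by omega
        _ ≤ p * n := Nat.mul_le_mul_right _ P.hp
    have e3 : B ^ (s.2 : ℕ) ≤ B ^ m := pow_le_pow_right₀ (by linarith) (by omega)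
    have e4 : W ^ (s.1 : ℕ) ≤ W ^ k := pow_le_pow_right₀ hW s.1.2.le
    calc N ((T s : ℤ) : A) * (B ^ (s.2 : ℕ) * W ^ (s.1 : ℕ))
        ≤ H * (B ^ m * W ^ k) := by
          apply mul_le_mul ((N_int_le N h1 _).trans (hT s)) _ (by positivity) hH
          exact mul_le_mul e3 e4 (by positivity) (by positivity)
      _ = _ := by ring
  refine (Bd.sum univ P.ρ_pos.le _ _ h2).mono ?_
  simp [mul_assoc]

/-- values of the normalised monomials -/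
lemma sb_monoA (hσ : ∀ x, |σ x| ≤ N x) {p q E : ℕ} {B W : ℝ} {F : ℤ[X][X]} {a b : ℤ}
    (P : AQ N σ p q E B W F a b) (m i j : ℕ) (hm : p * i + q * j ≤ m) :
    P.S ^ m * sb P.θ (PowerSeries.map σ (monoA P m i j)) =
      (PowerSeries.C (a : ℝ) + PowerSeries.X) ^ i *
        (P.S ^ q * sb P.θ (PowerSeries.map σ P.ωV)) ^ j := by
  have hr := P.r_pos
  have hq := P.q_nonneg
  have hθ := P.hθ
  have hU := (P.hωU.of_le hq P.rad_le).map σ hσ hq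
  have hV := (P.hωV.of_le hq P.rad_le).map σ hσ hq
  have hX := (P.hωS.of_le hq P.rad_le).map σ hσ hq
  rw [monoA, map_mul, map_mul, map_pow, map_pow, map_pow,
    sb_mul hr hθ (hX.pow hq rn_one _) ((hU.pow hq rn_one _).mul hq (hV.pow hq rn_one _)),
    sb_mul hr hθ (hU.pow hq rn_one _) (hV.pow hq rn_one _),
    sb_pow hr hq hθ hX, sb_pow hr hq hθ hU, sb_pow hr hq hθ hV, P.hU]
  obtain ⟨e, he⟩ : ∃ e, m = p * i + q * j + e := ⟨m - (p * i + q * j), by omega⟩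
  have h3 : m - p * i - q * j = e := by omega
  rw [h3, he, mul_pow, mul_pow, ← pow_mul, ← pow_mul, pow_add, pow_add]
  have h4 : P.S ^ e * (sb P.θ (PowerSeries.map σ P.ωS)) ^ e = 1 := by
    rw [← mul_pow, P.hSθ, one_pow]
  calc P.S ^ (p * i) * P.S ^ (q * j) * P.S ^ e * ((sb P.θ (PowerSeries.map σ P.ωS)) ^ e *
        (sb P.θ (PowerSeries.map σ P.ωU) ^ i * sb P.θ (PowerSeries.map σ P.ωV) ^ j))
      = (P.S ^ e * (sb P.θ (PowerSeries.map σ P.ωS)) ^ e) * (P.S ^ (p * i) * P.S ^ (q * j) *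
        (sb P.θ (PowerSeries.map σ P.ωU) ^ i * sb P.θ (PowerSeries.map σ P.ωV) ^ j)) := by ring
    _ = _ := by rw [h4]; ring

lemma sb_UstA (h1 : N 1 ≤ 1) (hσ : ∀ x, |σ x| ≤ N x) {p q E : ℕ} {B W : ℝ} {F : ℤ[X][X]}
    {a b : ℤ} (P : AQ N σ p q E B W F a b) (m : ℕ) {k n : ℕ} (hm : p * n + q * k ≤ m)
    (T : Fin k × Fin n → ℤ) :
    ev (PowerSeries.C (a : ℝ) + PowerSeries.X)
      (P.S ^ q * sb P.θ (PowerSeries.map σ P.ωV)) (boxPoly T)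
      = P.S ^ m * sb P.θ (PowerSeries.map σ (UstA P m T)) := by
  have hr := P.r_pos
  have hq := P.q_nonneg
  have hθ := P.hθ
  have hbm : ∀ i j, Bd rn (B / P.Z) (PowerSeries.map σ (monoA P m i j)) (B ^ i * W ^ j) :=
    fun i j => ((bd_monoA h1 P m i j).of_le hq P.rad_le).map σ hσ hq
  have hsum : sb P.θ (PowerSeries.map σ (UstA P m T))
      = ∑ s, PowerSeries.C ((T s : ℤ) : ℝ) * sb P.θ (PowerSeries.map σ (monoA P m s.2 s.1)) := by
    rw [UstA, map_sum]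
    rw [sb_sum hr hq hθ univ _ (fun s => rn ((T s : ℤ) : ℝ) * (B ^ (s.2 : ℕ) * W ^ (s.1 : ℕ)))]
    · apply Finset.sum_congr rfl
      intro s _
      rw [map_mul, PowerSeries.map_C, map_intCast, sb_mul hr hθ (Bd.C hq _) (hbm _ _), sb_C]
    · intro s _
      rw [map_mul, PowerSeries.map_C, map_intCast]
      exact (Bd.C hq _).mul hq (hbm _ _)
  rw [hsum, ev_boxPoly, Finset.mul_sum]
  apply Finset.sum_congr rfl
  intro s _
  have h3 : p * (s.2 : ℕ) + q * (s.1 : ℕ) ≤ m := by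
    have e1 : q * (s.1 : ℕ) ≤ q * k := Nat.mul_le_mul_left _ s.1.2.le
    have e2 : p * (s.2 : ℕ) ≤ p * n := Nat.mul_le_mul_left _ s.2.2.le
    omega
  have h6 : ((T s : ℤ) : PowerSeries ℝ) = PowerSeries.C ((T s : ℤ) : ℝ) := by
    rw [map_intCast]
  rw [h6]
  have h7 := sb_monoA hσ P m s.2 s.1 h3
  calc PowerSeries.C ((T s : ℤ) : ℝ) * (PowerSeries.C (a : ℝ) + PowerSeries.X) ^ (s.2 : ℕ) *
        (P.S ^ q * sb P.θ (PowerSeries.map σ P.ωV)) ^ (s.1 : ℕ)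
      = PowerSeries.C ((T s : ℤ) : ℝ) * ((PowerSeries.C (a : ℝ) + PowerSeries.X) ^ (s.2 : ℕ) *
        (P.S ^ q * sb P.θ (PowerSeries.map σ P.ωV)) ^ (s.1 : ℕ)) := by ring
    _ = PowerSeries.C ((T s : ℤ) : ℝ) *
        (P.S ^ m * sb P.θ (PowerSeries.map σ (monoA P m s.2 s.1))) := by rw [h7]
    _ = _ := by ring

variable {p1 q1 p2 q2 E1 E2 : ℕ} {B1 W B2 : ℝ} {F1 F2 : ℤ[X][X]} {a1 b1 a2 b2 : ℤ}

theorem analytic_partA (h1 : N 1 ≤ 1) (hσ : ∀ x, |σ x| ≤ N x)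
    (P1 : AQ N σ p1 q1 E1 B1 W F1 a1 b1) (P2 : BQ N σ p2 q2 E2 B2 F2 a2 b2)
    {D1 n1 D2 n2 w t : ℕ} (hm1 : p1 * n1 + q1 * D1 ≤ 10 * w * t)
    (hm2 : p2 * n2 + q2 * D2 ≤ 10 * w)
    (T : Fin D2 × Fin n2 → Fin D1 × Fin n1 → ℤ)
    (hT : ∀ j < 21 * w, ∀ i < nq w t j, ∑ μ, ∑ s, (T μ s) •
        (PowerSeries.coeff j (mono P2 (10 * w) μ.2 μ.1) *
        PowerSeries.coeff i (monoA P1 (10 * w * t) s.2 s.1)) = 0)
    (H : ℝ) (hH : 0 ≤ H) (hTH : ∀ μ s, |(T μ s : ℝ)| ≤ H) (o : ℕ) :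
    |PowerSeries.coeff o (ev (PowerSeries.C (a1 : ℝ) + PowerSeries.X)
      (P1.S ^ q1 * sb P1.θ (PowerSeries.map σ P1.ωV))
      (∑ μ : Fin D2 × Fin n2, C (C (a2 ^ (μ.2 : ℕ) * b2 ^ (μ.1 : ℕ))) * boxPoly (T μ)))|
    ≤ (B2 * P2.Z) ^ (10 * w) * ((B1 * P1.Z) ^ (10 * w * t) *
      ((∑ j ∈ range (21 * w), (B2 / P2.Z) ^ j * ((B1 ^ 2 / P1.Z) ^ (nq w t j) *
        (((D2 * n2 : ℕ) : ℝ) * B2 ^ (31 * w) *
          (((D1 * n1 : ℕ) : ℝ) * (H * W ^ D1 * B1 ^ (10 * w * t))))))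
      + ((D2 * n2 : ℕ) : ℝ) * ((B2 ^ 2 / P2.Z) ^ (21 * w) * B2 ^ (10 * w)) *
        (((D1 * n1 : ℕ) : ℝ) * (H * W ^ D1 * B1 ^ (10 * w * t))))
      / P1.R ^ o) := by
  set m := 10 * w * t with hmdef
  have hB1 := P1.hB
  have hB2 := P2.hB
  have hB1p := P1.B_pos
  have hB2p := P2.B_pos
  have hWp := P1.W_pos
  have ha1 := P1.Z_pos
  have ha2 := P2.Z_pos
  set bU : ℝ := ((D1 * n1 : ℕ) : ℝ) * (H * W ^ D1 * B1 ^ m) with hbU
  have hbU0 : 0 ≤ bU := by positivity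
  set ρ' := B1 / P1.Z with hρ'
  set ρ'' := B2 / P2.Z with hρ''
  have hq1 := P1.q_nonneg
  have hq2 := P2.q_nonneg
  have hr1 := P1.r_pos
  have hr2 := P2.r_pos
  have hrad1 := P1.rad_le
  have hrad2 := P2.rad_le
  set x : PowerSeries ℝ := PowerSeries.C (a1 : ℝ) + PowerSeries.X with hx
  set yh := P1.S ^ q1 * sb P1.θ (PowerSeries.map σ P1.ωV) with hyh
  set τ := PowerSeries.constantCoeff P2.θ with hτ
  have hτle : |τ| ≤ ρ'' := by
    have := P2.hθ.coeff_le hr2.le 0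
    simpa [hτ] using this
  -- bounds for the functions
  have hU : ∀ μ, Bd N (1 / B1) (UstA P1 m (T μ)) bU :=
    fun μ => bd_UstA h1 P1 m hm1 (T μ) H hH (hTH μ)
  have hUσ : ∀ μ, Bd rn ρ' (PowerSeries.map σ (UstA P1 m (T μ))) bU :=
    fun μ => ((hU μ).of_le hq1 hrad1).map σ hσ hq1
  set ec : ℕ → Fin D2 × Fin n2 → A := fun j μ =>
    PowerSeries.coeff j (mono P2 (10 * w) μ.2 μ.1) with hec
  have hwt2 : ∀ μ : Fin D2 × Fin n2, (μ.2 : ℕ) + μ.1 ≤ 10 * w := by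
    intro μ
    have e1 : (μ.1 : ℕ) ≤ q2 * D2 := by
      have := μ.1.2
      calc (μ.1 : ℕ) ≤ 1 * D2 := by omega
        _ ≤ q2 * D2 := Nat.mul_le_mul_right _ P2.hq
    have e2 : (μ.2 : ℕ) ≤ p2 * n2 := by
      have := μ.2.2
      calc (μ.2 : ℕ) ≤ 1 * n2 := by omega
        _ ≤ p2 * n2 := Nat.mul_le_mul_right _ P2.hp
    omega
  have hwt2' : ∀ μ : Fin D2 × Fin n2, p2 * (μ.2 : ℕ) + q2 * μ.1 ≤ 10 * w := by
    intro μ
    have e1 : q2 * (μ.1 : ℕ) ≤ q2 * D2 := Nat.mul_le_mul_left _ μ.1.2.le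
    have e2 : p2 * (μ.2 : ℕ) ≤ p2 * n2 := Nat.mul_le_mul_left _ μ.2.2.le
    omega
  have hecle : ∀ j < 21 * w, ∀ μ, N (ec j μ) ≤ B2 ^ (31 * w) := by
    intro j hj μ
    apply coeff_mono_le h1
    have := hwt2 μ
    omega
  set Ψ : ℕ → PowerSeries A := fun j => ∑ μ, PowerSeries.C (ec j μ) * UstA P1 m (T μ) with hΨ
  have hratio1 : ρ' / (1 / B1) = B1 ^ 2 / P1.Z := by
    rw [hρ']; field_simp
  have hratio2 : ρ'' / (1 / B2) = B2 ^ 2 / P2.Z := by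
    rw [hρ'']; field_simp
  have hΨbd : ∀ j < 21 * w, Bd N (1 / B1) (Ψ j) (((D2 * n2 : ℕ) : ℝ) * B2 ^ (31 * w) * bU) := by
    intro j hj
    have h2 : ∀ μ ∈ (univ : Finset (Fin D2 × Fin n2)),
        Bd N (1 / B1) (PowerSeries.C (ec j μ) * UstA P1 m (T μ)) (B2 ^ (31 * w) * bU) := by
      intro μ _
      refine ((Bd.C P1.ρ_pos.le _).mul P1.ρ_pos.le (hU μ)).mono ?_
      exact mul_le_mul_of_nonneg_right (hecle j hj μ) hbU0
    refine (Bd.sum univ P1.ρ_pos.le _ _ h2).mono ?_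
    simp [mul_assoc]
  have hΨvan : ∀ j < 21 * w, ∀ i < nq w t j, PowerSeries.coeff i (Ψ j) = 0 := by
    intro j hj i hi
    rw [← hT j hj i hi, hΨ]
    simp only
    rw [map_sum]
    apply Finset.sum_congr rfl
    intro μ _
    rw [PowerSeries.coeff_C_mul, UstA, map_sum, Finset.mul_sum]
    apply Finset.sum_congr rfl
    intro s _
    rw [PowerSeries.coeff_C_mul, zsmul_eq_mul]
    ring
  have hΨσ : ∀ j < 21 * w, Bd rn ρ' (PowerSeries.map σ (Ψ j))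
      ((B1 ^ 2 / P1.Z) ^ (nq w t j) * (((D2 * n2 : ℕ) : ℝ) * B2 ^ (31 * w) * bU)) := by
    intro j hj
    refine (((hΨbd j hj).of_vanish P1.ρ_pos hq1 hrad1 _ (hΨvan j hj)).map σ hσ hq1).mono ?_
    rw [hratio1]
  -- remainders
  have hR : ∀ μ : Fin D2 × Fin n2, ∃ R : ℝ,
      PowerSeries.constantCoeff (sb P2.θ (PowerSeries.map σ (mono P2 (10 * w) μ.2 μ.1)))
      = ∑ j ∈ range (21 * w), σ (ec j μ) * τ ^ j + R ∧
      |R| ≤ (B2 ^ 2 / P2.Z) ^ (21 * w) * B2 ^ (10 * w) := by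
    intro μ
    obtain ⟨R, hR1, hR2⟩ := Y910.S.splitJ σ hσ P2.ρ_pos hq2 hrad2 hr2 P2.θ P2.hθ
      (mono P2 (10 * w) μ.2 μ.1) (bd_mono h1 P2 (10 * w) μ.2 μ.1) (21 * w)
    refine ⟨R, hR1, hR2.trans ?_⟩
    rw [hratio2]
    apply mul_le_mul_of_nonneg_left _ (by positivity)
    exact pow_le_pow_right₀ (by linarith) (hwt2 μ)
  choose R hR1 hR2 using hR
  set v : Fin D2 × Fin n2 → ℝ := fun μ =>
    PowerSeries.constantCoeff (sb P2.θ (PowerSeries.map σ (mono P2 (10 * w) μ.2 μ.1))) with hv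
  set Θ : PowerSeries ℝ := ∑ μ, PowerSeries.C (v μ) * PowerSeries.map σ (UstA P1 m (T μ)) with hΘ
  -- identity for the function
  have hident : ev x yh (∑ μ : Fin D2 × Fin n2,
      C (C (a2 ^ (μ.2 : ℕ) * b2 ^ (μ.1 : ℕ))) * boxPoly (T μ))
      = PowerSeries.C ((PowerSeries.constantCoeff P2.S) ^ (10 * w)) *
        (P1.S ^ m * sb P1.θ Θ) := by
    rw [hΘ, sb_sum hr1 hq1 P1.hθ univ _ (fun μ => rn (v μ) * bU)]
    · rw [map_sum, Finset.mul_sum, Finset.mul_sum]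
      apply Finset.sum_congr rfl
      intro μ _
      rw [map_mul, ev_C, evf_C, sb_UstA h1 hσ P1 m hm1 (T μ),
        sb_mul hr1 P1.hθ (Bd.C hq1 _) (hUσ μ), sb_C]
      have h3 : ((a2 ^ (μ.2 : ℕ) * b2 ^ (μ.1 : ℕ) : ℤ) : PowerSeries ℝ)
          = PowerSeries.C ((PowerSeries.constantCoeff P2.S) ^ (10 * w)) *
            PowerSeries.C (v μ) := by
        rw [← map_mul, ← mono_val hσ P2 (10 * w) μ.2 μ.1 (hwt2' μ), map_intCast]
      rw [h3]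
      ring
    · intro μ _
      exact (Bd.C hq1 _).mul hq1 (hUσ μ)
  -- decomposition of Θ
  have hΘ2 : Θ = ∑ j ∈ range (21 * w), PowerSeries.C (τ ^ j) * PowerSeries.map σ (Ψ j)
      + ∑ μ, PowerSeries.C (R μ) * PowerSeries.map σ (UstA P1 m (T μ)) := by
    rw [hΘ]
    have h3 : ∀ μ ∈ (univ : Finset (Fin D2 × Fin n2)),
        PowerSeries.C (v μ) * PowerSeries.map σ (UstA P1 m (T μ))
        = ∑ j ∈ range (21 * w), PowerSeries.C (σ (ec j μ) * τ ^ j) *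
            PowerSeries.map σ (UstA P1 m (T μ))
          + PowerSeries.C (R μ) * PowerSeries.map σ (UstA P1 m (T μ)) := by
      intro μ _
      rw [hv]
      simp only
      rw [hR1 μ, map_add, add_mul, map_sum, Finset.sum_mul]
    rw [Finset.sum_congr rfl h3, Finset.sum_add_distrib]
    congr 1
    rw [Finset.sum_comm]
    apply Finset.sum_congr rfl
    intro j _
    rw [hΨ]
    simp only
    rw [map_sum, Finset.mul_sum]
    apply Finset.sum_congr rfl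
    intro μ _
    simp only [map_mul, PowerSeries.map_C]
    ring
  -- bound of Θ
  set Q : ℝ := (∑ j ∈ range (21 * w), ρ'' ^ j * ((B1 ^ 2 / P1.Z) ^ (nq w t j) *
        (((D2 * n2 : ℕ) : ℝ) * B2 ^ (31 * w) * bU)))
      + ((D2 * n2 : ℕ) : ℝ) * ((B2 ^ 2 / P2.Z) ^ (21 * w) * B2 ^ (10 * w)) * bU with hQ
  have hΘbd : Bd rn ρ' Θ Q := by
    rw [hΘ2, hQ]
    apply Bd.add hq1
    · apply Bd.sum _ hq1
      intro j hj
      rw [Finset.mem_range] at hj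
      refine ((Bd.C hq1 _).mul hq1 (hΨσ j hj)).mono ?_
      apply mul_le_mul_of_nonneg_right _ (by positivity)
      rw [rn_apply, abs_pow]
      exact pow_le_pow_left₀ (abs_nonneg _) hτle j
    · have h3 : ∀ μ ∈ (univ : Finset (Fin D2 × Fin n2)),
          Bd rn ρ' (PowerSeries.C (R μ) * PowerSeries.map σ (UstA P1 m (T μ)))
            (((B2 ^ 2 / P2.Z) ^ (21 * w) * B2 ^ (10 * w)) * bU) := by
        intro μ _
        refine ((Bd.C hq1 _).mul hq1 (hUσ μ)).mono ?_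
        exact mul_le_mul_of_nonneg_right (hR2 μ) hbU0
      refine (Bd.sum univ hq1 _ _ h3).mono ?_
      simp [mul_assoc]
  have hQ0 : 0 ≤ Q := hΘbd.nonneg
  rw [hident, PowerSeries.coeff_C_mul, abs_mul]
  have h4 : |(PowerSeries.constantCoeff P2.S) ^ (10 * w)| ≤ (B2 * P2.Z) ^ (10 * w) := by
    rw [abs_pow]
    apply pow_le_pow_left₀ (abs_nonneg _)
    have := P2.hS.coeff_le hr2.le 0
    simpa using this
  apply mul_le_mul h4 _ (abs_nonneg _) (by positivity)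
  exact coeff_mul_bound hr1 (P1.hS.pow hr1.le rn_one m) hQ0
    (fun i => sb_coeff_le hr1 P1.hθ hΘbd i) o

end Main

end Pool.Agent.Y910.A
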