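import Pool.Agent.Y910.A.A2

/-!
Two-point method with anchors on weighted curves: combination.
-/

open Polynomial Finset

namespace Pool.Agent.Y910.A

open Pool.Agent.H322R2 Pool.Agent.Y910.S

section Main

variable {A : Type*} [CommRing A] {N : RingSeminorm A} {σ : A →+* ℝ}
  {r1 r2 p1 q1 p2 q2 E : ℕ} {B1 W B2 : ℝ} {F1 F2 : ℤ[X][X]} {a1 b1 a2 b2 : ℤ}

theorem core_ineqA (h1 : N 1 ≤ 1) (hσ : ∀ x, |σ x| ≤ N x)
    {ι : Type*} [Fintype ι] (bas : ι → A →+ ℤ)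
    (hb : ∀ x, (∀ i, bas i x = 0) → x = 0)
    (C0 : ℝ) (hC0 : 1 ≤ C0) (hcoord : ∀ x i, |(bas i x : ℝ)| ≤ C0 * N x)
    (P1 : AQ N σ p1 q1 E B1 W F1 a1 b1) {E2 : ℕ} (P2 : BQ N σ p2 q2 E2 B2 F2 a2 b2)
    (hr1 : 1 ≤ r1) (hr2 : 3 ≤ r2) (hm1 : F1.Monic) (hFd1 : F1.natDegree = r1 * p1)
    (hF1 : Prime F1) (hFx1 : ∀ j, (F1.coeff j).natDegree ≤ E)
    (hm2 : F2.Monic) (hFd2 : F2.natDegree = r2 * p2) (hF2 : Prime F2)
    (hkι : 3 * Fintype.card ι ≤ r1 * r2) (hk0 : 0 < Fintype.card ι)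
    (w : ℕ) (hw : w = p2 * q2 * r2) (t' : ℕ) (ht : q1 * r1 ≤ t')
    (m2 n1 D1 : ℕ) (hm2d : m2 = (r2 * p2) * (9 * q2 * r2)) (hn1d : n1 = 10 * w * t' - q1 * r1)
    (hD1d : D1 = r1 * p1)
    (H : ℝ) (hH : H = Hq m2 (D1 * n1) w (p1 * t') (C0 * W ^ D1) B1 B2)
    (hY1 : |(a1 : ℝ)| ^ t' ≤ P2.Z) (hY2 : P2.Z ≤ |(a1 : ℝ)| ^ (t' + 1))
    (hsmall : (r2 * p2).factorial * ((m2 : ℝ) * H * (1 + B2) ^ (r2 * p2)) ^ (r2 * p2)
      < |(a2 : ℝ)|) :
    ∃ o : ℕ,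
      |(a1 : ℝ)| ^ o ≤ |(a1 : ℝ)| ^ (m2 ^ D1) * (((m2 ^ D1).factorial : ℕ) *
          (((D1 * (n1 + E * D1) : ℕ) : ℝ) ^ (m2 ^ D1) *
            (D1.factorial * ((((D1 * n1 : ℕ) : ℝ) * H) * (1 + W) ^ D1) ^ D1)) ^ (m2 ^ D1)) ∧
      |(a1 : ℝ)| ^ (w * t') ≤ |(a1 : ℝ)| ^ (2 * E * o) * (|(a1 : ℝ)| ^ (10 * w) *
        ((21 * w + 1) * m2 * B2 ^ (62 * w) * B1 ^ (52 * w * (p1 * t')) *
          (((D1 * n1 : ℕ) : ℝ) * (H * W ^ D1 * B1 ^ (10 * w * (p1 * t')))))) := by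
  have hB1 := P1.hB
  have hW := P1.hW
  have hB2 := P2.hB
  have hp1 := P1.hp
  have hq1 := P1.hq
  have hp2 := P2.hp
  have hq2 := P2.hq
  have hwr : r2 ≤ w := by
    rw [hw]
    calc r2 = 1 * 1 * r2 := by ring
      _ ≤ p2 * q2 * r2 := by gcongr
  have hqr : 1 ≤ q1 * r1 := Nat.mul_pos hq1 hr1
  have ht1 : 1 ≤ t' := by omega
  have hwt0 : t' ≤ w * t' := Nat.le_mul_of_pos_left _ (by omega)
  have hwt : 1 ≤ w * t' := by omega
  have h10 : 10 * w * t' = 10 * (w * t') := by ring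
  have hn1 : n1 + q1 * r1 = 10 * w * t' := by omega
  have hn1pos : 0 < n1 := by omega
  have hD1pos : 0 < D1 := by rw [hD1d]; exact Nat.mul_pos (by omega) hp1
  have hD2pos : 0 < r2 * p2 := Nat.mul_pos (by omega) hp2
  have hn2pos : 0 < 9 * q2 * r2 := by
    have : 0 < q2 * r2 := Nat.mul_pos hq2 (by omega)
    have h : 9 * q2 * r2 = 9 * (q2 * r2) := by ring
    omega
  have hm2pos : 0 < m2 := by rw [hm2d]; exact Nat.mul_pos hD2pos hn2pos
  set t := p1 * t' with htdef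
  have hw1 : p1 * n1 + q1 * D1 ≤ 10 * w * t := by
    have : p1 * n1 + q1 * D1 = 10 * w * t := by
      calc p1 * n1 + q1 * D1 = p1 * (n1 + q1 * r1) := by rw [hD1d]; ring
        _ = 10 * w * t := by rw [hn1, htdef]; ring
    exact this.le
  have hw2 : p2 * (9 * q2 * r2) + q2 * (r2 * p2) ≤ 10 * w := by
    have : p2 * (9 * q2 * r2) + q2 * (r2 * p2) = 10 * w := by rw [hw]; ring
    exact this.le
  obtain ⟨T, hT0, hT, hTH⟩ := exists_auxA h1 bas hb C0 hC0 hcoord P1 P2 hr1 hr2 hkι hk0 w hw t' ht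
  subst hn1d
  subst hD1d
  rw [← htdef, ← hm2d, ← hH] at hTH
  rw [← htdef] at hT
  have hC0W : 1 ≤ C0 * W ^ (r1 * p1) := one_le_mul_of_one_le_of_one_le hC0 (one_le_pow₀ hW)
  have hHh1 : 1 ≤ H := by
    rw [hH]
    exact one_le_Hq _ _ w t _ B1 B2 hm2pos (Nat.mul_pos hD1pos hn1pos) hC0W (by linarith)
      (by linarith)
  -- nonvanishing of V
  have hV : ∑ μ : Fin (r2 * p2) × Fin (9 * q2 * r2),
      C (C (a2 ^ (μ.2 : ℕ) * b2 ^ (μ.1 : ℕ))) * boxPoly (T μ) ≠ 0 := by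
    intro h0
    obtain ⟨μ0, hμ0⟩ : ∃ μ, T μ ≠ 0 := by
      by_contra hcon
      push Not at hcon
      exact hT0 (funext hcon)
    obtain ⟨s0, hs0⟩ : ∃ s, T μ0 s ≠ 0 := by
      by_contra hcon
      push Not at hcon
      exact hμ0 (funext hcon)
    have hG : ev a2 b2 (boxPoly (fun μ => T μ s0)) = 0 := by
      rw [ev_boxPoly]
      have h2 := congrArg (fun p : ℤ[X][X] => (p.coeff (s0.1 : ℕ)).coeff (s0.2 : ℕ)) h0
      simp only [finsetSum_coeff, coeff_zero] at h2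
      rw [← h2]
      apply Finset.sum_congr rfl
      intro μ _
      rw [coeff_C_mul, coeff_C_mul, coeff_boxPoly]
      simp only [Int.cast_id]
      ring
    have hne0 : (fun μ => T μ s0) ≠ 0 := by
      intro h
      exact hs0 (congrFun h μ0)
    have h3 := Y910.S.small_box F2 (r2 * p2) (9 * q2 * r2) hD2pos hm2 hFd2 hF2 a2 b2 P2.a_ne P2.hev
      (fun μ => T μ s0) hne0 hG H (fun μ => hTH μ s0)
    rw [← hm2d] at h3
    have h4 : ((r2 * p2).factorial : ℝ) *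
        ((m2 : ℝ) * H * (1 + pn (pn zn) F2) ^ (r2 * p2)) ^ (r2 * p2)
        ≤ (r2 * p2).factorial * ((m2 : ℝ) * H * (1 + B2) ^ (r2 * p2)) ^ (r2 * p2) := by
      have h5 := P2.hFn
      have h6 : 0 ≤ pn (pn zn) F2 := apply_nonneg _ _
      gcongr
    linarith
  have hbU : 1 ≤ (((r1 * p1 * (10 * w * t' - q1 * r1) : ℕ) : ℝ) * H) := by
    have h2 : (1 : ℝ) ≤ ((r1 * p1 * (10 * w * t' - q1 * r1) : ℕ) : ℝ) := by
      have : 0 < r1 * p1 * (10 * w * t' - q1 * r1) := Nat.mul_pos hD1pos hn1pos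
      exact_mod_cast this
    nlinarith
  obtain ⟨Y, hXY, hFY, o, ho, hineq⟩ := arith_part F1 (r1 * p1) E (10 * w * t' - q1 * r1) hD1pos hm1
    hFd1 hF1 hFx1 a1 b1 P1.a_ne P1.hev P1.hD hn1pos T (fun μ => a2 ^ (μ.2 : ℕ) * b2 ^ (μ.1 : ℕ))
    (((r1 * p1 * (10 * w * t' - q1 * r1) : ℕ) : ℝ) * H) hbU
    (fun μ => by
      have := pn_boxPoly_le (T μ) H (hTH μ)
      push_cast at this ⊢
      exact this) hV
  have hcardM : Fintype.card (Fin (r2 * p2) × Fin (9 * q2 * r2)) = m2 := by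
    rw [Fintype.card_prod, Fintype.card_fin, Fintype.card_fin, hm2d]
  rw [hcardM] at hineq
  refine ⟨o, ?_, ?_⟩
  · refine hineq.trans ?_
    have h5 := P1.hFn
    have h6 : 0 ≤ pn (pn zn) F1 := apply_nonneg _ _
    gcongr
  · have hlink := link_coeff F1 (∑ μ : Fin (r2 * p2) × Fin (9 * q2 * r2),
      C (C (a2 ^ (μ.2 : ℕ) * b2 ^ (μ.1 : ℕ))) * boxPoly (T μ)) a1 b1 _ rfl
      P1.hD Y hXY hFY _ P1.hV P1.hF o
    have hana := analytic_partA h1 hσ P1 P2 hw1 hw2 T hT H (by linarith) hTH o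
    have hone : (1 : ℝ) ≤ |((PowerSeries.coeff o
        (ev (PowerSeries.C a1 + PowerSeries.C ((ev a1 b1 (derivative F1)) ^ 2) * PowerSeries.X)
        (PowerSeries.C b1 + PowerSeries.C (ev a1 b1 (derivative F1)) * Y)
        (∑ μ : Fin (r2 * p2) × Fin (9 * q2 * r2),
          C (C (a2 ^ (μ.2 : ℕ) * b2 ^ (μ.1 : ℕ))) * boxPoly (T μ))) : ℤ) : ℝ)| := by
      have := Int.one_le_abs ho
      exact_mod_cast this
    rw [hlink, abs_mul] at hone
    have hD2 : |(((ev a1 b1 (derivative F1) : ℤ) : ℝ) ^ 2) ^ o| ≤ |(a1 : ℝ)| ^ (2 * E * o) := by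
      rw [← pow_mul, abs_pow]
      calc |((ev a1 b1 (derivative F1) : ℤ) : ℝ)| ^ (2 * o) ≤ (|(a1 : ℝ)| ^ E) ^ (2 * o) :=
            pow_le_pow_left₀ (abs_nonneg _) P1.hDle _
        _ = _ := by rw [← pow_mul]; congr 1; ring
    have hX := P1.Z_ge
    have hA0 := P1.a_ge
    have hbU' : (0 : ℝ) ≤ (((r1 * p1 * (10 * w * t' - q1 * r1) : ℕ) : ℝ) *
        (H * W ^ (r1 * p1) * B1 ^ (10 * w * t))) := by
      have : 0 ≤ B1 := by linarith
      have : 0 ≤ H := by linarith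
      have : 0 ≤ W := by linarith
      positivity
    have hZ := P1.hZ
    have hm2r : (1 : ℝ) ≤ ((r2 * p2 * (9 * q2 * r2) : ℕ) : ℝ) := by
      rw [← hm2d]; exact_mod_cast hm2pos
    have hY1' : P1.Z ^ t ≤ P2.Z := by
      rw [htdef, pow_mul, hZ]; exact hY1
    have hY2' : P2.Z ≤ P1.Z ^ (t + p1) := by
      have e : t + p1 = p1 * (t' + 1) := by rw [htdef]; ring
      rw [e, pow_mul, hZ]; exact hY2
    have hfb := Y910.S.final_bound P1.Z P2.Z B1 B2 _ _ P1.R hX P1.hR hB1 hB2 hbU' hm2r w t p1 o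
      hY1' hY2'
    set G := |PowerSeries.coeff o (ev (PowerSeries.C (a1 : ℝ) + PowerSeries.X)
      (P1.S ^ q1 * sb P1.θ (PowerSeries.map σ P1.ωV))
      (∑ μ : Fin (r2 * p2) × Fin (9 * q2 * r2),
        C (C (a2 ^ (μ.2 : ℕ) * b2 ^ (μ.1 : ℕ))) * boxPoly (T μ)))| with hG
    have h7 : (1 : ℝ) ≤ |(a1 : ℝ)| ^ (2 * E * o) * G :=
      hone.trans (mul_le_mul_of_nonneg_right hD2 (abs_nonneg _))
    have hX0 : 0 < |(a1 : ℝ)| := by linarith
    have hZ0 := P1.Z_pos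
    have e5 : |(a1 : ℝ)| ^ (w * t') = P1.Z ^ (w * t) := by
      rw [← hZ, ← pow_mul]; congr 1; rw [htdef]; ring
    have e6 : |(a1 : ℝ)| ^ (10 * w) = P1.Z ^ (10 * w * p1) := by
      rw [← hZ, ← pow_mul]; congr 1; ring
    have hm2c : ((r2 * p2 * (9 * q2 * r2) : ℕ) : ℝ) = (m2 : ℝ) := by rw [hm2d]
    rw [hm2c] at hfb hana
    rw [e5, e6]
    calc P1.Z ^ (w * t) = 1 * P1.Z ^ (w * t) := by ring
      _ ≤ (|(a1 : ℝ)| ^ (2 * E * o) * G) * P1.Z ^ (w * t) := by gcongr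
      _ = |(a1 : ℝ)| ^ (2 * E * o) * (G * P1.Z ^ (w * t)) := by ring
      _ ≤ _ := by
        apply mul_le_mul_of_nonneg_left _ (by positivity)
        exact (mul_le_mul_of_nonneg_right hana (by positivity)).trans hfb

end Main

section logs

variable {m D n1 w p t' E D2 : ℕ} {C0 W B1 B2 H : ℝ} (hC0 : 1 ≤ C0) (hW : 1 ≤ W) (hB1 : 2 ≤ B1)
  (hB2 : 2 ≤ B2)
  (ht : 1 ≤ t') (hm : 0 < m) (hD : 0 < D) (hn : 0 < n1) (hn1 : n1 ≤ 10 * w * t')
  (hp : 1 ≤ p) (hH : H = Hq m (D * n1) w (p * t') (C0 * W ^ D) B1 B2)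

/-- constants -/
noncomputable def c3A (m D w p E R : ℝ) : ℝ :=
  2 * R ^ 2 + R * (R * (2 * D * (10 * w + E * D)) + (2 * D ^ 2 + D * (cU m D w p + 3 * D)))
noncomputable def c4A (m D w p : ℝ) : ℝ :=
  2 * (21 * w + 1) * m + 62 * w + 52 * w * p + cU m D w p + 10 * w * p + 1

include hC0 hW hB1 hB2 ht hD

lemma logW_le : D * Real.log W ≤ SS t' (C0 * W ^ D) B1 B2 ∧
    Real.log (1 + W) ≤ 3 * SS t' (C0 * W ^ D) B1 B2 ∧ 1 ≤ C0 * W ^ D := by
  have hC0W : 1 ≤ C0 * W ^ D := one_le_mul_of_one_le_of_one_le hC0 (one_le_pow₀ hW)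
  obtain ⟨f1, f2, f3, f4, f5, f6, f7⟩ := SS_facts hC0W hB1 hB2 ht
  have hlW := Real.log_nonneg hW
  have hlC := Real.log_nonneg hC0
  have e1 : Real.log (C0 * W ^ D) = Real.log C0 + D * Real.log W := by
    rw [Real.log_mul (by positivity) (by positivity), Real.log_pow]
  have hDr : (1 : ℝ) ≤ D := by exact_mod_cast hD
  have e2 : D * Real.log W ≤ SS t' (C0 * W ^ D) B1 B2 := by
    have : Real.log (C0 * W ^ D) ≤ SS t' (C0 * W ^ D) B1 B2 := by
      unfold SS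
      have h1 : 0 ≤ Real.log B1 := Real.log_nonneg (by linarith)
      have h2 : 0 ≤ Real.log B2 := Real.log_nonneg (by linarith)
      have h3 : 0 ≤ (t' : ℝ) * Real.log B1 := by positivity
      linarith
    linarith
  refine ⟨e2, ?_, hC0W⟩
  have e3 : Real.log (1 + W) ≤ 1 + Real.log W := by
    have h1 : 1 + W ≤ 2 * W := by linarith
    calc Real.log (1 + W) ≤ Real.log (2 * W) := Real.log_le_log (by linarith) h1
      _ = Real.log 2 + Real.log W := Real.log_mul (by norm_num) (by positivity)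
      _ ≤ 1 + Real.log W := by
        have := Real.log_two_lt_d9
        linarith
  have e4 : Real.log W ≤ D * Real.log W := le_mul_of_one_le_left hlW hDr
  linarith

include hm hn hn1 hp hH

lemma ineq1_logA {X : ℝ} (hX : 0 < X) (o Rn : ℕ)
    (h : X ^ o ≤ X ^ Rn * ((Rn.factorial : ℕ) *
          (((D * (n1 + E * D) : ℕ) : ℝ) ^ Rn *
            (D.factorial * ((((D * n1 : ℕ) : ℝ) * H) * (1 + W) ^ D) ^ D)) ^ Rn)) :
    (o : ℝ) * Real.log X ≤ Rn * Real.log X + c3A m D w p E Rn * SS t' (C0 * W ^ D) B1 B2 := by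
  obtain ⟨g1, g2, hC0W⟩ := logW_le hC0 hW hB1 hB2 ht hD
  obtain ⟨f1, f2, f3, f4, f5, f6, f7⟩ := SS_facts hC0W hB1 hB2 ht
  have hH1 := H_pos hC0W hB1 hB2 ht hm hD hn hn1 hp hH
  have hU := logU_le hC0W hB1 hB2 ht hm hD hn hn1 hp hH
  have hB10 : 0 < B1 := by linarith
  have hn0 : (0 : ℝ) < ((D * n1 : ℕ) : ℝ) := by
    have : 0 < D * n1 := Nat.mul_pos hD hn
    exact_mod_cast this
  have hUpos : (0 : ℝ) < ((D * n1 : ℕ) : ℝ) * H := by positivity
  have hEpos : (0 : ℝ) < ((D * (n1 + E * D) : ℕ) : ℝ) := by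
    have : 0 < D * (n1 + E * D) := Nat.mul_pos hD (by omega)
    exact_mod_cast this
  obtain ⟨R, hR⟩ : ∃ R : ℝ, R = (Rn : ℝ) := ⟨_, rfl⟩
  have hR0 : 0 ≤ R := by rw [hR]; positivity
  obtain ⟨S, hS⟩ : ∃ S : ℝ, S = SS t' (C0 * W ^ D) B1 B2 := ⟨_, rfl⟩
  rw [← hS] at f2 f3 f4 f5 f6 f7 hU g1 g2 ⊢
  have hlogE : Real.log ((D * (n1 + E * D) : ℕ) : ℝ) ≤ 2 * D * (10 * w + E * D) * S := by
    refine (log_le_of _ hEpos).trans ?_
    have e1 : ((D * (n1 + E * D) : ℕ) : ℝ) ≤ ((D * (10 * w * t' + E * D * t') : ℕ) : ℝ) := by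
      have : D * (n1 + E * D) ≤ D * (10 * w * t' + E * D * t') := by
        apply Nat.mul_le_mul_left
        have h1 : E * D * 1 ≤ E * D * t' := Nat.mul_le_mul_left _ ht
        omega
      exact_mod_cast this
    refine e1.trans ?_
    push_cast
    have e2 : ((D : ℝ) * (10 * w + E * D)) * t' ≤ (D * (10 * w + E * D)) * (2 * S) :=
      mul_le_mul_of_nonneg_left f7 (by positivity)
    calc (D : ℝ) * (10 * w * t' + E * D * t') = (D * (10 * w + E * D)) * t' := by ring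
      _ ≤ _ := e2
      _ = _ := by ring
  have hW0 : 0 < W := by linarith
  have h' := Real.log_le_log (by positivity) h
  rw [Real.log_pow, Real.log_mul (by positivity) (by positivity), Real.log_pow,
    Real.log_mul (by positivity) (by positivity), Real.log_pow,
    Real.log_mul (by positivity) (by positivity), Real.log_pow,
    Real.log_mul (by positivity) (by positivity), Real.log_pow,
    Real.log_mul hUpos.ne' (by positivity), Real.log_pow] at h'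
  have e1 := log_fact_le Rn
  have e2 := log_fact_le D
  rw [← hR] at h' e1 ⊢
  have hD0 : (0 : ℝ) ≤ D := by positivity
  have e3 : (D : ℝ) * (Real.log (((D * n1 : ℕ) : ℝ) * H) + D * Real.log (1 + W))
      ≤ D * ((cU m D w p + 3 * D) * S) := by
    apply mul_le_mul_of_nonneg_left _ hD0
    have a1 : (D : ℝ) * Real.log (1 + W) ≤ D * (3 * S) :=
      mul_le_mul_of_nonneg_left g2 (by positivity)
    linarith
  have e4 : R * Real.log ((D * (n1 + E * D) : ℕ) : ℝ)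
      ≤ R * (2 * D * (10 * w + E * D) * S) := mul_le_mul_of_nonneg_left hlogE hR0
  have e5 : (D : ℝ) ^ 2 * 1 ≤ D ^ 2 * (2 * S) := mul_le_mul_of_nonneg_left f6 (by positivity)
  have e6 : R ^ 2 * 1 ≤ R ^ 2 * (2 * S) := mul_le_mul_of_nonneg_left f6 (by positivity)
  have e7 : R * (R * Real.log ((D * (n1 + E * D) : ℕ) : ℝ) +
      (Real.log (D.factorial : ℝ) + D * (Real.log (((D * n1 : ℕ) : ℝ) * H)
        + D * Real.log (1 + W))))
      ≤ R * (R * (2 * D * (10 * w + E * D) * S) + (2 * D ^ 2 * S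
        + D * ((cU m D w p + 3 * D) * S))) := by
    apply mul_le_mul_of_nonneg_left _ hR0
    linarith
  have e8 : c3A m D w p E R * S = 2 * R ^ 2 * S
      + R * (R * (2 * D * (10 * w + E * D) * S) + (2 * D ^ 2 * S
        + D * ((cU m D w p + 3 * D) * S))) := by
    unfold c3A; ring
  rw [e8]
  linarith

lemma ineq2_logA {X : ℝ} (hX : 0 < X) (o : ℕ)
    (h : X ^ (w * t') ≤ X ^ (2 * E * o) * (X ^ (10 * w) *
        ((21 * w + 1) * m * B2 ^ (62 * w) * B1 ^ (52 * w * (p * t')) *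
          (((D * n1 : ℕ) : ℝ) * (H * W ^ D * B1 ^ (10 * w * (p * t'))))))) :
    w * t' * Real.log X ≤ 2 * E * (o * Real.log X) + 10 * w * Real.log X
      + c4A m D w p * SS t' (C0 * W ^ D) B1 B2 := by
  obtain ⟨g1, g2, hC0W⟩ := logW_le hC0 hW hB1 hB2 ht hD
  obtain ⟨f1, f2, f3, f4, f5, f6, f7⟩ := SS_facts hC0W hB1 hB2 ht
  have hH1 := H_pos hC0W hB1 hB2 ht hm hD hn hn1 hp hH
  have hU := logU_le hC0W hB1 hB2 ht hm hD hn hn1 hp hH
  have hB10 : 0 < B1 := by linarith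
  have hB20 : 0 < B2 := by linarith
  have hm0 : (0 : ℝ) < m := by exact_mod_cast hm
  have hn0 : (0 : ℝ) < ((D * n1 : ℕ) : ℝ) := by
    have : 0 < D * n1 := Nat.mul_pos hD hn
    exact_mod_cast this
  have hUpos : (0 : ℝ) < ((D * n1 : ℕ) : ℝ) * H := by positivity
  have hmw : (0 : ℝ) < (21 * w + 1) * m := by positivity
  have hWD : (0 : ℝ) < W ^ D := by positivity
  have e0 : ((D * n1 : ℕ) : ℝ) * (H * W ^ D * B1 ^ (10 * w * (p * t')))
      = ((((D * n1 : ℕ) : ℝ) * H) * W ^ D) * B1 ^ (10 * w * (p * t')) := by ring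
  rw [e0] at h
  obtain ⟨Mw, hMw⟩ : ∃ Mw : ℝ, Mw = (21 * w + 1) * m := ⟨_, rfl⟩
  obtain ⟨U, hUd⟩ : ∃ U : ℝ, U = ((D * n1 : ℕ) : ℝ) * H := ⟨_, rfl⟩
  rw [← hMw, ← hUd] at h
  rw [← hMw] at hmw
  rw [← hUd] at hUpos hU
  have h' := Real.log_le_log (by positivity) h
  rw [Real.log_pow, Real.log_mul (by positivity) (by positivity), Real.log_pow,
    Real.log_mul (by positivity) (by positivity), Real.log_pow,
    Real.log_mul (by positivity) (by positivity), Real.log_mul (by positivity) (by positivity),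
    Real.log_mul (by positivity) (by positivity), Real.log_pow, Real.log_pow,
    Real.log_mul (by positivity) (by positivity), Real.log_mul hUpos.ne' (by positivity),
    Real.log_pow, Real.log_pow] at h'
  push_cast at h'
  have e2 := log_le_of _ hmw
  rw [hMw] at e2
  rw [hMw] at h' hmw
  have e3 : ((21 * (w : ℝ) + 1) * m) * 1 ≤ ((21 * w + 1) * m) * (2 * SS t' (C0 * W ^ D) B1 B2) :=
    mul_le_mul_of_nonneg_left f6 hmw.le
  have e5 : 62 * (w : ℝ) * Real.log B2 ≤ 62 * w * SS t' (C0 * W ^ D) B1 B2 :=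
    mul_le_mul_of_nonneg_left f4 (by positivity)
  have e6 : 52 * (w : ℝ) * p * (t' * Real.log B1) ≤ 52 * w * p * SS t' (C0 * W ^ D) B1 B2 :=
    mul_le_mul_of_nonneg_left f2 (by positivity)
  have e7 : 10 * (w : ℝ) * p * (t' * Real.log B1) ≤ 10 * w * p * SS t' (C0 * W ^ D) B1 B2 :=
    mul_le_mul_of_nonneg_left f2 (by positivity)
  unfold c4A
  linarith

end logs

end Pool.Agent.Y910.A
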