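import Pool.Agent.Y910.A.A3

/-!
The two-point principle with anchors, for weighted curves and composita of fields.
-/

open Polynomial Finset

namespace Pool.Agent.Y910.A

open Pool.Agent.H322R2 Pool.Agent.Y910.S

/-- the exponent of the two-point principle -/
noncomputable def kqA (m D w p E D2 q R : ℝ) : ℝ :=
  12 * (2 * E * c3A m D w p E R + c4A m D w p) + 4 * (2 * E * R + 10 * w) + 4 * c5 m D w p D2
    + 4 * q + 100

theorem numericA (r1 r2 p1 q1 p2 q2 E : ℕ) (hr1 : 1 ≤ r1) (hr2 : 3 ≤ r2) (hp1 : 1 ≤ p1)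
    (hq1 : 1 ≤ q1) (hp2 : 1 ≤ p2) (hq2 : 1 ≤ q2) (w : ℕ) (hw : w = p2 * q2 * r2)
    (m2 D1 : ℕ) (hm2d : m2 = (r2 * p2) * (9 * q2 * r2)) (hD1d : D1 = r1 * p1)
    (κ : ℝ) (hκ : κ = kqA m2 D1 w p1 E (r2 * p2 : ℕ) (q1 * r1 : ℕ) ((m2 ^ D1 : ℕ) : ℝ))
    (C0 W B1 B2 X Z Y : ℝ) (hC0 : 1 ≤ C0) (hW : 1 ≤ W) (hB1 : 2 ≤ B1) (hB2 : 2 ≤ B2) (hX0 : 0 < X)
    (hZ0 : 1 ≤ Z) (hZY : Z ≤ Y)
    (hx : κ * Real.log B1 ≤ Real.log X)
    (hz : κ * (Real.log X + Real.log B2 + Real.log (C0 * W ^ D1)) ≤ Real.log Z) :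
    ∃ (t' n1 : ℕ) (H : ℝ), q1 * r1 ≤ t' ∧ n1 = 10 * w * t' - q1 * r1 ∧
      H = Hq m2 (D1 * n1) w (p1 * t') (C0 * W ^ D1) B1 B2 ∧ X ^ t' ≤ Z ∧ Z ≤ X ^ (t' + 1) ∧
      (r2 * p2).factorial * ((m2 : ℝ) * H * (1 + B2) ^ (r2 * p2)) ^ (r2 * p2) < Y ∧
      ∀ o : ℕ, X ^ o ≤ X ^ (m2 ^ D1) * (((m2 ^ D1).factorial : ℕ) *
          (((D1 * (n1 + E * D1) : ℕ) : ℝ) ^ (m2 ^ D1) *
            (D1.factorial * ((((D1 * n1 : ℕ) : ℝ) * H) * (1 + W) ^ D1) ^ D1)) ^ (m2 ^ D1)) →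
      X ^ (w * t') ≤ X ^ (2 * E * o) * (X ^ (10 * w) *
        ((21 * w + 1) * m2 * B2 ^ (62 * w) * B1 ^ (52 * w * (p1 * t')) *
          (((D1 * n1 : ℕ) : ℝ) * (H * W ^ D1 * B1 ^ (10 * w * (p1 * t')))))) → False := by
  obtain ⟨R, hR⟩ : ∃ R : ℝ, R = ((m2 ^ D1 : ℕ) : ℝ) := ⟨_, rfl⟩
  have hR0 : 0 ≤ R := by rw [hR]; positivity
  rw [← hR] at hκ
  have hcH : 0 ≤ cH m2 D1 w p1 := by unfold cH; positivity
  have hcU : 0 ≤ cU m2 D1 w p1 := by unfold cU; positivity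
  have hc3 : 0 ≤ c3A m2 D1 w p1 E R := by unfold c3A; positivity
  have hc4 : 0 ≤ c4A m2 D1 w p1 := by unfold c4A; positivity
  have hc5 : 0 ≤ c5 m2 D1 w p1 (r2 * p2 : ℕ) := by unfold c5; positivity
  have hE0 : (0 : ℝ) ≤ E := by positivity
  have hw0 : (0 : ℝ) ≤ w := by positivity
  have hER : 0 ≤ (E : ℝ) * R := by positivity
  have hEc : 0 ≤ (E : ℝ) * c3A m2 D1 w p1 E R := by positivity
  have hq0 : (0 : ℝ) ≤ (q1 * r1 : ℕ) := by positivity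
  have hκ100 : 100 ≤ κ := by rw [hκ]; unfold kqA; linarith
  have hκ0 : 0 < κ := by linarith
  have hD1pos : 0 < D1 := by rw [hD1d]; exact Nat.mul_pos (by omega) hp1
  obtain ⟨x, hxdef⟩ : ∃ x, x = Real.log X := ⟨_, rfl⟩
  obtain ⟨z, hzdef⟩ : ∃ z, z = Real.log Z := ⟨_, rfl⟩
  rw [← hxdef] at hx hz
  rw [← hzdef] at hz
  have hC0W : 1 ≤ C0 * W ^ D1 := one_le_mul_of_one_le_of_one_le hC0 (one_le_pow₀ hW)
  have hβ1 := half_le_log hB1
  have hβ2 := half_le_log hB2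
  have hc := Real.log_nonneg hC0W
  have hx50 : 50 ≤ x := by
    have : κ * (1 / 2) ≤ κ * Real.log B1 := mul_le_mul_of_nonneg_left hβ1 hκ0.le
    linarith
  have hx0 : 0 < x := by linarith
  set t := ⌊z / x⌋₊ with htdef
  have hzx : κ * x ≤ z := by
    have : κ * x ≤ κ * (x + Real.log B2 + Real.log (C0 * W ^ D1)) :=
      mul_le_mul_of_nonneg_left (by linarith) hκ0.le
    linarith
  have hz0 : 0 < z := by
    have : 0 < κ * x := mul_pos hκ0 hx0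
    linarith
  have ht1 : (t : ℝ) ≤ z / x := Nat.floor_le (by positivity)
  have ht2 : z / x < t + 1 := Nat.lt_floor_add_one _
  have ht1' : t * x ≤ z := by
    rwa [le_div_iff₀ (by positivity)] at ht1
  have ht2' : z < (t + 1) * x := by
    rwa [div_lt_iff₀ (by positivity)] at ht2
  have htκ : κ - 1 < t := by
    have h1 : κ ≤ z / x := by
      rw [le_div_iff₀ hx0]; exact hzx
    linarith
  have ht99 : (99 : ℝ) < t := by linarith
  have htq : ((q1 * r1 : ℕ) : ℝ) ≤ t := by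
    have : 4 * ((q1 * r1 : ℕ) : ℝ) + 100 ≤ κ := by rw [hκ]; unfold kqA; linarith
    linarith
  have htER : 4 * (2 * (E * R) + 10 * w) ≤ t := by
    have : 4 * (2 * (E * R) + 10 * w) + 100 ≤ κ := by rw [hκ]; unfold kqA; linarith
    linarith
  have htqn : q1 * r1 ≤ t := by exact_mod_cast htq
  have hqr : 1 ≤ q1 * r1 := Nat.mul_pos hq1 hr1
  have ht1n : 1 ≤ t := hqr.trans htqn
  have hwr : r2 ≤ w := by
    rw [hw]
    calc r2 = 1 * 1 * r2 := by ring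
      _ ≤ p2 * q2 * r2 := by gcongr
  have hw3 : 3 ≤ w := hr2.trans hwr
  have hwt0 : t ≤ w * t := Nat.le_mul_of_pos_left _ (by omega)
  have h10 : 10 * w * t = 10 * (w * t) := by ring
  obtain ⟨n1, hn1⟩ : ∃ n1, n1 = 10 * w * t - q1 * r1 := ⟨_, rfl⟩
  obtain ⟨H, hH⟩ : ∃ H, H = Hq m2 (D1 * n1) w (p1 * t) (C0 * W ^ D1) B1 B2 := ⟨_, rfl⟩
  have hn1pos : 0 < n1 := by omega
  have hn1le : n1 ≤ 10 * w * t := by omega
  have hD2pos : 0 < r2 * p2 := Nat.mul_pos (by omega) hp2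
  have hm2pos : 0 < m2 := by
    rw [hm2d]
    apply Nat.mul_pos hD2pos
    have : 0 < q2 * r2 := Nat.mul_pos hq2 (by omega)
    have h : 9 * q2 * r2 = 9 * (q2 * r2) := by ring
    omega
  have hH1 := H_pos hC0W hB1 hB2 ht1n hm2pos hD1pos hn1pos hn1le hp1 hH
  obtain ⟨f1, f2, f3, f4, f5, f6, f7⟩ := SS_facts hC0W hB1 hB2 ht1n
  obtain ⟨S, hS⟩ : ∃ S : ℝ, S = SS t (C0 * W ^ D1) B1 B2 := ⟨_, rfl⟩
  have hSpos : 0 < S := by rw [hS]; linarith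
  have htx : 0 < t * x := by
    apply mul_pos _ hx0; linarith
  have hx_le : x ≤ t * x := by
    have : 1 * x ≤ t * x := mul_le_mul_of_nonneg_right (by linarith) hx0.le
    linarith
  have hSsmall : κ * S ≤ t * x + z := by
    have h1 : t * (κ * Real.log B1) ≤ t * x := mul_le_mul_of_nonneg_left hx (by linarith)
    have h2 : κ * (Real.log B2 + Real.log (C0 * W ^ D1)) ≤ z := by
      have : 0 ≤ κ * x := by positivity
      linarith
    have h4 : κ * S = t * (κ * Real.log B1) + κ * (Real.log B2 + Real.log (C0 * W ^ D1)) := by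
      rw [hS]; unfold SS; ring
    rw [h4]; linarith
  have hZpos : 0 < Z := by linarith
  have hYpos : 0 < Y := by linarith
  refine ⟨t, n1, H, htqn, hn1, hH, ?_, ?_, ?_, ?_⟩
  · rw [← Real.log_le_log_iff (by positivity) hZpos, Real.log_pow, ← hxdef, ← hzdef]
    exact ht1'
  · rw [← Real.log_le_log_iff hZpos (by positivity), Real.log_pow, ← hxdef, ← hzdef]
    push_cast
    linarith
  · refine lt_of_lt_of_le ?_ hZY
    have hH0 : 0 < H := by linarith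
    have hm2r : (0 : ℝ) < m2 := by exact_mod_cast hm2pos
    rw [← Real.log_lt_log_iff (by positivity) hZpos, ← hzdef]
    refine lt_of_le_of_lt (small_log hC0W hB1 hB2 ht1n hm2pos hD1pos hn1pos hn1le hp1 hH
      hD2pos) ?_
    rw [← hS]
    have e6 : (4 * c5 m2 D1 w p1 (r2 * p2 : ℕ)) * S ≤ κ * S := by
      apply mul_le_mul_of_nonneg_right _ hSpos.le
      rw [hκ]; unfold kqA; linarith
    linarith
  · intro o h1 h2
    have g1 := ineq1_logA hC0 hW hB1 hB2 ht1n hm2pos hD1pos hn1pos hn1le hp1 hH hX0 o (m2 ^ D1) h1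
    have g2 := ineq2_logA hC0 hW hB1 hB2 ht1n hm2pos hD1pos hn1pos hn1le hp1 hH hX0 o h2
    rw [← hxdef, ← hS, ← hR] at g1
    rw [← hxdef, ← hS] at g2
    have e4 : 2 * (E : ℝ) * (o * x) ≤ 2 * E * (R * x + c3A m2 D1 w p1 E R * S) :=
      mul_le_mul_of_nonneg_left g1 (by positivity)
    have g3 : (12 * (2 * E * c3A m2 D1 w p1 E R + c4A m2 D1 w p1)) * S ≤ κ * S := by
      apply mul_le_mul_of_nonneg_right _ hSpos.le
      rw [hκ]; unfold kqA; linarith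
    have g4 : (4 * (2 * (E * R) + 10 * w)) * x ≤ t * x :=
      mul_le_mul_of_nonneg_right htER hx0.le
    have g6 : 3 * (t * x) ≤ w * t * x := by
      have : (3 : ℝ) ≤ w := by exact_mod_cast hw3
      have h5 : 3 * (t * x) ≤ w * (t * x) := mul_le_mul_of_nonneg_right this htx.le
      linarith
    have g7 : z ≤ 2 * (t * x) := by linarith
    have g8 : (12 * (2 * E * c3A m2 D1 w p1 E R + c4A m2 D1 w p1)) * S ≤ 3 * (t * x) := by
      linarith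
    clear g3 hSsmall hκ
    linarith

/-- Two huge integer points of very different size, on two weighted curves with branches at
infinity defined over the same ring `A` near the same real place, do not exist; the first point
need only be large compared with the radius of convergence. -/
theorem two_pointA (r1 r2 p1 q1 p2 q2 E : ℕ) (hr1 : 1 ≤ r1) (hr2 : 3 ≤ r2) :
    ∃ κ : ℕ, 1 ≤ κ ∧
    ∀ {A : Type} [CommRing A] {N : RingSeminorm A} {σ : A →+* ℝ} (_ : N 1 ≤ 1)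
      (_ : ∀ x, |σ x| ≤ N x) {ι : Type} [Fintype ι] (bas : ι → A →+ ℤ)
      (_ : ∀ x, (∀ i, bas i x = 0) → x = 0)
      (C0 : ℝ) (_ : 1 ≤ C0) (_ : ∀ x i, |(bas i x : ℝ)| ≤ C0 * N x)
      (_ : 3 * Fintype.card ι ≤ r1 * r2) (_ : 0 < Fintype.card ι)
      {B1 W B2 : ℝ} {F1 F2 : ℤ[X][X]} {a1 b1 a2 b2 : ℤ}
      (_ : F1.Monic) (_ : F1.natDegree = r1 * p1) (_ : Prime F1)
      (_ : ∀ j, (F1.coeff j).natDegree ≤ E)
      (_ : F2.Monic) (_ : F2.natDegree = r2 * p2) (_ : Prime F2)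
      (_ : AQ N σ p1 q1 E B1 W F1 a1 b1) {E2 : ℕ} (P2 : BQ N σ p2 q2 E2 B2 F2 a2 b2)
      (_ : B1 ^ κ ≤ |(a1 : ℝ)|), P2.Z ≤ (|(a1 : ℝ)| * (C0 * W ^ (r1 * p1)) * B2) ^ κ := by
  obtain ⟨κ, hκd⟩ : ∃ κ : ℝ, κ = kqA ((r2 * p2) * (9 * q2 * r2) : ℕ) (r1 * p1 : ℕ)
    (p2 * q2 * r2 : ℕ) p1 E (r2 * p2 : ℕ) (q1 * r1 : ℕ)
    ((((r2 * p2) * (9 * q2 * r2)) ^ (r1 * p1) : ℕ) : ℝ) := ⟨_, rfl⟩
  refine ⟨max 1 ⌈κ⌉₊, le_max_left _ _, ?_⟩
  obtain ⟨K, hK⟩ : ∃ K, K = max 1 ⌈κ⌉₊ := ⟨_, rfl⟩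
  have hκK : κ ≤ K := by
    rw [hK]
    push_cast
    exact le_trans (Nat.le_ceil κ) (le_max_right _ _)
  rw [← hK]
  intro A _ N σ h1 hσ ι _ bas hb C0 hC0 hcoord hk hk0 B1 W B2 F1 F2 a1 b1 a2 b2 hm1 hFd1 hF1 hFx1
    hm2 hFd2 hF2 P1 E2 P2 hl1
  by_contra hcon
  push Not at hcon
  have hB1 := P1.B_one
  have hW := P1.hW
  have hB2 := P2.B_one
  have ha1 : 1 ≤ |(a1 : ℝ)| := by have := P1.a_ge; linarith
  have hC0W : 1 ≤ C0 * W ^ (r1 * p1) := one_le_mul_of_one_le_of_one_le hC0 (one_le_pow₀ hW)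
  have hb1 := Real.log_nonneg hB1
  have hb2 := Real.log_nonneg hB2
  have hc0 := Real.log_nonneg hC0W
  have ha0 : 0 ≤ Real.log |(a1 : ℝ)| := Real.log_nonneg ha1
  have hx : κ * Real.log B1 ≤ Real.log |(a1 : ℝ)| := by
    have h3 := Real.log_le_log (by have := P1.B_pos; positivity) hl1
    rw [Real.log_pow] at h3
    exact (mul_le_mul_of_nonneg_right hκK hb1).trans h3
  have hz : κ * (Real.log |(a1 : ℝ)| + Real.log B2 + Real.log (C0 * W ^ (r1 * p1)))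
      ≤ Real.log P2.Z := by
    have h3 := Real.log_le_log (by positivity) hcon.le
    rw [Real.log_pow, Real.log_mul (by positivity) (by positivity),
      Real.log_mul (by positivity) (by positivity)] at h3
    have h4 := mul_le_mul_of_nonneg_right hκK (by linarith :
      0 ≤ Real.log |(a1 : ℝ)| + Real.log B2 + Real.log (C0 * W ^ (r1 * p1)))
    linarith
  obtain ⟨t', n1, H, ht', hn1, hH, hY1, hY2, hsmall, hfin⟩ := numericA r1 r2 p1 q1 p2 q2 E hr1 hr2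
    P1.hp P1.hq P2.hp P2.hq (p2 * q2 * r2) rfl ((r2 * p2) * (9 * q2 * r2)) (r1 * p1) rfl rfl κ hκd
    C0 W B1 B2 |(a1 : ℝ)| P2.Z |(a2 : ℝ)| hC0 hW P1.hB P2.hB P1.a_pos
    (by have := P2.Z_ge; linarith) P2.Z_le hx hz
  obtain ⟨o, ho1, ho2⟩ := core_ineqA h1 hσ bas hb C0 hC0 hcoord P1 P2 hr1 hr2 hm1 hFd1 hF1 hFx1
    hm2 hFd2 hF2 hk hk0 (p2 * q2 * r2) rfl t' ht' ((r2 * p2) * (9 * q2 * r2)) n1 (r1 * p1) rfl hn1
    rfl H hH hY1 hY2 hsmall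
  exact hfin o ho1 ho2

end Pool.Agent.Y910.A
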