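import Pool.Agent.Y910.A.A4
import Pool.Agent.W257.K7

/-!
Transport between number fields; anchors give bounds for all residue fields meeting the anchor
field in degree at least three.
-/

open Polynomial Finset NumberField IntermediateField

namespace Pool.Agent.Y910.A

open Pool.Agent.H322R2 Pool.Agent.Y910.S Pool.Agent.W257

section Transport

variable {A A' : Type} [CommRing A] [CommRing A'] {N : RingSeminorm A} {σ : A →+* ℝ}
  {N' : RingSeminorm A'} {σ' : A' →+* ℝ} (f : A →+* A') (hN : ∀ x, N' (f x) ≤ N x)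
  (hσ : ∀ x, σ' (f x) = σ x)

/-- transport of an anchor -/
noncomputable def AQ.transport {p q E : ℕ} {B W : ℝ} {F : ℤ[X][X]} {a b : ℤ}
    (P : AQ N σ p q E B W F a b) : AQ N' σ' p q E B W F a b where
  ωS := PowerSeries.map f P.ωS
  ωU := PowerSeries.map f P.ωU
  ωV := PowerSeries.map f P.ωV
  Z := P.Z
  R := P.R
  θ := P.θ
  S := P.S
  hp := P.hp
  hq := P.hq
  hB := P.hB
  hW := P.hW
  hZ := P.hZ
  hZB := P.hZB
  hR := P.hR
  hωS := Bd_map f hN P.ρ_pos.le P.hωS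
  hωU := Bd_map f hN P.ρ_pos.le P.hωU
  hωV := Bd_map f hN P.ρ_pos.le P.hωV
  hθ := P.hθ
  hS := P.hS
  hSθ := by rw [map_map_eq f hσ]; exact P.hSθ
  hU := by rw [map_map_eq f hσ]; exact P.hU
  hV := by rw [map_map_eq f hσ]; exact P.hV
  hF := by rw [map_map_eq f hσ]; exact P.hF
  hD := P.hD
  hDle := P.hDle
  hFn := P.hFn

/-- transport of a point on a branch -/
noncomputable def BQ.transport {p q E : ℕ} {B : ℝ} {F : ℤ[X][X]} {a b : ℤ}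
    (P : BQ N σ p q E B F a b) : BQ N' σ' p q E B F a b where
  ωS := PowerSeries.map f P.ωS
  ωU := PowerSeries.map f P.ωU
  ωV := PowerSeries.map f P.ωV
  Z := P.Z
  R := P.R
  θ := P.θ
  S := P.S
  hp := P.hp
  hq := P.hq
  hB := P.hB
  hZ := P.hZ
  hZB := P.hZB
  hR := P.hR
  hωS := Bd_map f hN P.ρ_pos.le P.hωS
  hωU := Bd_map f hN P.ρ_pos.le P.hωU
  hωV := Bd_map f hN P.ρ_pos.le P.hωV
  hθ := P.hθ
  hS := P.hS
  hSθ := by rw [map_map_eq f hσ]; exact P.hSθ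
  hU := by rw [map_map_eq f hσ]; exact P.hU
  hV := by rw [map_map_eq f hσ]; exact P.hV
  hF := by rw [map_map_eq f hσ]; exact P.hF
  hD := P.hD
  hDle := P.hDle
  hFn := P.hFn

end Transport

/-- effective bound for points near a branch at infinity whose residue field is `L` -/
def EffW (r p q C : ℕ) (c : ℝ) (L : IntermediateField ℚ ℝ) : Prop :=
  ∀ (_ : NumberField L), Module.finrank ℚ L = r → ∀ (G : ℤ[X][X]) (E : ℕ) (B B' : ℝ) (α : 𝓞 L)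
    (a b : ℤ), ℚ⟮rE L (algebraMap L ℝ) α⟯ = L → hs L α ≤ B' → B ≤ B' → G.Monic →
    G.natDegree = r * p → Prime G → BQ (hs L) (rE L (algebraMap L ℝ)) p q E B G a b →
    |(a : ℝ)| ≤ (c * B') ^ C

lemma EffW.mono {r p q C C' : ℕ} {c c' : ℝ} {L : IntermediateField ℚ ℝ} (hc1 : 1 ≤ c)
    (hc : c ≤ c') (hC : C ≤ C') (h : EffW r p q C c L) : EffW r p q C' c' L := by
  intro hnf hfin G E B B' α a b hα hαB hBB hGm hGd hGp P
  have hB : 1 ≤ B' := P.B_one.trans hBB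
  refine (h hnf hfin G E B B' α a b hα hαB hBB hGm hGd hGp P).trans ?_
  calc (c * B') ^ C ≤ (c' * B') ^ C := by
        apply pow_le_pow_left₀ (by positivity)
        exact mul_le_mul_of_nonneg_right hc (by linarith)
    _ ≤ (c' * B') ^ C' :=
        pow_le_pow_right₀ (one_le_mul_of_one_le_of_one_le (hc1.trans hc) hB) hC

/-- An anchor over `K₁` gives bounds for all residue fields `L₂` with `3 [K₁ L₂ : ℚ] ≤ r₁ r₂`. -/
theorem anchor_effW (r1 p1 q1 r2 p2 q2 E : ℕ) (hr1 : 1 ≤ r1) (hr2 : 3 ≤ r2) :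
    ∃ K : ℕ, 1 ≤ K ∧ ∀ {K₁ : IntermediateField ℚ ℝ} [NumberField K₁] {S₁ : Set ℝ} {h₁ : ℝ}
      (_ : 1 ≤ h₁) (_ : Gen K₁ S₁ h₁) {B1 W : ℝ} {F1 : ℤ[X][X]} {a1 b1 : ℤ}
      (_ : AQ (hs K₁) (rE K₁ (algebraMap K₁ ℝ)) p1 q1 E B1 W F1 a1 b1) (_ : F1.Monic)
      (_ : F1.natDegree = r1 * p1) (_ : Prime F1) (_ : ∀ j, (F1.coeff j).natDegree ≤ E)
      (_ : B1 ^ K ≤ |(a1 : ℝ)|) (L₂ : IntermediateField ℚ ℝ)
      (_ : 3 * Module.finrank ℚ ↥(K₁ ⊔ L₂) ≤ r1 * r2),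
      EffW r2 p2 q2 K (|(a1 : ℝ)| * (r1 * r2 * h₁ * W ^ (r1 * p1))) L₂ := by
  obtain ⟨κ, hκ1, hκ⟩ := two_pointA r1 r2 p1 q1 p2 q2 E hr1 hr2
  refine ⟨max κ ((r2 + 1) * κ * p2), hκ1.trans (le_max_left _ _), ?_⟩
  intro K₁ _ S₁ h₁ hh₁ HS₁ B1 W F1 a1 b1 P1 hm1 hFd1 hF1 hFx1 ha1 L₂ hL₂
  intro hnf hfin G E2 B0 B α a b hα hαB hBB hGm hGd hGp P
  have hW := P1.hW
  have hB0 := P.B_one
  have hB : 1 ≤ B := hB0.trans hBB
  have : FiniteDimensional ℚ ↥(K₁ ⊔ L₂) := IntermediateField.finiteDimensional_sup K₁ L₂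
  have hnfL : NumberField ↥(K₁ ⊔ L₂) := { to_charZero := inferInstance, to_finiteDimensional := this }
  obtain ⟨n, hn⟩ : ∃ n, n = Module.finrank ℚ ↥(K₁ ⊔ L₂) := ⟨_, rfl⟩
  rw [← hn] at hL₂
  have hn0 : 0 < n := by rw [hn]; exact Module.finrank_pos
  have HS₂ := gen_powers hfin α hα (H := B) hB hαB
  have HS := HS₁.sup HS₂ (by linarith)
  obtain ⟨bas, hbas1, hbas2⟩ := exists_bas HS
  have hn1 : (1 : ℝ) ≤ n := by exact_mod_cast hn0
  have hC0 : 1 ≤ (n : ℝ) * (h₁ * B ^ r2) :=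
    one_le_mul_of_one_le_of_one_le hn1 (one_le_mul_of_one_le_of_one_le hh₁ (one_le_pow₀ hB))
  have hB1 := P1.B_one
  have hres := hκ (hs_one ↥(K₁ ⊔ L₂)) (abs_rE_le ↥(K₁ ⊔ L₂) (algebraMap _ ℝ))
    bas hbas1 ((n : ℝ) * (h₁ * B ^ r2)) hC0 (fun x i => (hbas2 x i).trans_eq (by rw [hn]))
    (by rw [Fintype.card_fin, ← hn]; exact hL₂) (by rw [Fintype.card_fin, ← hn]; exact hn0)
    hm1 hFd1 hF1 hFx1 hGm hGd hGp
    (AQ.transport (incl (le_sup_left : K₁ ≤ K₁ ⊔ L₂)) (hs_incl _) (rE_incl _) P1)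
    (BQ.transport (incl (le_sup_right : L₂ ≤ K₁ ⊔ L₂)) (hs_incl _) (rE_incl _) P)
    ((pow_le_pow_right₀ hB1 (le_max_left _ _)).trans ha1)
  have hZe : (BQ.transport (incl (le_sup_right : L₂ ≤ K₁ ⊔ L₂)) (hs_incl _) (rE_incl _) P).Z = P.Z :=
    rfl
  rw [hZe] at hres
  have ha1ge : 1 ≤ |(a1 : ℝ)| := by have := P1.a_ge; linarith
  obtain ⟨u, hu⟩ : ∃ u, u = W ^ (r1 * p1) := ⟨_, rfl⟩
  have hu1 : 1 ≤ u := by rw [hu]; exact one_le_pow₀ hW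
  rw [← hu] at hres ⊢
  have hr1R : (1 : ℝ) ≤ r1 := by exact_mod_cast hr1
  have hr2R : (1 : ℝ) ≤ r2 := by exact_mod_cast (by omega : 1 ≤ r2)
  have hnr : (n : ℝ) ≤ r1 * r2 := by
    have : n ≤ r1 * r2 := by omega
    exact_mod_cast this
  obtain ⟨c, hc⟩ : ∃ c, c = |(a1 : ℝ)| * (r1 * r2 * h₁ * u) := ⟨_, rfl⟩
  have hc1 : 1 ≤ c := by
    rw [hc]
    exact one_le_mul_of_one_le_of_one_le ha1ge (one_le_mul_of_one_le_of_one_le
      (one_le_mul_of_one_le_of_one_le (one_le_mul_of_one_le_of_one_le hr1R hr2R) hh₁) hu1)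
  rw [← hc]
  have hcB : 1 ≤ c * B := one_le_mul_of_one_le_of_one_le hc1 hB
  have h1 : |(a1 : ℝ)| * ((n : ℝ) * (h₁ * B ^ r2) * u) * B0 ≤ (c * B) ^ (r2 + 1) := by
    calc |(a1 : ℝ)| * ((n : ℝ) * (h₁ * B ^ r2) * u) * B0
        ≤ |(a1 : ℝ)| * ((r1 * r2 : ℝ) * (h₁ * B ^ r2) * u) * B := by gcongr
      _ = c * B ^ (r2 + 1) := by rw [hc]; ring
      _ ≤ c ^ (r2 + 1) * B ^ (r2 + 1) := by
          apply mul_le_mul_of_nonneg_right _ (by positivity)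
          exact le_self_pow₀ hc1 (by omega)
      _ = _ := by rw [mul_pow]
  have hZ0 := P.Z_pos
  rw [← P.hZ]
  calc P.Z ^ p2 ≤ ((|(a1 : ℝ)| * ((n : ℝ) * (h₁ * B ^ r2) * u) * B0) ^ κ) ^ p2 :=
        pow_le_pow_left₀ hZ0.le hres _
    _ ≤ (((c * B) ^ (r2 + 1)) ^ κ) ^ p2 := by
        apply pow_le_pow_left₀ (by positivity)
        exact pow_le_pow_left₀ (by positivity) h1 _
    _ = (c * B) ^ ((r2 + 1) * κ * p2) := by rw [← pow_mul, ← pow_mul]; congr 1; ring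
    _ ≤ _ := pow_le_pow_right₀ hcB (le_max_right _ _)

end Pool.Agent.Y910.A
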