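import Pool.Agent.Y910.G.G8

/-!
Large integer points: model of the curve near the place at infinity, with an upper bound for the
new coordinate.
-/

open Polynomial Filter

namespace Pool.Agent.Y910.A

open Pool.Agent.H322R2 Pool.Agent.Y910.S Pool.Agent.Y910.G

/-- the full conclusion, with an upper bound for the coordinate -/
def GoodU (M : ℕ) (T : ℕ) (F : ℤ[X][X]) (x y : ℤ) : Prop :=
  ∃ (N r : ℕ) (c : ℕ → ℕ → ℚ) (g : ℚ[X]) (Φ Ψ : ℚ[X][X]), Mod F N r c g Φ Ψ ∧ N ≤ M ∧ r ≤ M ∧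
    (∀ i j, Ht (T ^ M) (c i j)) ∧
    (∃ D : ℕ, 0 < D ∧ D ≤ T ^ M ∧ (∃ z : ℤ, (D : ℚ) * e2 (RingHom.id ℚ) (x : ℚ) (y : ℚ) Φ = z) ∧
      ∃ z : ℤ, (D : ℚ) * e2 (RingHom.id ℚ) (x : ℚ) (y : ℚ) Ψ = z) ∧
    1 ≤ |e2 (RingHom.id ℚ) (x : ℚ) (y : ℚ) Φ| ∧
    |(x : ℚ)| ≤ |e2 (RingHom.id ℚ) (x : ℚ) (y : ℚ) Φ| ^ M ∧
    |e2 (RingHom.id ℚ) (x : ℚ) (y : ℚ) Φ| ≤ ((T : ℚ) * (1 + |(x : ℚ)| + |(y : ℚ)|)) ^ M

lemma GoodU.mono {M M' T : ℕ} {F : ℤ[X][X]} {x y : ℤ} (hT : 1 ≤ T) (h : GoodU M T F x y)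
    (hM : M ≤ M') : GoodU M' T F x y := by
  obtain ⟨N, r, c, g, Φ, Ψ, h1, h2, h3, h4, ⟨D, h5, h6, h7, h8⟩, h9, h10, h11⟩ := h
  have hp : T ^ M ≤ T ^ M' := Nat.pow_le_pow_right hT hM
  have hTq : (1 : ℚ) ≤ T := by exact_mod_cast hT
  have hb : (1 : ℚ) ≤ (T : ℚ) * (1 + |(x : ℚ)| + |(y : ℚ)|) := by
    have h1 := abs_nonneg (x : ℚ)
    have h2 := abs_nonneg (y : ℚ)
    exact one_le_mul_of_one_le_of_one_le hTq (by linarith)
  exact ⟨N, r, c, g, Φ, Ψ, h1, h2.trans hM, h3.trans hM, fun i j => (h4 i j).mono hp,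
    ⟨D, h5, h6.trans hp, h7, h8⟩, h9, h10.trans (pow_le_pow_right₀ h9 hM),
    h11.trans (pow_le_pow_right₀ hb hM)⟩

/-- size of the values of a fixed polynomial -/
lemma val_le (S : Sca) (x y : ℕ → ℤ) (W : S.KK[X][X]) : ∃ m : ℕ, ∀ n,
    |e2 (RingHom.id ℚ) (x n : ℚ) (y n : ℚ) (m2 (S.rho n) W)|
      ≤ ((S.T n : ℚ) * (1 + |(x n : ℚ)| + |(y n : ℚ)|)) ^ m := by
  have hT2 : ∀ n, (2 : ℚ) ≤ S.T n := fun n => by exact_mod_cast S.hT n
  have hb : ∀ n, (2 : ℚ) ≤ (S.T n : ℚ) * (1 + |(x n : ℚ)| + |(y n : ℚ)|) := by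
    intro n
    have h1 := abs_nonneg (x n : ℚ)
    have h2 := abs_nonneg (y n : ℚ)
    have h3 := hT2 n
    nlinarith
  have hadd : ∀ p q : S.KK[X][X], (∃ m : ℕ, ∀ n,
      |e2 (RingHom.id ℚ) (x n : ℚ) (y n : ℚ) (m2 (S.rho n) p)|
        ≤ ((S.T n : ℚ) * (1 + |(x n : ℚ)| + |(y n : ℚ)|)) ^ m) →
      (∃ m : ℕ, ∀ n, |e2 (RingHom.id ℚ) (x n : ℚ) (y n : ℚ) (m2 (S.rho n) q)|
        ≤ ((S.T n : ℚ) * (1 + |(x n : ℚ)| + |(y n : ℚ)|)) ^ m) →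
      (∃ m : ℕ, ∀ n, |e2 (RingHom.id ℚ) (x n : ℚ) (y n : ℚ) (m2 (S.rho n) (p + q))|
        ≤ ((S.T n : ℚ) * (1 + |(x n : ℚ)| + |(y n : ℚ)|)) ^ m) := by
    rintro p q ⟨m, h⟩ ⟨m', h'⟩
    refine ⟨1 + (m + m'), fun n => ?_⟩
    rw [map_add, map_add]
    obtain ⟨Y, hY⟩ : ∃ Y, Y = (S.T n : ℚ) * (1 + |(x n : ℚ)| + |(y n : ℚ)|) := ⟨_, rfl⟩
    have h1 := h n
    have h2 := h' n
    have h3 := hb n
    rw [← hY] at h1 h2 h3 ⊢
    have h4 : (1 : ℚ) ≤ Y := by linarith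
    have h5 : Y ^ m ≤ Y ^ (m + m') := pow_le_pow_right₀ h4 (by omega)
    have h6 : Y ^ m' ≤ Y ^ (m + m') := pow_le_pow_right₀ h4 (by omega)
    have h7 : 0 < Y ^ (m + m') := by positivity
    refine (abs_add_le _ _).trans ?_
    rw [pow_add Y 1, pow_one]
    nlinarith
  induction W using Polynomial.induction_on' with
  | add p q hp hq => exact hadd p q hp hq
  | monomial j p =>
    induction p using Polynomial.induction_on' with
    | add p q hp hq => rw [map_add]; exact hadd _ _ hp hq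
    | monomial i c =>
      obtain ⟨m, hm⟩ := c.2
      refine ⟨m + (i + j), fun n => ?_⟩
      have e : e2 (RingHom.id ℚ) (x n : ℚ) (y n : ℚ) (m2 (S.rho n) (monomial j (monomial i c)))
          = ((c : ℕ → ℚ) n) * (x n : ℚ) ^ i * (y n : ℚ) ^ j := by
        rw [m2, coe_mapRingHom, map_monomial, coe_mapRingHom, map_monomial,
          ← C_mul_X_pow_eq_monomial, ← C_mul_X_pow_eq_monomial]
        simp only [map_mul, map_pow, e2_CC, e2_CX, e2_X, RingHom.id_apply]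
        rfl
      rw [e, abs_mul, abs_mul, abs_pow, abs_pow]
      have h1 := (hm n).abs_le
      push_cast at h1
      obtain ⟨Y, hY⟩ : ∃ Y, Y = (S.T n : ℚ) * (1 + |(x n : ℚ)| + |(y n : ℚ)|) := ⟨_, rfl⟩
      have hTn := hT2 n
      have hxn := abs_nonneg (x n : ℚ)
      have hyn := abs_nonneg (y n : ℚ)
      have hYT : (S.T n : ℚ) ≤ Y := by rw [hY]; nlinarith
      have hYx : |(x n : ℚ)| ≤ Y := by rw [hY]; nlinarith
      have hYy : |(y n : ℚ)| ≤ Y := by rw [hY]; nlinarith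
      rw [← hY, pow_add, pow_add, ← mul_assoc]
      have hY0 : 0 ≤ Y := by linarith
      apply mul_le_mul _ (pow_le_pow_left₀ hyn hYy _) (by positivity) (by positivity)
      apply mul_le_mul _ (pow_le_pow_left₀ hxn hYx _) (by positivity) (by positivity)
      exact h1.trans (pow_le_pow_left₀ (by linarith) hYT _)

end Pool.Agent.Y910.A

namespace Pool.Agent.Y910.G.Dat

open Pool.Agent.H322R2 Pool.Agent.Y910.S Pool.Agent.Y910.A

variable (Q : Dat)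

theorem goodU : ∃ M : ℕ, Ev fun n => GoodU M (Q.S.T n) (Q.F n) (Q.x n) (Q.y n) := by
  obtain ⟨N, r, c, g, Φ, Ψ, hN, hr, hc, hgm, hgr, hgi, hg0, hgc, hG, ⟨A, hA, hA0⟩, ⟨B, hB, hB0⟩,
    ⟨h, hh, ⟨P1, hP1⟩, ⟨P2, hP2⟩⟩, m0, hu1, hu⟩ := Q.model
  obtain ⟨m1, hm1⟩ := Q.den Φ
  obtain ⟨m2', hm2⟩ := Q.den Ψ
  obtain ⟨m5, hm5⟩ := val_le Q.S Q.x Q.y Φ
  -- heights of the coefficients
  obtain ⟨m3, hm3⟩ : ∃ m : ℕ, ∀ n i j, Ht (Q.S.T n ^ m) (Q.S.rho n (c i j)) := by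
    choose m hm using fun i j => (c i j).2
    refine ⟨∑ i ∈ Finset.range ((N + 1) * r + 1), ∑ j ∈ Finset.range (N * r), m i j,
      fun n i j => ?_⟩
    by_cases h0 : c i j = 0
    · rw [h0, map_zero]
      exact Ht.zero (Q.S.one_le n _)
    · obtain ⟨h1, h2⟩ := hc i j h0
      have h3 : i < (N + 1) * r + 1 := by
        by_contra hcon
        have h4 : (N + 1) * r + 1 ≤ i := by omega
        have h5 : N * ((N + 1) * r + 1) ≤ N * i := Nat.mul_le_mul_left _ h4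
        have h6 : N * ((N + 1) * r + 1) = N * (N + 1) * r + N := by ring
        omega
      rw [Q.S.rho_apply]
      refine (hm i j n).mono (Nat.pow_le_pow_right (by have := Q.S.hT n; omega) ?_)
      refine le_trans ?_ (Finset.single_le_sum (f := fun i => ∑ j ∈ Finset.range (N * r), m i j)
        (fun _ _ => Nat.zero_le _) (Finset.mem_range.2 h3))
      exact Finset.single_le_sum (f := m i) (fun _ _ => Nat.zero_le _) (Finset.mem_range.2 h1)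
  refine ⟨N + r + m3 + (m1 + m2') + m0 + m5, ?_⟩
  have dG := Q.dvd_of_zero _ hG
  have dA := Q.dvd_of_zero _ hA0
  have dB := Q.dvd_of_zero _ hB0
  have dP1 := Q.dvd_of_zero _ hP1
  have dP2 := Q.dvd_of_zero _ hP2
  rw [ev_ab, cr_abs] at hu1 hu
  have hu1' : Ev fun n => 1 ≤ |e2 (RingHom.id ℚ) (Q.x n : ℚ) (Q.y n : ℚ) (m2 (Q.S.rho n) Φ)| := by
    by_contra hcon
    rw [← ev_not] at hcon
    have h1 : cr (fun n => |e2 (RingHom.id ℚ) (Q.x n : ℚ) (Q.y n : ℚ) (m2 (Q.S.rho n) Φ)|)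
        < 1 := by
      rw [← map_one cr, cr_lt]
      exact hcon.mono fun n hn => not_le.1 hn
    exact absurd h1 (not_lt.2 hu1)
  have hu' : Ev fun n => |(Q.x n : ℚ)|
      ≤ |e2 (RingHom.id ℚ) (Q.x n : ℚ) (Q.y n : ℚ) (m2 (Q.S.rho n) Φ)| ^ m0 := by
    by_contra hcon
    rw [← ev_not] at hcon
    rw [a, cr_abs, ← map_pow] at hu
    refine absurd ?_ (not_lt.2 hu)
    rw [cr_lt]
    exact hcon.mono fun n hn => not_le.1 hn
  refine ((((hgi.and hg0).and (dG.and (dA.and dB))).and ((dP1.and dP2).and hh)).and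
    (hu1'.and hu')).mono ?_
  rintro n ⟨⟨⟨⟨e1, e2'⟩, e3, e4, e5⟩, ⟨e6, e7⟩, e8⟩, e9, e10⟩
  have hT1 : 1 ≤ Q.S.T n := by have := Q.S.hT n; omega
  refine ⟨N, r, fun i j => Q.S.rho n (c i j), g.map (Q.S.rho n), m2 (Q.S.rho n) Φ,
    m2 (Q.S.rho n) Ψ, ⟨hN, hr, ?_, hgm.map _, by rw [hgm.natDegree_map, hgr], e1,
      by rw [coeff_map]; exact e2', ?_, ?_, ⟨A.map (mapRingHom (Q.S.rho n)), hA.map _, ?_⟩,
      ⟨B.map (mapRingHom (Q.S.rho n)), hB.map _, ?_⟩, ⟨h.map (Q.S.rho n), e8, ⟨m2 (Q.S.rho n) P1, ?_⟩,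
        ⟨m2 (Q.S.rho n) P2, ?_⟩⟩⟩, by omega, by omega, ?_, ?_, e9, ?_, ?_⟩
  · intro i j hij
    apply hc
    intro h0
    rw [h0, map_zero] at hij
    exact hij rfl
  · intro l hl
    rw [coeff_map, hgc l hl]
  · have := e3
    simp only [map_add, map_pow, map_sum, map_mul, m2_CC] at this
    exact this
  · rw [m2_sub, m2_CX] at e4; exact e4
  · rw [m2_sub, m2_X] at e5; exact e5
  · rw [map_sub, map_mul, m2_sub, m2_eval1, m2_CX] at e6; exact e6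
  · rw [map_sub, map_mul, m2_sub, m2_eval1, m2_X] at e7; exact e7
  · intro i j
    exact (hm3 n i j).mono (Nat.pow_le_pow_right hT1 (by omega))
  · obtain ⟨D1, f1, f2, z1, f3⟩ := hm1 n
    obtain ⟨D2, f1', f2', z2, f3'⟩ := hm2 n
    refine ⟨D1 * D2, Nat.mul_pos f1 f1', ?_, ⟨D2 * z1, ?_⟩, ⟨D1 * z2, ?_⟩⟩
    · calc D1 * D2 ≤ Q.S.T n ^ m1 * Q.S.T n ^ m2' := Nat.mul_le_mul f2 f2'
        _ = Q.S.T n ^ (m1 + m2') := by rw [pow_add]
        _ ≤ _ := Nat.pow_le_pow_right hT1 (by omega)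
    · push_cast
      rw [← f3]; ring
    · push_cast
      rw [← f3']; ring
  · refine e10.trans (pow_le_pow_right₀ e9 (by omega))
  · refine (hm5 n).trans (pow_le_pow_right₀ ?_ (by omega))
    have h1 := abs_nonneg (Q.x n : ℚ)
    have h2 := abs_nonneg (Q.y n : ℚ)
    have h3 : (1 : ℚ) ≤ Q.S.T n := by exact_mod_cast hT1
    exact one_le_mul_of_one_le_of_one_le h3 (by linarith)

end Pool.Agent.Y910.G.Dat

namespace Pool.Agent.Y910.A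

open Pool.Agent.H322R2 Pool.Agent.Y910.S Pool.Agent.Y910.G

theorem softU (d : ℕ) (hd : 1 ≤ d) : ∃ M : ℕ, ∀ (T : ℕ) (_ : 2 ≤ T) (F : ℤ[X][X]), F.Monic →
    F.natDegree = d → Prime F → (∀ j, (F.coeff j).natDegree ≤ d) → pn (pn zn) F ≤ T →
    ∀ x y : ℤ, ev x y F = 0 → |x| ≤ (T : ℤ) ^ M ∨ GoodU M T F x y := by
  by_contra hcon
  push Not at hcon
  choose T hT F h1 h2 h3 h4 h5 x y h6 h7 h8 using hcon
  let Q : Dat := ⟨⟨T, hT⟩, d, F, x, y, hd, h1, h2, h3, h4, h5, h6, h7⟩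
  obtain ⟨M, hM⟩ := Q.goodU
  obtain ⟨n, hn1, hn2⟩ := (hM.and (ev_ge M)).exists
  exact h8 n (hn1.mono (by have := hT n; show 1 ≤ T n; omega) hn2)

end Pool.Agent.Y910.A
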