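import Pool.Agent.Y910.A.A5
import Pool.Agent.Y910.A.A7
import Pool.Agent.Y910.G.P4

/-!
Structure of the large integer points on monic curves.
-/

open Polynomial Finset NumberField IntermediateField

namespace Pool.Agent.Y910.A

open Pool.Agent.H322R2 Pool.Agent.Y910.S Pool.Agent.Y910.G

/-- a large integer point near a place at infinity with residue field `K` -/
def Big (M T : ℕ) (x y : ℤ) (K : IntermediateField ℚ ℝ) : Prop :=
  ∃ N r : ℕ, 1 ≤ N ∧ 1 ≤ r ∧ N ≤ M ∧ r ≤ M ∧ ∃ (_ : NumberField K) (G : ℤ[X][X]) (a b : ℤ)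
    (α : 𝓞 K) (B : ℝ), Module.finrank ℚ K = r ∧ ℚ⟮rE K (algebraMap K ℝ) α⟯ = K ∧
    hs K α ≤ (T : ℝ) ^ M ∧ B ≤ (T : ℝ) ^ M ∧ G.Monic ∧ G.natDegree = r * N ∧ Prime G ∧
    (∀ j, (G.coeff j).natDegree ≤ (N + 1) * r + 1) ∧
    Nonempty (BQ (hs K) (rE K (algebraMap K ℝ)) N (N + 1) ((N + 1) * r + 1) B G a b) ∧
    |x| ≤ |a| ^ M ∧ |(a : ℝ)| ≤ ((T : ℝ) * (1 + |(x : ℝ)| + |(y : ℝ)|)) ^ M

theorem monic_struct (d : ℕ) (hd : 1 ≤ d) : ∃ M : ℕ,
    ∀ (T : ℕ) (_ : 2 ≤ T) (F : ℤ[X][X]), F.Monic → F.natDegree = d → Prime F →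
    (∀ j, (F.coeff j).natDegree ≤ d) → pn (pn zn) F ≤ T →
    ∀ (L : Type) [Field L] [Algebra ℚ L] (α β : L), ev α β F = 0 → Transcendental ℚ α →
    (∀ z : L, ∃ w1 ∈ Algebra.adjoin ℚ {α, β}, ∃ w2 ∈ Algebra.adjoin ℚ {α, β},
      w2 ≠ 0 ∧ w2 * z = w1) →
    ∀ x y : ℤ, ev x y F = 0 → |x| ≤ (T : ℤ) ^ M ∨
      ∃ A : ValuationSubring L, (∀ A' : ValuationSubring L,
        ((∀ q : ℚ, algebraMap ℚ L q ∈ A') ∧ ¬ (α ∈ A' ∧ β ∈ A')) ↔ A' = A) ∧
        ∃ g : ℚ[X], g.Monic ∧ Irreducible g ∧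
          Nonempty (IsLocalRing.ResidueField A ≃+* AdjoinRoot g) ∧
          ∃ η : ℝ, aeval η g = 0 ∧ Big M T x y ℚ⟮η⟯ := by
  obtain ⟨M, hM⟩ := softU d hd
  obtain ⟨M', hM'⟩ := int_modelU M
  -- constants for all levels
  have hlev : ∀ N r : ℕ, ∃ C1 C2 : ℕ, (1 ≤ N → 1 ≤ r → ∀ G : ℤ[X][X], WN r N (N + 1) G → Prime G →
      (wl r N (N + 1) G).coeff 0 ≠ 0 →
      nrm (wl r N (N + 1) G) r (derivative (wl r N (N + 1) G)) ≠ 0 → ∀ H : ℝ, 1 ≤ H →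
      pn (pn zn) G ≤ H → ∀ a b : ℤ, ev a b G = 0 → ∀ Z : ℝ, Z ^ N = |(a : ℝ)| →
      (2 + H) ^ C2 ≤ Z → ∃ η : ℝ, evf η (wl r N (N + 1) G) = 0 ∧ |η| ≤ H ∧
        ∀ {A : Type} [CommRing A] (N' : RingSeminorm A) (σ : A →+* ℝ), N' 1 ≤ 1 →
          (∀ x, |σ x| ≤ N' x) → ∀ τ : A, evf τ (wl r N (N + 1) G) = 0 → σ τ = η → N' τ ≤ 1 + H →
          ∃ Q : BQ N' σ N (N + 1) ((N + 1) * r + 1) ((2 + H) ^ C1) G a b, Q.Z = Z) := by
    intro N r
    by_cases h : 1 ≤ N ∧ 1 ≤ r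
    · obtain ⟨C1, C2, _, h3⟩ := exists_BQ r N (N + 1) h.2 h.1 (by omega)
        ((Nat.coprime_self_add_right).2 (Nat.coprime_one_right N))
      exact ⟨C1, C2, fun _ _ => h3⟩
    · exact ⟨0, 0, fun h1 h2 => absurd ⟨h1, h2⟩ h⟩
  choose C1 C2 hC using hlev
  obtain ⟨Cm, hCm⟩ : ∃ Cm, Cm = ∑ N ∈ range (M + 1), ∑ r ∈ range (M + 1), (C1 N r + C2 N r) :=
    ⟨_, rfl⟩
  have hCle : ∀ N r, N ≤ M → r ≤ M → C1 N r + C2 N r ≤ Cm := by
    intro N r hN hr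
    rw [hCm]
    refine le_trans ?_ (Finset.single_le_sum
      (f := fun N => ∑ r ∈ range (M + 1), (C1 N r + C2 N r))
      (fun _ _ => Nat.zero_le _) (Finset.mem_range.2 (by omega : N < M + 1)))
    exact Finset.single_le_sum (f := fun r => C1 N r + C2 N r) (fun _ _ => Nat.zero_le _)
      (Finset.mem_range.2 (by omega : r < M + 1))
  refine ⟨M + (M' + 2) * Cm * M * M + ((M' + 2) * Cm + M' + 2), ?_⟩
  obtain ⟨MM, hMM⟩ : ∃ MM, MM = M + (M' + 2) * Cm * M * M + ((M' + 2) * Cm + M' + 2) := ⟨_, rfl⟩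
  rw [← hMM]
  intro T hT F hm hdeg hp hdeg2 hpn L _ _ α β hF hα hgen x y hxy
  have hT1 : 1 ≤ T := by omega
  have hTZ : (1 : ℤ) ≤ T := by exact_mod_cast hT1
  have hTR : (1 : ℝ) ≤ T := by exact_mod_cast hT1
  have hT2R : (2 : ℝ) ≤ T := by exact_mod_cast hT
  rcases hM T hT F hm hdeg hp hdeg2 hpn x y hxy with h | h
  · left
    exact h.trans (pow_le_pow_right₀ hTZ (by omega))
  obtain ⟨N, r, cc', g, Φ, Ψ, hmod, hNM, hrM, G, s, a, b, hs0, hWN, hwl, hpG, hab, hxa, hau⟩ :=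
    hM' T hT F x y hxy h
  have hirr : Irreducible ((wl r N (N + 1) G).map (Int.castRingHom ℚ)) := by
    rw [hwl]; exact irr_scale hmod.hgi s hs0
  have hg0 : (wl r N (N + 1) G).coeff 0 ≠ 0 := by
    intro h0
    have h1 := congrArg (fun p : ℚ[X] => p.coeff 0) hwl
    simp only [coeff_map, h0, map_zero, coeff_scaleRoots] at h1
    rcases mul_eq_zero.1 h1.symm with h2 | h2
    · exact hmod.hg0 h2
    · exact pow_ne_zero _ hs0 h2
  obtain ⟨hwm, hwd⟩ := wl_monic hWN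
  have hGp : Prime G := Y660.SG.edge_prime r N (N + 1) hmod.hr hmod.hN (by omega)
    ((Nat.coprime_self_add_right).2 (Nat.coprime_one_right N)) G hWN.1 hWN.2.1 hWN.2.2
    (wl r N (N + 1) G) hwm hwd (fun l hl => wl_coeff l hl) hg0 hirr
  have hn : nrm (wl r N (N + 1) G) r (derivative (wl r N (N + 1) G)) ≠ 0 := by
    apply nrm_ne_zero_of_coprime _ _ hwm hwd
    rw [← derivative_map]
    exact hirr.separable
  obtain ⟨H, hHd⟩ : ∃ H : ℝ, H = (T : ℝ) ^ M' := ⟨_, rfl⟩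
  have hH : 1 ≤ H := by rw [hHd]; exact one_le_pow₀ hTR
  rw [← hHd] at hpG
  have h2T : 2 + H ≤ (T : ℝ) ^ (M' + 2) := by
    rw [pow_add, sq, ← hHd]
    nlinarith [mul_self_nonneg ((T : ℝ) - 2)]
  have h2H : (1 : ℝ) ≤ 2 + H := by linarith
  have hCNr := hCle N r hNM hrM
  have hN1 := hmod.hN
  obtain ⟨Z, hZ0, hZ⟩ : ∃ Z : ℝ, 0 ≤ Z ∧ Z ^ N = |(a : ℝ)| := by
    refine ⟨|(a : ℝ)| ^ ((N : ℝ)⁻¹), by positivity, ?_⟩
    rw [← Real.rpow_natCast, ← Real.rpow_mul (abs_nonneg _),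
      inv_mul_cancel₀ (by positivity), Real.rpow_one]
  by_cases hlarge : (2 + H) ^ (C2 N r) ≤ Z
  swap
  · left
    push Not at hlarge
    have h1 : |(a : ℝ)| ≤ (T : ℝ) ^ ((M' + 2) * Cm * M) := by
      rw [← hZ]
      calc Z ^ N ≤ ((2 + H) ^ (C2 N r)) ^ N := pow_le_pow_left₀ hZ0 hlarge.le _
        _ = (2 + H) ^ (C2 N r * N) := by rw [← pow_mul]
        _ ≤ ((T : ℝ) ^ (M' + 2)) ^ (C2 N r * N) := pow_le_pow_left₀ (by linarith) h2T _
        _ = (T : ℝ) ^ ((M' + 2) * (C2 N r * N)) := by rw [← pow_mul]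
        _ ≤ _ := by
          apply pow_le_pow_right₀ hTR
          rw [mul_assoc]
          exact Nat.mul_le_mul_left _ (Nat.mul_le_mul (by omega) hNM)
    have h2 : (|x| : ℝ) ≤ |(a : ℝ)| ^ M := by exact_mod_cast hxa
    have h3 : (|x| : ℝ) ≤ (T : ℝ) ^ MM := by
      refine h2.trans ((pow_le_pow_left₀ (abs_nonneg _) h1 _).trans ?_)
      rw [← pow_mul]
      exact pow_le_pow_right₀ hTR (by omega)
    exact_mod_cast h3
  right
  obtain ⟨η, hη0, hηH, hQ⟩ := hC N r hmod.hN hmod.hr G hWN hGp hg0 hn H hH hpG a b hab Z hZ hlarge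
  obtain ⟨A, hA1, hA2⟩ := place hmod α β hF hα hgen
  have hsR : (s : ℝ) ≠ 0 := by exact_mod_cast hs0
  refine ⟨A, hA1, g, hmod.hgm, hmod.hgi, hA2, η / s, ?_, ?_⟩
  · -- a root of `g`
    have h2 : aeval η (scaleRoots g s) = 0 := by
      rw [← hwl]
      have h3 : aeval η ((wl r N (N + 1) G).map (algebraMap ℤ ℚ)) = aeval η (wl r N (N + 1) G) :=
        aeval_map_algebraMap ℚ η (wl r N (N + 1) G)
      have h4 : aeval η (wl r N (N + 1) G) = 0 := by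
        rw [aeval_def, ← hη0, evf, coe_eval₂RingHom]
        congr 1
      exact h3.trans h4
    have h5 := scaleRoots_eval₂_mul (p := g) (f := algebraMap ℚ ℝ) (r := η / s) (s := s)
    have h6 : (algebraMap ℚ ℝ) s * (η / s) = η := by
      show (s : ℝ) * (η / s) = η
      field_simp
    rw [h6] at h5
    rw [aeval_def] at h2
    rw [h2] at h5
    rcases mul_eq_zero.1 h5.symm with h7 | h7
    · exfalso
      exact pow_ne_zero _ hsR h7
    · rw [aeval_def]; exact h7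
  · rw [adjoin_scale η s hsR ⟨s, rfl⟩]
    have hint : IsIntegral ℤ η := ⟨wl r N (N + 1) G, hwm, hη0⟩
    have hevf : ∀ p : ℤ[X], evf η p = aeval η p := by
      intro p
      rw [aeval_def, evf, coe_eval₂RingHom]
      congr 1
    have hfin : Module.finrank ℚ ℚ⟮η⟯ = r := by
      rw [IntermediateField.adjoin.finrank (hint.tower_top)]
      have h1 : minpoly ℚ η = (wl r N (N + 1) G).map (Int.castRingHom ℚ) := by
        symm
        apply minpoly.eq_of_irreducible_of_monic hirr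
        · have h2 := hevf (wl r N (N + 1) G)
          rw [hη0] at h2
          have h3 : aeval η ((wl r N (N + 1) G).map (algebraMap ℤ ℚ)) = aeval η (wl r N (N + 1) G) :=
            aeval_map_algebraMap ℚ η (wl r N (N + 1) G)
          rw [← h2] at h3
          exact h3
        · exact hwm.map _
      rw [h1, hwm.natDegree_map, hwd]
    have hfd : FiniteDimensional ℚ ℚ⟮η⟯ :=
      IntermediateField.adjoin.finiteDimensional (hint.tower_top)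
    haveI hnf : NumberField ℚ⟮η⟯ := { to_charZero := inferInstance, to_finiteDimensional := hfd }
    obtain ⟨x₀, hx₀⟩ : ∃ x₀ : ℚ⟮η⟯, algebraMap ℚ⟮η⟯ ℝ x₀ = η :=
      ⟨IntermediateField.AdjoinSimple.gen ℚ η, IntermediateField.AdjoinSimple.algebraMap_gen ℚ η⟩
    have hx0 : evf x₀ (wl r N (N + 1) G) = 0 := by
      have h3 := map_evf (algebraMap ℚ⟮η⟯ ℝ) x₀ (wl r N (N + 1) G)
      rw [hx₀, hη0] at h3
      exact (algebraMap ℚ⟮η⟯ ℝ).injective (by rw [h3, map_zero])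
    have hpg : pn zn (wl r N (N + 1) G) ≤ H := (pn_wl_le hmod.hN (by omega) hWN).trans hpG
    obtain ⟨α', hα1, hα2, hα3⟩ := exists_alpha ℚ⟮η⟯ (algebraMap ℚ⟮η⟯ ℝ) (wl r N (N + 1) G) hwm H hH
      hpg x₀ hx0
    rw [hx₀] at hα1
    obtain ⟨Q, _⟩ := hQ (hs ℚ⟮η⟯) (rE ℚ⟮η⟯ (algebraMap ℚ⟮η⟯ ℝ)) (hs_one _) (abs_rE_le _ _) α' hα2 hα1
      (by linarith)
    refine ⟨N, r, hmod.hN, hmod.hr, by omega, by omega, hnf, G, a, b, α', (2 + H) ^ (C1 N r), hfin,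
      by rw [hα1], ?_, ?_, hWN.1, hWN.2.1, hGp,
      fun j => (natDegree_coeff_le hWN hmod.hN j).trans (by omega), ⟨Q⟩, ?_, ?_⟩
    · refine (show hs ℚ⟮η⟯ α' ≤ 2 + H by linarith).trans (h2T.trans ?_)
      exact pow_le_pow_right₀ hTR (by omega)
    · calc (2 + H) ^ (C1 N r) ≤ ((T : ℝ) ^ (M' + 2)) ^ (C1 N r) :=
            pow_le_pow_left₀ (by linarith) h2T _
        _ = (T : ℝ) ^ ((M' + 2) * C1 N r) := by rw [← pow_mul]
        _ ≤ _ := by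
          apply pow_le_pow_right₀ hTR
          have : (M' + 2) * C1 N r ≤ (M' + 2) * Cm := Nat.mul_le_mul_left _ (by omega)
          omega
    · refine hxa.trans (pow_le_pow_right₀ ?_ (by omega))
      have h1 : (4 : ℝ) ≤ |(a : ℝ)| := Q.a_ge
      have h2 : (1 : ℝ) ≤ ((|a| : ℤ) : ℝ) := by push_cast; linarith
      exact_mod_cast h2
    · have h1 : |(a : ℝ)| ≤ ((T : ℝ) * (1 + |(x : ℝ)| + |(y : ℝ)|)) ^ M' := by
        have h2 : ((|(a : ℚ)| : ℚ) : ℝ) ≤ ((((T : ℚ) * (1 + |(x : ℚ)| + |(y : ℚ)|)) ^ M' : ℚ) : ℝ) := by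
          exact_mod_cast hau
        push_cast at h2
        exact h2
      refine h1.trans (pow_le_pow_right₀ ?_ (by omega))
      exact one_le_mul_of_one_le_of_one_le hTR (by
        have := abs_nonneg (x : ℝ)
        have := abs_nonneg (y : ℝ)
        linarith)

end Pool.Agent.Y910.A
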