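import Pool.Agent.Y910.A.A8
import Pool.Agent.Y910.G.P5

/-!
Structure of the large integer points on all plane curves.
-/

open Polynomial Finset NumberField IntermediateField

namespace Pool.Agent.Y910.A

open Pool.Agent.H322R2 Pool.Agent.Y910.S Pool.Agent.Y910.G

/-- a large integer point near a place at infinity with residue field `K`; `l` is the size of the
curve and `m` is the size of the point -/
def Near (M : ℕ) (l m : ℝ) (K : IntermediateField ℚ ℝ) : Prop :=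
  ∃ N r : ℕ, 1 ≤ N ∧ 1 ≤ r ∧ N ≤ M ∧ r ≤ M ∧ ∃ (_ : NumberField K) (G : ℤ[X][X]) (a b : ℤ)
    (α : 𝓞 K) (B : ℝ), Module.finrank ℚ K = r ∧ ℚ⟮rE K (algebraMap K ℝ) α⟯ = K ∧
    hs K α ≤ l ^ M ∧ B ≤ l ^ M ∧ G.Monic ∧ G.natDegree = r * N ∧ Prime G ∧
    (∀ j, (G.coeff j).natDegree ≤ (N + 1) * r + 1) ∧
    Nonempty (BQ (hs K) (rE K (algebraMap K ℝ)) N (N + 1) ((N + 1) * r + 1) B G a b) ∧
    m ≤ (l * |(a : ℝ)|) ^ M ∧ |(a : ℝ)| ≤ (l * m) ^ M

/-- the data of the place at infinity -/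
def OnePlace {L : Type} [Field L] [Algebra ℚ L] (π : MvPolynomial (Fin 2) ℚ →ₐ[ℚ] L) (g : ℚ[X]) :
    Prop :=
  ∃ A : ValuationSubring L, (∀ A' : ValuationSubring L,
    ((∀ q : ℚ, algebraMap ℚ L q ∈ A') ∧
      ¬ (π (MvPolynomial.X 0) ∈ A' ∧ π (MvPolynomial.X 1) ∈ A')) ↔ A' = A) ∧
    g.Monic ∧ Irreducible g ∧ Nonempty (IsLocalRing.ResidueField A ≃+* AdjoinRoot g)

theorem curve_struct (d : ℕ) : ∃ C : ℕ, 2 ≤ C ∧
    ∀ F : MvPolynomial (Fin 2) ℤ, F.totalDegree = d →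
    Irreducible (MvPolynomial.map (Int.castRingHom ℚ) F) →
    ∀ (L : Type) [Field L] [Algebra ℚ L] (π : MvPolynomial (Fin 2) ℚ →ₐ[ℚ] L),
    (∀ w, π w = 0 ↔ MvPolynomial.map (Int.castRingHom ℚ) F ∣ w) →
    (∀ z : L, ∃ w1 w2, π w2 ≠ 0 ∧ π w2 * z = π w1) →
    ∀ x y : ℤ, MvPolynomial.eval ![x, y] F = 0 →
      (x.natAbs ≤ (C * len F) ^ C ∧ y.natAbs ≤ (C * len F) ^ C) ∨
      ∃ g : ℚ[X], OnePlace π g ∧ ∃ η : ℝ, aeval η g = 0 ∧
        Near C (((C * len F : ℕ) : ℝ)) (max |(x : ℝ)| |(y : ℝ)|) ℚ⟮η⟯ := by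
  by_cases hd : 1 ≤ d
  swap
  · refine ⟨2, le_rfl, fun F hF hirr => ?_⟩
    have := totalDegree_pos F hirr
    omega
  obtain ⟨M, hM⟩ := monic_struct d hd
  obtain ⟨K, hK⟩ : ∃ K, K = (d + 1) * (2 * (1 + d) ^ d) := ⟨_, rfl⟩
  have hK2 : 2 * (d + 1) ≤ K := by
    rw [hK]
    have : 1 ≤ (1 + d) ^ d := Nat.one_le_pow _ _ (by omega)
    calc 2 * (d + 1) = (d + 1) * (2 * 1) := by ring
      _ ≤ _ := Nat.mul_le_mul_left _ (Nat.mul_le_mul_left _ this)
  obtain ⟨C, hC⟩ : ∃ C, C = K + (d * (M + 1) + 1) + (2 * d + 2) * M + (d + 1 + M) + d * M := ⟨_, rfl⟩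
  have hKC : K ≤ C := by omega
  refine ⟨C, by omega, ?_⟩
  intro F hFd hirr L _ _ π hker hsurj x y hxy
  have hF0 : F ≠ 0 := by
    rintro rfl
    rw [map_zero] at hirr
    exact hirr.ne_zero rfl
  obtain ⟨u, hu, hcu⟩ := exists_u F hF0
  have hcl : lc F u ≠ 0 := hcu
  have hFd1 : 1 ≤ F.totalDegree := by omega
  have hlen1 : 1 ≤ len F := len_pos hF0
  have hlenR : (1 : ℝ) ≤ len F := by exact_mod_cast hlen1
  obtain ⟨T, hT⟩ : ∃ T : ℕ, T = 2 * (len F * (1 + d) ^ d) ^ d := ⟨_, rfl⟩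
  have hBpos : 1 ≤ len F * (1 + d) ^ d := Nat.mul_pos hlen1 (by positivity)
  have hT2 : 2 ≤ T := by
    rw [hT]
    have := Nat.one_le_pow d _ hBpos
    omega
  -- the monic model
  have hpn2 : pn (pn zn) (F2 F u) ≤ (len F : ℝ) * (1 + d) ^ d := by
    refine (pn_toB_le u F).trans ?_
    rw [hFd]
    apply mul_le_mul_of_nonneg_left _ (by linarith)
    apply pow_le_pow_left₀ (by positivity)
    have : (u : ℝ) ≤ d := by rw [← hFd]; exact_mod_cast hu
    linarith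
  have hB1 : (1 : ℝ) ≤ (len F : ℝ) * (1 + d) ^ d := by exact_mod_cast hBpos
  have hpnG' : pn (pn zn) (GG F u) ≤ ((len F : ℝ) * (1 + d) ^ d) ^ d := by
    rw [← hFd]
    rw [← hFd] at hpn2 hB1
    exact pn_GG hcl hB1 hpn2 hFd1
  have hpnG : pn (pn zn) (GG F u) ≤ T := by
    refine hpnG'.trans ?_
    rw [hT]
    push_cast
    have : 0 ≤ ((len F : ℝ) * (1 + d) ^ d) ^ d := by positivity
    linarith
  obtain ⟨a, ha⟩ : ∃ a : ℤ, a = y - u * x := ⟨_, rfl⟩
  have hzero : ev a (lc F u * x) (GG F u) = 0 := by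
    rw [ev_GG hcl hFd1]
    have h1 := ev_toB (S := ℤ) x a (shE ℤ u F)
    have h2 : MvPolynomial.eval₂ (Int.castRingHom ℤ) ![x, a] (shE ℤ u F)
        = MvPolynomial.eval ![x, a] (shE ℤ u F) := by
      rw [MvPolynomial.eval, MvPolynomial.coe_eval₂Hom]
      congr 1
    rw [h2, eval_shE] at h1
    have h3 : (![(![x, a] : Fin 2 → ℤ) 0, (![x, a] : Fin 2 → ℤ) 1 + u * (![x, a] : Fin 2 → ℤ) 0]
        : Fin 2 → ℤ) = ![x, y] := by
      ext i
      fin_cases i
      · simp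
      · simp [ha]
    rw [h3, hxy] at h1
    rw [F2, h1, mul_zero]
  obtain ⟨hev, htr, hgen, hpl⟩ := Y852.FFRed.ff_reduce F hirr u hcl hFd1 π hker hsurj _ _ rfl rfl
  have hTR : (1 : ℝ) ≤ T := by exact_mod_cast (by omega : 1 ≤ T)
  have hbb := abs_b_le (GG_monic hcl) (GG_natDegree hcl) (GG_TD hcl) hTR hpnG a (lc F u * x) hzero
  have hlc1 : 1 ≤ |((lc F u : ℤ) : ℝ)| := by
    have : 1 ≤ |lc F u| := Int.one_le_abs hcl
    exact_mod_cast this
  have hxb : |(x : ℝ)| ≤ T * max 1 |(a : ℝ)| := by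
    refine le_trans ?_ hbb
    push_cast
    rw [abs_mul]
    exact le_mul_of_one_le_left (abs_nonneg _) hlc1
  -- `T` and `len F`
  obtain ⟨l, hl⟩ : ∃ l : ℝ, l = ((C * len F : ℕ) : ℝ) := ⟨_, rfl⟩
  have hlK : ((K * 1 * len F : ℕ) : ℝ) ≤ l := by
    rw [hl, mul_one]
    exact_mod_cast Nat.mul_le_mul_right _ hKC
  have hld : (d : ℝ) + 1 ≤ l ∧ 2 ≤ l := by
    have h1 : 2 * (d + 1) ≤ C * len F := by
      calc 2 * (d + 1) ≤ C := by omega
        _ ≤ C * len F := Nat.le_mul_of_pos_right _ (by omega)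
    have h2 : 2 * ((d : ℝ) + 1) ≤ l := by rw [hl]; exact_mod_cast h1
    have h3 : (0 : ℝ) ≤ d := by positivity
    constructor <;> linarith
  obtain ⟨hld1, hl2⟩ := hld
  have hl1 : 1 ≤ l := by linarith
  have hTl : (T : ℝ) ≤ l ^ d := by
    have h2 : T ≤ (K * 1 * len F) ^ d := by
      rw [hT, hK]
      calc 2 * (len F * (1 + d) ^ d) ^ d ≤ 2 ^ d * (len F * (1 + d) ^ d) ^ d :=
            Nat.mul_le_mul_right _ (Nat.le_self_pow (by omega) _)
        _ = (2 * (len F * (1 + d) ^ d)) ^ d := by rw [mul_pow 2]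
        _ ≤ ((d + 1) * (2 * (1 + d) ^ d) * 1 * len F) ^ d := by
            apply Nat.pow_le_pow_left
            calc 2 * (len F * (1 + d) ^ d) = 1 * (2 * (1 + d) ^ d) * 1 * len F := by ring
              _ ≤ _ := by
                apply Nat.mul_le_mul_right
                apply Nat.mul_le_mul_right
                exact Nat.mul_le_mul_right _ (by omega)
    calc (T : ℝ) ≤ ((K * 1 * len F : ℕ) : ℝ) ^ d := by exact_mod_cast h2
      _ ≤ l ^ d := pow_le_pow_left₀ (by positivity) hlK _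
  -- the trivial point
  by_cases hxy0 : x = 0 ∧ y = 0
  · left
    rw [hxy0.1, hxy0.2]
    simp
  obtain ⟨m, hmd⟩ : ∃ m : ℝ, m = max |(x : ℝ)| |(y : ℝ)| := ⟨_, rfl⟩
  have hm1 : 1 ≤ m := by
    rw [hmd]
    by_cases hx0 : x = 0
    · have hy0 : y ≠ 0 := fun h => hxy0 ⟨hx0, h⟩
      refine le_max_of_le_right ?_
      exact_mod_cast Int.one_le_abs hy0
    · refine le_max_of_le_left ?_
      exact_mod_cast Int.one_le_abs hx0
  have hxm : |(x : ℝ)| ≤ m := by rw [hmd]; exact le_max_left _ _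
  have hym : |(y : ℝ)| ≤ m := by rw [hmd]; exact le_max_right _ _
  have huR : (u : ℝ) ≤ d := by rw [← hFd]; exact_mod_cast hu
  have hd0 : (0 : ℝ) ≤ d := by positivity
  -- bounds for `x`, `y` in terms of a bound for `a`
  have key : ∀ W : ℝ, 1 ≤ W → |(a : ℝ)| ≤ W → m ≤ (d + 1) * (T * W) := by
    intro W hW haW
    have hmax : max 1 |(a : ℝ)| ≤ W := max_le hW haW
    have hx : |(x : ℝ)| ≤ T * W := hxb.trans (mul_le_mul_of_nonneg_left hmax (by linarith))
    have hTW : 0 ≤ (T : ℝ) * W := by positivity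
    have hy : |(y : ℝ)| ≤ (d + 1) * (T * W) := by
      have h1 : (y : ℝ) = a + u * x := by rw [ha]; push_cast; ring
      rw [h1]
      refine (abs_add_le _ _).trans ?_
      rw [abs_mul, Nat.abs_cast]
      have h3 : (u : ℝ) * |(x : ℝ)| ≤ d * (T * W) :=
        mul_le_mul huR hx (abs_nonneg _) (by positivity)
      have h4 : (W : ℝ) ≤ T * W := le_mul_of_one_le_left (by linarith) hTR
      linarith
    rw [hmd]
    refine max_le (hx.trans ?_) hy
    apply le_mul_of_one_le_left hTW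
    linarith
  have hGTD := GG_TD hcl
  rcases hM T hT2 (GG F u) (GG_monic hcl) (by rw [GG_natDegree hcl, hFd]) (GG_prime hcl hFd1 hirr)
    (fun j => by rw [← hFd]; exact (hGTD.2 j).trans (Nat.sub_le _ _)) hpnG L _ _ hev htr hgen
    a (lc F u * x) hzero with h | ⟨A, hA, g, hgm, hgi, hres, η, hη, hbig⟩
  · left
    have h1 : |(a : ℝ)| ≤ (T : ℝ) ^ M := by exact_mod_cast h
    have h2 := key ((T : ℝ) ^ M) (one_le_pow₀ hTR) h1
    have h3 : m ≤ l ^ C := by
      refine h2.trans ?_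
      calc ((d : ℝ) + 1) * (T * (T : ℝ) ^ M) = (d + 1) * (T : ℝ) ^ (M + 1) := by ring
        _ ≤ l * (l ^ d) ^ (M + 1) := by gcongr
        _ = l ^ (d * (M + 1) + 1) := by rw [← pow_mul, pow_succ l (d * (M + 1))]; ring
        _ ≤ l ^ C := pow_le_pow_right₀ hl1 (by omega)
    constructor
    · have h4 : (x.natAbs : ℝ) ≤ (((C * len F) ^ C : ℕ) : ℝ) := by
        rw [Nat.cast_natAbs, Int.cast_abs, Nat.cast_pow, ← hl]
        exact hxm.trans h3
      exact_mod_cast h4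
    · have h4 : (y.natAbs : ℝ) ≤ (((C * len F) ^ C : ℕ) : ℝ) := by
        rw [Nat.cast_natAbs, Int.cast_abs, Nat.cast_pow, ← hl]
        exact hym.trans h3
      exact_mod_cast h4
  · right
    refine ⟨g, ⟨A, ?_, hgm, hgi, hres⟩, η, hη, ?_⟩
    · intro A'
      rw [← hA A']
      apply and_congr_right
      intro hQ
      exact not_congr (hpl A' hQ)
    · obtain ⟨N, r, hN, hr, hNM, hrM, hnf, G, a', b', α, B, h1, h2, h3, h4, h5, h6, h7, h8, ⟨Q⟩, h9,
        h10⟩ := hbig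
      have hTM : (T : ℝ) ^ M ≤ l ^ C := by
        calc (T : ℝ) ^ M ≤ (l ^ d) ^ M := pow_le_pow_left₀ (by linarith) hTl _
          _ = l ^ (d * M) := by rw [← pow_mul]
          _ ≤ l ^ C := pow_le_pow_right₀ hl1 (by omega)
      rw [← hl, ← hmd]
      have ha4 := Q.a_ge
      refine ⟨N, r, hN, hr, by omega, by omega, hnf, G, a', b', α, B, h1, h2, h3.trans hTM,
        h4.trans hTM, h5, h6, h7, h8, ⟨Q⟩, ?_, ?_⟩
      · have h11 : |(a : ℝ)| ≤ |(a' : ℝ)| ^ M := by exact_mod_cast h9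
        have ha1 : 1 ≤ |(a' : ℝ)| := by linarith
        refine (key (|(a' : ℝ)| ^ M) (one_le_pow₀ ha1) h11).trans ?_
        calc ((d : ℝ) + 1) * (T * |(a' : ℝ)| ^ M) ≤ l * (l ^ d * |(a' : ℝ)| ^ M) := by gcongr
          _ = l ^ (d + 1) * |(a' : ℝ)| ^ M := by ring
          _ ≤ l ^ (d + 1 + M) * |(a' : ℝ)| ^ (d + 1 + M) := by
              apply mul_le_mul (pow_le_pow_right₀ hl1 (by omega))
                (pow_le_pow_right₀ ha1 (by omega)) (by positivity) (by positivity)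
          _ = (l * |(a' : ℝ)|) ^ (d + 1 + M) := by rw [mul_pow]
          _ ≤ _ := pow_le_pow_right₀ (one_le_mul_of_one_le_of_one_le hl1 ha1) (by omega)
      · refine h10.trans ?_
        have e1 : |(a : ℝ)| ≤ (1 + d) * m := by
          have h1 : (a : ℝ) = y - u * x := by rw [ha]; push_cast; ring
          rw [h1]
          refine (abs_sub _ _).trans ?_
          rw [abs_mul, Nat.abs_cast]
          have h3 : (u : ℝ) * |(x : ℝ)| ≤ d * m := mul_le_mul huR hxm (abs_nonneg _) (by positivity)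
          linarith
        have e2 : 1 ≤ (1 + (d : ℝ)) * m := by nlinarith
        have e3 : |(((lc F u * x : ℤ)) : ℝ)| ≤ T * ((1 + d) * m) :=
          hbb.trans (mul_le_mul_of_nonneg_left (max_le e2 e1) (by linarith))
        have hT2R : (2 : ℝ) ≤ T := by exact_mod_cast hT2
        have e4 : (T : ℝ) * (1 + |(a : ℝ)| + |(((lc F u * x : ℤ)) : ℝ)|)
            ≤ l ^ (2 * d + 2) * m := by
          have e5 : 1 + |(a : ℝ)| + |(((lc F u * x : ℤ)) : ℝ)| ≤ 2 * (T * ((1 + d) * m)) := by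
            nlinarith
          calc (T : ℝ) * (1 + |(a : ℝ)| + |(((lc F u * x : ℤ)) : ℝ)|)
              ≤ T * (2 * (T * ((1 + d) * m))) := mul_le_mul_of_nonneg_left e5 (by linarith)
            _ ≤ l ^ d * (l * (l ^ d * (l * m))) := by
                have : (1 : ℝ) + d ≤ l := by linarith
                gcongr
            _ = _ := by ring
        calc _ ≤ (l ^ (2 * d + 2) * m) ^ M := pow_le_pow_left₀ (by positivity) e4 _
          _ ≤ ((l * m) ^ (2 * d + 2)) ^ M := by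
              apply pow_le_pow_left₀ (by positivity)
              rw [mul_pow]
              apply mul_le_mul_of_nonneg_left _ (by positivity)
              exact le_self_pow₀ hm1 (by omega)
          _ = (l * m) ^ ((2 * d + 2) * M) := by rw [← pow_mul]
          _ ≤ _ := pow_le_pow_right₀ (one_le_mul_of_one_le_of_one_le hl1 hm1) (by omega)

end Pool.Agent.Y910.A
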